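import Mathlib

set_option autoImplicit false

/-!
# Three-generator groups of exponent `n` and local finiteness (MP_544bd1_al): definitions
-/

namespace Pool.Agent.H32BU

/-- the subgroup generated by the commutators of elements of `A` of coprime orders -/
def NR {G : Type} [Group G] (A : Subgroup G) : Subgroup G :=
  Subgroup.closure {g | ∃ x ∈ A, ∃ y ∈ A, ∃ a b : ℕ, Nat.Coprime a b ∧ x ^ a = 1 ∧ y ^ b = 1 ∧
    g = x * y * x⁻¹ * y⁻¹}

/-- the iterated subgroups `NR` (for a finite group: the lower Fitting series) -/
def DD {G : Type} [Group G] (A : Subgroup G) : ℕ → Subgroup G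
  | 0 => A
  | m + 1 => NR (DD A m)

/-- locally finite -/
def LF (G : Type) [Group G] : Prop := ∀ S : Finset G, Finite (Subgroup.closure (S : Set G))

/-- all groups of exponent dividing `n` are locally finite -/
def LocFin (n : ℕ) : Prop := ∀ (G : Type) [Group G], (∀ x : G, x ^ n = 1) → LF G

/-- subgroup generated by two elements -/
def c2 {G : Type} [Group G] (a x : G) : Subgroup G := Subgroup.closure {a, x}

/-- subgroup generated by three elements -/
def c3 {G : Type} [Group G] (a x z : G) : Subgroup G := Subgroup.closure {a, x, z}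

/-- the free Burnside group of rank `m` and exponent `n` -/
abbrev Bu (m n : ℕ) : Type :=
  FreeGroup (Fin m) ⧸ Subgroup.normalClosure (Set.range fun w : FreeGroup (Fin m) => w ^ n)

/-- elements `e` with `e ^ q = 1` which generate with every `y`, `y ^ q = 1`, a group of exponent
dividing `q` -/
def Nset {G : Type} [Group G] (q : ℕ) : Set G :=
  {e | e ^ q = 1 ∧ ∀ y, y ^ q = 1 → ∀ c ∈ c2 e y, c ^ q = 1}

/-- the `p`-part of `n` -/
def qp (p n : ℕ) : ℕ := p ^ n.factorization p

end Pool.Agent.H32BU
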