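import Mathlib
import Pool.Agent.H32BU.Defs

set_option autoImplicit false

/-!
# Exact statements of the independent tasks of project BU
-/

namespace Pool.Agent.H32BU

/-! ## A. The subgroups `DD A m` -/

/-- Monotonicity, decreasing, stability under conjugation. -/
def S_MON : Prop := ∀ (G : Type) [Group G],
  (∀ A B : Subgroup G, A ≤ B → ∀ m, DD A m ≤ DD B m) ∧
  (∀ (A : Subgroup G) (m : ℕ), DD A (m + 1) ≤ DD A m) ∧
  (∀ (A : Subgroup G) (g : G), (∀ a ∈ A, g * a * g⁻¹ ∈ A) → (∀ a ∈ A, g⁻¹ * a * g ∈ A) →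
    ∀ m, (∀ a ∈ DD A m, g * a * g⁻¹ ∈ DD A m) ∧ (∀ a ∈ DD A m, g⁻¹ * a * g ∈ DD A m)) ∧
  (∀ A : Subgroup G, A.Normal → ∀ m, (DD A m).Normal) ∧
  (∀ (A : Subgroup G) (m k : ℕ), DD A (m + k) = DD (DD A m) k)

/-- Injective homomorphisms. -/
def S_MAPI : Prop := ∀ (G H : Type) [Group G] [Group H] (f : G →* H), Function.Injective f →
  ∀ (A : Subgroup G) (m : ℕ), (DD A m).map f = DD (A.map f) m

/-- Homomorphisms of torsion groups. -/
def S_MAPS : Prop := ∀ (G H : Type) [Group G] [Group H] (f : G →* H),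
  (∀ x : G, IsOfFinOrder x) → ∀ (A : Subgroup G) (m : ℕ), (DD A m).map f = DD (A.map f) m

/-- A finite subgroup in which elements of coprime orders commute: the `p`-elements form a
subgroup, and so do the elements of order prime to `p`. -/
def S_SYL : Prop := ∀ (G : Type) [Group G] (A : Subgroup G), Finite A → NR A = ⊥ →
  ∀ p : ℕ, p.Prime →
  (∃ P : Subgroup G, ∀ x, x ∈ P ↔ x ∈ A ∧ ∃ k : ℕ, x ^ p ^ k = 1) ∧
  (∃ Q : Subgroup G, ∀ x, x ∈ Q ↔ x ∈ A ∧ ∃ k : ℕ, Nat.Coprime k p ∧ x ^ k = 1)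

/-- Elements of the last nontrivial term generate `p`-groups with all `p`-elements. -/
def S_COPC : Prop := ∀ (G : Type) [Group G] (F : Subgroup G), Finite F → ∀ n : ℕ, 1 ≤ n →
  (∀ x ∈ F, x ^ n = 1) → ∀ m, DD F (m + 1) = ⊥ → ∀ p : ℕ, p.Prime →
  ∀ e ∈ DD F m, e ^ qp p n = 1 → ∀ y ∈ F, y ^ qp p n = 1 → ∀ c ∈ c2 e y, c ^ qp p n = 1

/-- A finite soluble group has finite height. -/
def S_SOLH : Prop := ∀ (G : Type) [Group G], Finite G → Group.IsSolvable G →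
  ∃ m, DD (⊤ : Subgroup G) m = ⊥

/-! ## B. The height is detected on two-generator subgroups -/

/-- Conjugacy of complements of an elementary abelian normal subgroup. -/
def S_SZ : Prop := ∀ (F : Type) [Group F] (V B B' : Subgroup F) (p : ℕ), Finite F → p.Prime →
  V.Normal → (∀ v ∈ V, ∀ w ∈ V, v * w = w * v) → (∀ v ∈ V, v ^ p = 1) →
  (∀ b ∈ B, ∃ k : ℕ, Nat.Coprime k p ∧ b ^ k = 1) →
  (∀ b ∈ B', ∃ k : ℕ, Nat.Coprime k p ∧ b ^ k = 1) →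
  (∀ b ∈ B, ∃ v ∈ V, b * v ∈ B') → (∀ b ∈ B', ∃ v ∈ V, b * v ∈ B) →
  ∃ u ∈ V, ∀ g, g ∈ B' ↔ u * g * u⁻¹ ∈ B

/-- Counting lemma. -/
def S_CNT : Prop := ∀ (F : Type) [Group F] (V C : Subgroup F) (a x : F), Finite F → V.Normal →
  (∀ v ∈ V, ∀ w ∈ V, v * w = w * v) → C ≤ V → (∀ c ∈ C, a⁻¹ * c * a ∈ C) →
  (∀ c ∈ C, x⁻¹ * c * x ∈ C) →
  (∀ v ∈ V, ∃ u ∈ V, a⁻¹ * u * a * u⁻¹ ∈ C ∧ x⁻¹ * u * x * v * u⁻¹ ∈ C) →
  ∀ u ∈ V, a⁻¹ * u * a * u⁻¹ ∈ C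

/-- Changing one generator by an element of a normal subgroup. -/
def S_PAIR : Prop := ∀ (F : Type) [Group F] (V : Subgroup F) (p m : ℕ) (a x : F), Finite F →
  p.Prime → V.Normal → (∀ v ∈ V, ∀ w ∈ V, v * w = w * v) → (∀ v ∈ V, v ^ p = 1) →
  (∀ b ∈ DD (c2 a x) m, ∃ k : ℕ, Nat.Coprime k p ∧ b ^ k = 1) →
  (∀ b ∈ DD (c2 a x) m, (∀ v ∈ V, b * v = v * b) → b = 1) →
  (∀ a' x' : F, DD (c2 a' x') (m + 1) = ⊥) → DD (c2 a x) m = ⊥

/-- Structure of a minimal counterexample, first part. -/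
def S_TWOA : Prop := ∀ (F : Type) [Group F], Finite F → Group.IsSolvable F → ∀ m : ℕ,
  DD (⊤ : Subgroup F) (m + 1) ≠ ⊥ →
  (∀ K : Subgroup F, K.Normal → K ≠ ⊥ → DD (⊤ : Subgroup F) (m + 1) ≤ K) →
  ∃ (p : ℕ) (S : Subgroup F), p.Prime ∧
    (∀ v ∈ DD (⊤ : Subgroup F) (m + 1), ∀ w ∈ DD (⊤ : Subgroup F) (m + 1), v * w = w * v) ∧
    (∀ v ∈ DD (⊤ : Subgroup F) (m + 1), v ^ p = 1) ∧ S ≠ ⊤ ∧
    DD (⊤ : Subgroup F) (m + 1) ⊔ S = ⊤ ∧
    (∀ s ∈ S, (∀ v ∈ DD (⊤ : Subgroup F) (m + 1), s * v = v * s) → s = 1)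

/-- Structure of a minimal counterexample, second part. -/
def S_TWOB : Prop := ∀ (F : Type) [Group F] (m p : ℕ) (S : Subgroup F), Finite F → p.Prime →
  DD (⊤ : Subgroup F) (m + 1) ≠ ⊥ →
  (∀ K : Subgroup F, K.Normal → K ≠ ⊥ → DD (⊤ : Subgroup F) (m + 1) ≤ K) →
  (∀ v ∈ DD (⊤ : Subgroup F) (m + 1), ∀ w ∈ DD (⊤ : Subgroup F) (m + 1), v * w = w * v) →
  (∀ v ∈ DD (⊤ : Subgroup F) (m + 1), v ^ p = 1) →
  DD (⊤ : Subgroup F) (m + 1) ⊔ S = ⊤ →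
  (∀ s ∈ S, (∀ v ∈ DD (⊤ : Subgroup F) (m + 1), s * v = v * s) → s = 1) →
  DD S (m + 1) = ⊥ →
  DD S m ≠ ⊥ ∧ ∀ b ∈ DD S m, ∃ k : ℕ, Nat.Coprime k p ∧ b ^ k = 1

/-- The height is detected on two-generator subgroups. -/
def S_TWO : Prop := ∀ (F : Type) [Group F], Finite F → Group.IsSolvable F → ∀ m : ℕ,
  (∀ a x : F, DD (c2 a x) m = ⊥) → DD (⊤ : Subgroup F) m = ⊥

/-! ## C. Infinite groups -/

def S_NS : Prop := ∀ (G : Type) [Group G] (q : ℕ),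
  (∀ g ∈ Subgroup.closure (Nset q : Set G), g ^ q = 1) ∧
  (Subgroup.closure (Nset q : Set G)).Normal

/-- Schmidt's theorem. -/
def S_SCH : Prop := ∀ (G : Type) [Group G] (N : Subgroup G) [N.Normal], LF N → LF (G ⧸ N) → LF G

/-- Closure properties of locally finite groups. -/
def S_LFS : Prop :=
  (∀ (G H : Type) [Group G] [Group H] (f : G →* H), Function.Surjective f → LF G → LF H) ∧
  (∀ (G H : Type) [Group G] [Group H] (f : G →* H), Function.Injective f → LF H → LF G) ∧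
  (∀ (G : Type) [Group G] (A B : Subgroup G), A.Normal → B.Normal → LF A → LF B →
    LF ↥(A ⊔ B))

/-- The locally finite normal subgroup containing all `Nset (qp p n)`. -/
def S_MLF : Prop := ∀ n : ℕ, 1 ≤ n → (∀ p : ℕ, p.Prime → LocFin (qp p n)) →
  ∀ (G : Type) [Group G], ∃ M : Subgroup G, M.Normal ∧ LF M ∧
    ∀ p : ℕ, p.Prime → (Nset (qp p n) : Set G) ⊆ M

/-- One step down. -/
def S_STEP : Prop := ∀ n : ℕ, 1 ≤ n → (∀ p : ℕ, p.Prime → LocFin (qp p n)) → ∀ m : ℕ,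
  ∀ (G : Type) [Group G], (∀ x : G, x ^ n = 1) →
  (∀ a x z : G, Finite (c3 a x z) ∧ Group.IsSolvable (c3 a x z) ∧ DD (c3 a x z) (m + 1) = ⊥) →
  ∃ (M : Subgroup G) (_ : M.Normal), LF M ∧
    ∀ a x z : G ⧸ M, Finite (c3 a x z) ∧ Group.IsSolvable (c3 a x z) ∧ DD (c3 a x z) m = ⊥

/-- Induction on the height. -/
def S_IND : Prop := ∀ n : ℕ, 1 ≤ n → (∀ p : ℕ, p.Prime → LocFin (qp p n)) → ∀ m : ℕ,
  ∀ (G : Type) [Group G], (∀ x : G, x ^ n = 1) →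
  (∀ a x z : G, Finite (c3 a x z) ∧ Group.IsSolvable (c3 a x z) ∧ DD (c3 a x z) m = ⊥) → LF G

/-- Three-generator groups of exponent `n` are images of `Bu 3 n`. -/
def S_QB : Prop := ∀ n : ℕ, Finite (Bu 3 n) → Group.IsSolvable (Bu 3 n) → ∃ m : ℕ,
  ∀ (G : Type) [Group G], (∀ x : G, x ^ n = 1) → ∀ a x z : G,
    Finite (c3 a x z) ∧ Group.IsSolvable (c3 a x z) ∧ DD (c3 a x z) m = ⊥

/-- Easy facts on `LocFin`. -/
def S_LFD : Prop := (∀ n d : ℕ, d ∣ n → LocFin n → LocFin d) ∧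
  (∀ n m : ℕ, LocFin n → Finite (Bu m n)) ∧ LocFin 1 ∧
  (∀ m n : ℕ, ∀ x : Bu m n, x ^ n = 1)

/-- The theorems of Burnside and Sanov (exponents 3 and 4). -/
def S_L34 : Prop := LocFin 3 ∧ LocFin 4

/-! ## D. Burnside's `p ^ a q ^ b` theorem -/

/-- Structure of the complex group algebra. -/
def S_WED : Prop := ∀ (G : Type) [Group G] [Finite G], ∃ (n : ℕ) (d : Fin n → ℕ),
  (∀ i, 0 < d i) ∧
  Nonempty (MonoidAlgebra ℂ G ≃ₐ[ℂ] ((i : Fin n) → Matrix (Fin (d i)) (Fin (d i)) ℂ))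

/-- The character of the regular representation. -/
def S_TRZ : Prop := ∀ (G : Type) [Group G] [Finite G] (n : ℕ) (d : Fin n → ℕ)
  (e : MonoidAlgebra ℂ G ≃ₐ[ℂ] ((i : Fin n) → Matrix (Fin (d i)) (Fin (d i)) ℂ)) (g : G),
  g ≠ 1 → ∑ i, (d i : ℂ) * Matrix.trace (e (MonoidAlgebra.single g 1) i) = 0

/-- Characters are algebraic integers. -/
def S_INTG : Prop := ∀ (d m : ℕ) (A : Matrix (Fin d) (Fin d) ℂ), 1 ≤ m → A ^ m = 1 →
  IsIntegral ℤ (Matrix.trace A)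

/-- An average of roots of unity which is an algebraic integer. -/
def S_NRM : Prop := ∀ (d m : ℕ) (A : Matrix (Fin d) (Fin d) ℂ), 1 ≤ d → 1 ≤ m → A ^ m = 1 →
  IsIntegral ℤ (Matrix.trace A / (d : ℂ)) → Matrix.trace A = 0 ∨ ∃ c : ℂ, A = c • 1

/-- Central characters are algebraic integers. -/
def S_CEN : Prop := ∀ (G : Type) [Group G] [Finite G] (d : ℕ)
  (f : MonoidAlgebra ℂ G →ₐ[ℂ] Matrix (Fin d) (Fin d) ℂ) (g : G), 1 ≤ d →
  Function.Surjective f →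
  IsIntegral ℤ ((Nat.card {h : G // IsConj g h} : ℂ) *
    Matrix.trace (f (MonoidAlgebra.single g 1)) / (d : ℂ))

/-- The trivial representation in the group algebra. -/
def S_TRI : Prop := ∀ (G : Type) [Group G] [Finite G] (n : ℕ) (d : Fin n → ℕ)
  (e : MonoidAlgebra ℂ G ≃ₐ[ℂ] ((i : Fin n) → Matrix (Fin (d i)) (Fin (d i)) ℂ)),
  (∀ i, 0 < d i) → ∃ i₀, d i₀ = 1 ∧ (∀ g, e (MonoidAlgebra.single g 1) i₀ = 1) ∧
    ∀ i, (∀ g, e (MonoidAlgebra.single g 1) i = 1) → i = i₀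

/-- A simple group with a conjugacy class of prime power size is commutative. -/
def S_PPC : Prop := ∀ (G : Type) [Group G] [Finite G], IsSimpleGroup G → ∀ (g : G) (p k : ℕ),
  p.Prime → g ≠ 1 → Nat.card {h : G // IsConj g h} = p ^ k → ∀ x y : G, x * y = y * x

/-- Burnside's theorem. -/
def S_BUR : Prop := ∀ (G : Type) [Group G] [Finite G] (p q c d : ℕ), p.Prime → q.Prime →
  Nat.card G = p ^ c * q ^ d → Group.IsSolvable G

/-- The order of a finite group of exponent `p ^ a q ^ b`. -/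
def S_CRD : Prop := ∀ (G : Type) [Group G] [Finite G] (p q a b : ℕ), p.Prime → q.Prime →
  (∀ x : G, x ^ (p ^ a * q ^ b) = 1) → ∃ c d : ℕ, Nat.card G = p ^ c * q ^ d

end Pool.Agent.H32BU
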