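import Mathlib
import Pool.Agent.H32BU.St

set_option autoImplicit false

namespace Pool.Agent.H32BU

universe u

/-- every group of exponent dividing `n` (in the universe `u`) is locally finite -/
def InL (n : ℕ) : Prop := ∀ (G : Type u) [Group G], (∀ x : G, x ^ n = 1) →
  ∀ S : Set G, S.Finite → Finite (Subgroup.closure S)

theorem locFin_of_bu (n : ℕ) (h : ∀ m, Finite (Bu m n)) : InL.{u} n := by
  intro G _ hG S hS
  classical
  have := hS.to_subtype
  obtain ⟨k, ⟨e⟩⟩ := Finite.exists_equiv_fin S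
  let f : FreeGroup (Fin k) →* G := FreeGroup.lift fun i => (e.symm i : G)
  have hker : Subgroup.normalClosure (Set.range fun w : FreeGroup (Fin k) => w ^ n) ≤ f.ker := by
    apply Subgroup.normalClosure_le_normal
    rintro _ ⟨w, rfl⟩
    simp [MonoidHom.mem_ker, hG]
  let F : Bu k n →* G := QuotientGroup.lift _ f hker
  have hr : Subgroup.closure S ≤ F.range := by
    rw [Subgroup.closure_le]
    intro s hs
    refine ⟨QuotientGroup.mk (FreeGroup.of (e ⟨s, hs⟩)), ?_⟩
    simp [F, f]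
  have := h k
  have : Finite F.range := Finite.of_surjective F.rangeRestrict F.rangeRestrict_surjective
  exact Finite.of_injective (Subgroup.inclusion hr) (Subgroup.inclusion_injective hr)

theorem bu_of_inL (hd : S_LFD) (n : ℕ) (h : InL.{u} n) (m : ℕ) : Finite (Bu m n) := by
  have hx := hd.2.2.2 m n
  have h1 := h (ULift.{u} (Bu m n)) (fun x => by
    apply ULift.down_injective
    simpa using hx x.down) (Set.range fun i : Fin m => ULift.up (QuotientGroup.mk (FreeGroup.of i)))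
    (Set.finite_range _)
  have htop : Subgroup.closure (Set.range fun i : Fin m =>
      (ULift.up (QuotientGroup.mk (FreeGroup.of i)) : ULift.{u} (Bu m n))) = ⊤ := by
    rw [eq_top_iff]
    rintro ⟨x⟩ -
    obtain ⟨w, rfl⟩ := QuotientGroup.mk_surjective x
    induction w using FreeGroup.induction_on with
    | C1 => exact one_mem _
    | of i => exact Subgroup.subset_closure ⟨i, rfl⟩
    | inv_of i hi => 
      have := inv_mem hi
      exact this
    | mul a b ha hb => 
      have := mul_mem ha hb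
      exact this
  rw [htop] at h1
  have h2 : Finite (ULift.{u} (Bu m n)) := Finite.of_equiv _ (Subgroup.topEquiv (G := ULift.{u} (Bu m n))).toEquiv
  exact Finite.of_equiv _ Equiv.ulift

theorem inL_iff (hd : S_LFD) (n : ℕ) : InL.{u} n ↔ LocFin n := by
  constructor
  · intro h G _ hG S
    exact locFin_of_bu n (bu_of_inL hd n h) G hG (S : Set G) S.finite_toSet
  · intro h
    exact locFin_of_bu n (fun m => hd.2.1 n m h)

theorem main1 (hI : S_IND) (hQ : S_QB) (n : ℕ) (hn : 1 ≤ n)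
    (h : ∀ p k : ℕ, p.Prime → p ^ k ∣ n → LocFin (p ^ k)) (hf : Finite (Bu 3 n))
    (hs : Group.IsSolvable (Bu 3 n)) : LocFin n := by
  obtain ⟨m, hm⟩ := hQ n hf hs
  have hq : ∀ p : ℕ, p.Prime → LocFin (qp p n) := fun p hp => h p _ hp (Nat.ordProj_dvd n p)
  intro G _ hG
  exact hI n hn hq m G hG (hm G hG)

theorem main2 (hI : S_IND) (hQ : S_QB) (hd : S_LFD) (hB : S_BUR) (hC : S_CRD) (p q a b : ℕ)
    (hp : p.Prime) (hq : q.Prime) (hpq : p ≠ q) :
    LocFin (p ^ a * q ^ b) ↔ LocFin (p ^ a) ∧ LocFin (q ^ b) ∧ Finite (Bu 3 (p ^ a * q ^ b)) := by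
  constructor
  · intro h
    exact ⟨hd.1 _ _ (dvd_mul_right _ _) h, hd.1 _ _ (dvd_mul_left _ _) h, hd.2.1 _ 3 h⟩
  · rintro ⟨h1, h2, h3⟩
    have hn : 1 ≤ p ^ a * q ^ b :=
      Nat.mul_pos (pow_pos hp.pos _) (pow_pos hq.pos _)
    apply main1 hI hQ _ hn _ h3
    · obtain ⟨c, d, hcd⟩ := hC (Bu 3 (p ^ a * q ^ b)) p q a b hp hq (hd.2.2.2 3 _)
      exact hB _ p q c d hp hq hcd
    · intro r k hr hk
      by_cases hrp : r = p
      · subst hrp
        have hc : Nat.Coprime (r ^ k) (q ^ b) :=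
          Nat.Coprime.pow _ _ ((Nat.coprime_primes hr hq).2 hpq)
        exact hd.1 _ _ (hc.dvd_of_dvd_mul_right hk) h1
      · by_cases hrq : r = q
        · subst hrq
          have hc : Nat.Coprime (r ^ k) (p ^ a) :=
            Nat.Coprime.pow _ _ ((Nat.coprime_primes hr hp).2 hrp)
          exact hd.1 _ _ (hc.dvd_of_dvd_mul_left hk) h2
        · have hc1 : Nat.Coprime (r ^ k) (p ^ a) :=
            Nat.Coprime.pow _ _ ((Nat.coprime_primes hr hp).2 hrp)
          have hc2 : Nat.Coprime (r ^ k) (q ^ b) :=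
            Nat.Coprime.pow _ _ ((Nat.coprime_primes hr hq).2 hrq)
          have h5 : r ^ k ∣ 1 := by
            have := hc1.dvd_of_dvd_mul_left hk
            have h6 : Nat.Coprime (r ^ k) (q ^ b) := hc2
            exact (Nat.Coprime.eq_one_of_dvd h6 this) ▸ dvd_refl _
          rw [Nat.dvd_one.1 h5]
          exact hd.2.2.1

theorem final (hI : S_IND) (hQ : S_QB) (hd : S_LFD) (hL : S_L34) (hB : S_BUR) (hC : S_CRD) :
    (∀ n : ℕ, 1 ≤ n → (∀ p k : ℕ, p.Prime → p ^ k ∣ n → InL.{u} (p ^ k)) →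
      Finite (Bu 3 n) → Group.IsSolvable (Bu 3 n) → InL.{u} n) ∧
    (∀ p q a b : ℕ, p.Prime → q.Prime → p ≠ q →
      (InL.{u} (p ^ a * q ^ b) ↔
        InL.{u} (p ^ a) ∧ InL.{u} (q ^ b) ∧ Finite (Bu 3 (p ^ a * q ^ b)))) ∧
    (InL.{u} 12 ↔ Finite (Bu 3 12)) := by
  refine ⟨?_, ?_, ?_⟩
  · intro n hn h hf hs
    rw [inL_iff hd]
    exact main1 hI hQ n hn (fun p k hp hk => (inL_iff hd _).1 (h p k hp hk)) hf hs
  · intro p q a b hp hq hpq
    rw [inL_iff hd, inL_iff hd, inL_iff hd]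
    exact main2 hI hQ hd hB hC p q a b hp hq hpq
  · rw [inL_iff hd]
    have h := main2 hI hQ hd hB hC 2 3 2 1 Nat.prime_two Nat.prime_three (by norm_num)
    norm_num at h
    rw [h]
    exact ⟨fun h => h.2.2, fun h => ⟨hL.2, hL.1, h⟩⟩

end Pool.Agent.H32BU
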