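import Mathlib
import Pool.Agent.H32BU.St

set_option autoImplicit false

/-!
# The version for varieties
-/

namespace Pool.Agent.H32BU

/-- closed under subgroups and quotients -/
structure HSC (V : (G : Type) → [Group G] → Prop) : Prop where
  sub : ∀ (G : Type) [Group G] (A : Subgroup G), V G → V A
  quo : ∀ (G : Type) [Group G] (N : Subgroup G) [N.Normal], V G → V (G ⧸ N)

def S_MLFV : Prop := ∀ V : (G : Type) → [Group G] → Prop, HSC V → ∀ n : ℕ, 1 ≤ n →
  (∀ p : ℕ, p.Prime → ∀ (G : Type) [Group G], V G → (∀ x : G, x ^ qp p n = 1) → LF G) →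
  ∀ (G : Type) [Group G], V G → ∃ M : Subgroup G, M.Normal ∧ LF M ∧
    ∀ p : ℕ, p.Prime → (Nset (qp p n) : Set G) ⊆ M

def S_STEPV : Prop := ∀ V : (G : Type) → [Group G] → Prop, HSC V → ∀ n : ℕ, 1 ≤ n →
  (∀ p : ℕ, p.Prime → ∀ (G : Type) [Group G], V G → (∀ x : G, x ^ qp p n = 1) → LF G) →
  ∀ m : ℕ, ∀ (G : Type) [Group G], V G → (∀ x : G, x ^ n = 1) →
  (∀ a x z : G, Finite (c3 a x z) ∧ Group.IsSolvable (c3 a x z) ∧ DD (c3 a x z) (m + 1) = ⊥) →
  ∃ (M : Subgroup G) (_ : M.Normal), LF M ∧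
    ∀ a x z : G ⧸ M, Finite (c3 a x z) ∧ Group.IsSolvable (c3 a x z) ∧ DD (c3 a x z) m = ⊥

def S_INDV : Prop := ∀ V : (G : Type) → [Group G] → Prop, HSC V → ∀ n : ℕ, 1 ≤ n →
  (∀ p : ℕ, p.Prime → ∀ (G : Type) [Group G], V G → (∀ x : G, x ^ qp p n = 1) → LF G) →
  ∀ m : ℕ, ∀ (G : Type) [Group G], V G → (∀ x : G, x ^ n = 1) →
  (∀ a x z : G, Finite (c3 a x z) ∧ Group.IsSolvable (c3 a x z) ∧ DD (c3 a x z) m = ⊥) → LF G

theorem t_INDV (h1 : S_STEPV) (h2 : S_SCH) : S_INDV := by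
  intro V hV n hn hq m
  induction m with
  | zero =>
    intro G _ hVG hG h
    have h0 : ∀ a : G, a = 1 := by
      intro a
      have h3 : c3 a a a = ⊥ := (h a a a).2.2
      have h4 : a ∈ c3 a a a := Subgroup.subset_closure (by simp)
      rw [h3] at h4
      exact Subgroup.mem_bot.1 h4
    intro S
    have : Subsingleton G := ⟨fun a b => by rw [h0 a, h0 b]⟩
    infer_instance
  | succ m ih =>
    intro G _ hVG hG h
    obtain ⟨M, hM, hMl, hM3⟩ := h1 V hV n hn hq m G hVG hG h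
    refine h2 G M hMl (ih (G ⧸ M) (hV.quo G M hVG) ?_ hM3)
    intro x
    obtain ⟨g, rfl⟩ := QuotientGroup.mk_surjective x
    rw [← QuotientGroup.mk_pow, hG g]
    rfl

/-- the group obeys the laws in `L` -/
def Obeys (L : Set (FreeGroup ℕ)) (G : Type) [Group G] : Prop :=
  ∀ f : FreeGroup ℕ →* G, ∀ w ∈ L, f w = 1

theorem obeys_inj {L : Set (FreeGroup ℕ)} {G H : Type} [Group G] [Group H] (i : G →* H)
    (hi : Function.Injective i) (h : Obeys L H) : Obeys L G := by
  intro f w hw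
  apply hi
  rw [map_one]
  exact h (i.comp f) w hw

theorem obeys_surj {L : Set (FreeGroup ℕ)} {G H : Type} [Group G] [Group H] (i : G →* H)
    (hi : Function.Surjective i) (h : Obeys L G) : Obeys L H := by
  intro f w hw
  choose s hs using hi
  let f' : FreeGroup ℕ →* G := FreeGroup.lift fun n => s (f (FreeGroup.of n))
  have : f = i.comp f' := by
    ext n
    simp [f', hs]
  rw [this]
  simp [h f' w hw]

theorem hsc (L : Set (FreeGroup ℕ)) : HSC (fun G [Group G] => Obeys L G) :=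
  ⟨fun G _ A h => obeys_inj A.subtype A.subtype_injective h,
   fun G _ N _ h => obeys_surj (QuotientGroup.mk' N) (QuotientGroup.mk'_surjective N) h⟩

/-- the relatively free group of rank 3 -/
abbrev F3 (L : Set (FreeGroup ℕ)) : Type :=
  FreeGroup (Fin 3) ⧸ Subgroup.normalClosure
    {u : FreeGroup (Fin 3) | ∃ f : FreeGroup ℕ →* FreeGroup (Fin 3), ∃ w ∈ L, u = f w}

theorem obeys_F3 (L : Set (FreeGroup ℕ)) : Obeys L (F3 L) := by
  intro f w hw
  have hs : ∀ n : ℕ, ∃ u : FreeGroup (Fin 3), (QuotientGroup.mk u : F3 L) = f (FreeGroup.of n) :=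
    fun n => QuotientGroup.mk_surjective _
  choose s hs using hs
  let f' : FreeGroup ℕ →* FreeGroup (Fin 3) := FreeGroup.lift s
  have : f = (QuotientGroup.mk' _).comp f' := by
    ext n
    simp [f', hs]
  rw [this]
  simp only [MonoidHom.comp_apply, QuotientGroup.mk'_apply]
  rw [QuotientGroup.eq_one_iff]
  exact Subgroup.subset_normalClosure ⟨f', w, hw, rfl⟩

/-- homomorphism onto a three-generator subgroup -/
theorem exists_hom (L : Set (FreeGroup ℕ)) (G : Type) [Group G] (h : Obeys L G) (a x z : G) :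
    ∃ F : F3 L →* G, F.range = c3 a x z := by
  let g : FreeGroup (Fin 3) →* G := FreeGroup.lift ![a, x, z]
  have hg : Subgroup.normalClosure
      {u : FreeGroup (Fin 3) | ∃ f : FreeGroup ℕ →* FreeGroup (Fin 3), ∃ w ∈ L, u = f w} ≤ g.ker := by
    apply Subgroup.normalClosure_le_normal
    rintro _ ⟨f, w, hw, rfl⟩
    exact h (g.comp f) w hw
  refine ⟨QuotientGroup.lift _ g hg, ?_⟩
  have h1 : (QuotientGroup.lift _ g hg).range = g.range := by
    ext y
    constructor
    · rintro ⟨q, rfl⟩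
      obtain ⟨u, rfl⟩ := QuotientGroup.mk_surjective q
      exact ⟨u, rfl⟩
    · rintro ⟨u, rfl⟩
      exact ⟨QuotientGroup.mk u, rfl⟩
  rw [h1, FreeGroup.range_lift_eq_closure]
  unfold c3
  congr 1
  ext y
  simp only [Set.mem_range, Set.mem_insert_iff, Set.mem_singleton_iff]
  constructor
  · rintro ⟨i, rfl⟩
    fin_cases i <;> simp
  · rintro (rfl | rfl | rfl)
    · exact ⟨0, rfl⟩
    · exact ⟨1, rfl⟩
    · exact ⟨2, rfl⟩

end Pool.Agent.H32BU
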