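import Mathlib
import Pool.Agent.H32BU.VDefs

set_option autoImplicit false

namespace Pool.Agent.H32BU

theorem lf_of_fg {G : Type} [Group G] (h : ∀ A : Subgroup G, A.FG → Finite A) : LF G := by
  intro S
  exact h _ ⟨S, rfl⟩

theorem finite_of_lf {G : Type} [Group G] (h : LF G) (hfg : Group.FG G) : Finite G := by
  obtain ⟨S, hS⟩ := hfg.out
  have h1 := h S
  rw [hS] at h1
  exact Finite.of_equiv _ (Subgroup.topEquiv (G := G)).toEquiv

theorem var_main (hI : S_INDV) (hS : S_SOLH) (hM : S_MAPS) (L : Set (FreeGroup ℕ))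
    (hf : Finite (F3 L)) (hs : Group.IsSolvable (F3 L))
    (hp : ∀ p : ℕ, p.Prime → ∀ (G : Type) [Group G], Obeys L G →
      (∀ x : G, ∃ k : ℕ, x ^ p ^ k = 1) → LF G) :
    ∀ (G : Type) [Group G], Obeys L G → LF G := by
  intro G _ hG
  obtain ⟨m, hm⟩ := hS (F3 L) hf hs
  have hn : 1 ≤ Nat.card (F3 L) := Nat.card_pos
  refine hI (fun G [Group G] => Obeys L G) (hsc L) (Nat.card (F3 L)) hn ?_ m G hG ?_ ?_
  · intro p hpp H _ hH hx
    exact hp p hpp H hH (fun x => ⟨_, hx x⟩)
  · intro x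
    obtain ⟨F, hF⟩ := exists_hom L G hG x x x
    have hx : x ∈ c3 x x x := Subgroup.subset_closure (by simp)
    rw [← hF] at hx
    obtain ⟨q, rfl⟩ := hx
    rw [← map_pow, pow_card_eq_one', map_one]
  · intro a x z
    obtain ⟨F, hF⟩ := exists_hom L G hG a x z
    rw [← hF]
    refine ⟨Finite.of_surjective F.rangeRestrict F.rangeRestrict_surjective,
      Group.isSolvable_of_surjective F.rangeRestrict_surjective, ?_⟩
    have h1 := hM (F3 L) G F (fun q => isOfFinOrder_of_finite q) ⊤ m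
    rw [hm, Subgroup.map_bot, ← MonoidHom.range_eq_map] at h1
    exact h1.symm

theorem F3_gen (L : Set (FreeGroup ℕ)) (d : ℕ) (hd : 3 ≤ d) :
    ∃ s : Fin d → F3 L, Subgroup.closure (Set.range s) = ⊤ := by
  refine ⟨fun i => QuotientGroup.mk (FreeGroup.of (Fin.ofNat 3 i.val)), ?_⟩
  rw [eq_top_iff]
  rintro x -
  obtain ⟨w, rfl⟩ := QuotientGroup.mk_surjective x
  induction w using FreeGroup.induction_on with
  | C1 => exact one_mem _
  | of i =>
    apply Subgroup.subset_closure
    refine ⟨⟨i.val, by omega⟩, ?_⟩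
    simp
  | inv_of i hi =>
    have := inv_mem hi
    exact this
  | mul a b ha hb =>
    have := mul_mem ha hb
    exact this

theorem vfinal (hI : S_INDV) (hS : S_SOLH) (hM : S_MAPS) (hL : S_L34) (hB : S_BUR)
    (hC : S_CRD) (d : ℕ) (hd : 3 ≤ d) (L : Set (FreeGroup ℕ)) :
    ((∀ (G : Type) [Group G], Obeys L G →
        (∃ s : Fin d → G, Subgroup.closure (Set.range s) = ⊤) →
          Finite G ∧ Group.IsSolvable G) →
      (∀ p : ℕ, p.Prime → ∀ (G : Type) [Group G], Obeys L G →
        (∀ x : G, ∃ k : ℕ, x ^ p ^ k = 1) → Group.FG G → Finite G) →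
      ∀ (G : Type) [Group G], Obeys L G → Group.FG G → Finite G) ∧
    (∀ p q a b : ℕ, p.Prime → q.Prime → p ≠ q →
      (∀ (G : Type) [Group G], Obeys L G → ∀ x : G, x ^ (p ^ a * q ^ b) = 1) →
      (∀ (G : Type) [Group G], Obeys L G →
        (∃ s : Fin d → G, Subgroup.closure (Set.range s) = ⊤) → Finite G) →
      (∀ (G : Type) [Group G], Obeys L G →
        ((∀ x : G, x ^ p ^ a = 1) ∨ (∀ x : G, x ^ q ^ b = 1)) → Group.FG G → Finite G) →
      ∀ (G : Type) [Group G], Obeys L G → Group.FG G → Finite G) ∧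
    ((∀ (G : Type) [Group G], Obeys L G → ∀ x : G, x ^ 12 = 1) →
      (∀ (G : Type) [Group G], Obeys L G →
        (∃ s : Fin d → G, Subgroup.closure (Set.range s) = ⊤) → Finite G) →
      ∀ (G : Type) [Group G], Obeys L G → Group.FG G → Finite G) := by
  have hA : (∀ (G : Type) [Group G], Obeys L G →
        (∃ s : Fin d → G, Subgroup.closure (Set.range s) = ⊤) →
          Finite G ∧ Group.IsSolvable G) →
      (∀ p : ℕ, p.Prime → ∀ (G : Type) [Group G], Obeys L G →
        (∀ x : G, ∃ k : ℕ, x ^ p ^ k = 1) → Group.FG G → Finite G) →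
      ∀ (G : Type) [Group G], Obeys L G → Group.FG G → Finite G := by
    intro h1 h2 G _ hG hfg
    have h3 := h1 (F3 L) (obeys_F3 L) (F3_gen L d hd)
    refine finite_of_lf (var_main hI hS hM L h3.1 h3.2 ?_ G hG) hfg
    intro p hp H _ hH hx
    apply lf_of_fg
    intro A hA
    exact h2 p hp A (obeys_inj A.subtype A.subtype_injective hH) (fun x => by
      obtain ⟨k, hk⟩ := hx x
      exact ⟨k, by ext; simpa using hk⟩) ((Group.fg_iff_subgroup_fg A).2 hA)
  have hB' : ∀ p q a b : ℕ, p.Prime → q.Prime → p ≠ q →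
      (∀ (G : Type) [Group G], Obeys L G → ∀ x : G, x ^ (p ^ a * q ^ b) = 1) →
      (∀ (G : Type) [Group G], Obeys L G →
        (∃ s : Fin d → G, Subgroup.closure (Set.range s) = ⊤) → Finite G) →
      (∀ (G : Type) [Group G], Obeys L G →
        ((∀ x : G, x ^ p ^ a = 1) ∨ (∀ x : G, x ^ q ^ b = 1)) → Group.FG G → Finite G) →
      ∀ (G : Type) [Group G], Obeys L G → Group.FG G → Finite G := by
    intro p q a b hp hq hpq hexp h1 h2
    apply hA
    · intro G _ hG hs
      have hfin := h1 G hG hs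
      obtain ⟨c, e, hce⟩ := hC G p q a b hp hq (hexp G hG)
      exact ⟨hfin, hB G p q c e hp hq hce⟩
    · intro r hr G _ hG hx hfg
      by_cases hrp : r = p
      · apply h2 G hG (Or.inl _) hfg
        intro x
        obtain ⟨k, hk⟩ := hx x
        have h3 := hexp G hG x
        rw [← orderOf_dvd_iff_pow_eq_one] at hk h3 ⊢
        have hc : Nat.Coprime (r ^ k) (q ^ b) :=
          Nat.Coprime.pow _ _ ((Nat.coprime_primes hr hq).2 (by rw [hrp]; exact hpq))
        exact (Nat.Coprime.coprime_dvd_left hk hc).dvd_of_dvd_mul_right h3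
      · apply h2 G hG (Or.inr _) hfg
        intro x
        obtain ⟨k, hk⟩ := hx x
        have h3 := hexp G hG x
        rw [← orderOf_dvd_iff_pow_eq_one] at hk h3 ⊢
        have hc : Nat.Coprime (r ^ k) (p ^ a) :=
          Nat.Coprime.pow _ _ ((Nat.coprime_primes hr hp).2 hrp)
        exact (Nat.Coprime.coprime_dvd_left hk hc).dvd_of_dvd_mul_left h3
  refine ⟨hA, hB', ?_⟩
  intro h12 h1
  apply hB' 2 3 2 1 Nat.prime_two Nat.prime_three (by norm_num)
  · intro G _ hG x
    simpa using h12 G hG x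
  · exact h1
  · intro G _ hG h hfg
    rcases h with h | h
    · exact finite_of_lf (hL.2 G (fun x => by simpa using h x)) hfg
    · exact finite_of_lf (hL.1 G (fun x => by simpa using h x)) hfg

end Pool.Agent.H32BU
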