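import Mathlib
import Pool.Agent.H32BU.Fin
import Pool.Agent.H32BU.VFin

set_option autoImplicit false

namespace Pool.Agent.H32BU

universe u

theorem two_primes (n : ℕ) (hn : 1 ≤ n) (h : n.primeFactors.card ≤ 2) :
    ∃ p q a b : ℕ, p.Prime ∧ q.Prime ∧ n = p ^ a * q ^ b := by
  have hprod : n = n.factorization.prod fun p k => p ^ k := (Nat.prod_factorization_pow_eq_self (by omega)).symm
  have hprod' : n = ∏ p ∈ n.primeFactors, p ^ n.factorization p := hprod
  rcases Nat.lt_or_ge n.primeFactors.card 1 with h0 | h1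
  · have : n.primeFactors = ∅ := Finset.card_eq_zero.1 (by omega)
    rw [this, Finset.prod_empty] at hprod'
    exact ⟨2, 3, 0, 0, Nat.prime_two, Nat.prime_three, by simpa using hprod'⟩
  · rcases Nat.lt_or_ge n.primeFactors.card 2 with h2 | h2
    · obtain ⟨p, hp⟩ := Finset.card_eq_one.1 (show n.primeFactors.card = 1 by omega)
      have hpp : p.Prime := Nat.prime_of_mem_primeFactors (by rw [hp]; simp)
      rw [hp, Finset.prod_singleton] at hprod'
      exact ⟨p, 2, n.factorization p, 0, hpp, Nat.prime_two, by simpa using hprod'⟩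
    · obtain ⟨p, q, hpq, hs⟩ := Finset.card_eq_two.1 (show n.primeFactors.card = 2 by omega)
      have hpp : p.Prime := Nat.prime_of_mem_primeFactors (by rw [hs]; simp)
      have hqp : q.Prime := Nat.prime_of_mem_primeFactors (by rw [hs]; simp)
      rw [hs, Finset.prod_pair hpq] at hprod'
      exact ⟨p, q, _, _, hpp, hqp, hprod'⟩

theorem small_pp (hd : S_LFD) (hL : S_L34) (p k : ℕ) (hp : p.Prime) (h : ¬ 4 < p ^ k) :
    LocFin (p ^ k) := by
  have h1 : p ^ k ≤ 4 := by omega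
  have h0 : 0 < p ^ k := pow_pos hp.pos _
  have h2 := hp.two_le
  generalize p ^ k = r at *
  interval_cases r
  · exact hd.2.2.1
  · exact hd.1 4 2 (by norm_num) hL.2
  · exact hL.1
  · exact hL.2

theorem final2 (hI : S_IND) (hQ : S_QB) (hd : S_LFD) (hL : S_L34) (hB : S_BUR) (hC : S_CRD)
    (n : ℕ) (hn : 1 ≤ n) (hs : n.primeFactors.card ≤ 2 ∨ Group.IsSolvable (Bu 3 n))
    (hq : ∀ p k : ℕ, p.Prime → p ^ k ∣ n → 4 < p ^ k → InL.{u} (p ^ k)) :
    InL.{u} n ↔ Finite (Bu 3 n) := by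
  rw [inL_iff hd]
  constructor
  · intro h
    exact hd.2.1 _ 3 h
  · intro hf
    apply main1 hI hQ n hn _ hf
    · rcases hs with hs | hs
      · obtain ⟨p, q, a, b, hp, hqq, hnn⟩ := two_primes n hn hs
        subst hnn
        obtain ⟨c, e, hce⟩ := hC (Bu 3 (p ^ a * q ^ b)) p q a b hp hqq (hd.2.2.2 3 _)
        exact hB _ p q c e hp hqq hce
      · exact hs
    · intro p k hp hk
      by_cases h4 : 4 < p ^ k
      · exact (inL_iff hd _).1 (hq p k hp hk h4)
      · exact small_pp hd hL p k hp h4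

theorem vfinal2 (hI : S_INDV) (hS : S_SOLH) (hM : S_MAPS) (hd' : S_LFD) (hL : S_L34) (hB : S_BUR)
    (hC : S_CRD) (d : ℕ) (hd : 3 ≤ d) (L : Set (FreeGroup ℕ)) (n : ℕ) (hn : 1 ≤ n)
    (hexp : ∀ (G : Type) [Group G], Obeys L G → ∀ x : G, x ^ n = 1)
    (hfin : ∀ (G : Type) [Group G], Obeys L G →
      (∃ s : Fin d → G, Subgroup.closure (Set.range s) = ⊤) → Finite G)
    (hsol : n.primeFactors.card ≤ 2 ∨ ∀ (G : Type) [Group G], Obeys L G →
      (∃ s : Fin d → G, Subgroup.closure (Set.range s) = ⊤) → Group.IsSolvable G)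
    (hloc : ∀ p k : ℕ, p.Prime → p ^ k ∣ n → 4 < p ^ k → ∀ (G : Type) [Group G], Obeys L G →
      (∀ x : G, x ^ p ^ k = 1) → Group.FG G → Finite G) :
    ∀ (G : Type) [Group G], Obeys L G → Group.FG G → Finite G := by
  intro G _ hG hfg
  have hf3 := hfin (F3 L) (obeys_F3 L) (F3_gen L d hd)
  have hs3 : Group.IsSolvable (F3 L) := by
    rcases hsol with h | h
    · obtain ⟨p, q, a, b, hp, hq, hnn⟩ := two_primes n hn h
      obtain ⟨c, e, hce⟩ := hC (F3 L) p q a b hp hq (fun x => by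
        rw [← hnn]; exact hexp _ (obeys_F3 L) x)
      exact hB _ p q c e hp hq hce
    · exact h (F3 L) (obeys_F3 L) (F3_gen L d hd)
  refine finite_of_lf (var_main hI hS hM L hf3 hs3 ?_ G hG) hfg
  intro p hp H _ hH hx
  -- the exponent of `H` divides the `p`-part of `n`
  have hx' : ∀ x : H, x ^ p ^ n.factorization p = 1 := by
    intro x
    obtain ⟨k, hk⟩ := hx x
    have h3 := hexp H hH x
    rw [← orderOf_dvd_iff_pow_eq_one] at hk h3 ⊢
    obtain ⟨j, hj, hjo⟩ := (Nat.dvd_prime_pow hp).1 hk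
    rw [hjo] at h3 ⊢
    exact pow_dvd_pow p ((hp.pow_dvd_iff_le_factorization (by omega)).1 h3)
  by_cases h4 : 4 < p ^ n.factorization p
  · apply lf_of_fg
    intro A hA
    exact hloc p _ hp (Nat.ordProj_dvd n p) h4 A
      (obeys_inj A.subtype A.subtype_injective hH) (fun x => by
        ext
        simpa using hx' x) ((Group.fg_iff_subgroup_fg A).2 hA)
  · exact small_pp hd' hL p _ hp h4 H hx'

end Pool.Agent.H32BU
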