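import Pool.Agent.H32BU.St

set_option autoImplicit false

/-!
# Burnside's theorem from the theorem on classes of prime power size (task BUR)
-/

namespace Pool.Agent.H32BU

namespace TBUR

theorem dvd_form {p q c d k : ℕ} (hp : p.Prime) (hq : q.Prime) (h : k ∣ p ^ c * q ^ d) :
    ∃ c' d' : ℕ, k = p ^ c' * q ^ d' := by
  obtain ⟨k1, k2, h1, h2, rfl⟩ := (Nat.dvd_mul).1 h
  obtain ⟨a, _, rfl⟩ := (Nat.dvd_prime_pow hp).1 h1
  obtain ⟨b, _, rfl⟩ := (Nat.dvd_prime_pow hq).1 h2
  exact ⟨a, b, rfl⟩

theorem card_class {G : Type} [Group G] [Finite G] (g : G) :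
    Nat.card {h : G // IsConj g h} = (Subgroup.centralizer {g}).index := by
  have h1 : (Subgroup.centralizer {g}).index = (MulAction.stabilizer (ConjAct G) g).index := by
    rw [Subgroup.centralizer_eq_comap_stabilizer]
    exact Subgroup.index_comap_of_surjective _ ConjAct.toConjAct.surjective
  rw [h1, MulAction.index_stabilizer, ← Nat.card_coe_set_eq]
  refine Nat.card_congr (Equiv.subtypeEquivRight fun h => ?_)
  rw [ConjAct.mem_orbit_conjAct]
  exact isConj_comm

theorem pgroup_solvable {G : Type} [Group G] [Finite G] {q e : ℕ} (hq : q.Prime)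
    (h : Nat.card G = q ^ e) : Group.IsSolvable G := by
  haveI : Fact q.Prime := ⟨hq⟩
  have h1 : IsPGroup q G := IsPGroup.of_card h
  haveI : Group.IsNilpotent G := h1.isNilpotent
  infer_instance

theorem simple_case (hPPC : S_PPC) {G : Type} [Group G] [Finite G] (hs : IsSimpleGroup G)
    {p q c d : ℕ} (hp : p.Prime) (hq : q.Prime) (hG : Nat.card G = p ^ c * q ^ d) :
    Group.IsSolvable G := by
  haveI : Fact p.Prime := ⟨hp⟩
  by_cases hpd : p ∣ Nat.card G
  · obtain ⟨P⟩ : Nonempty (Sylow p G) := inferInstance
    haveI : Nontrivial P := by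
      rw [← Finite.one_lt_card_iff_nontrivial, Sylow.card_eq_multiplicity]
      exact Nat.one_lt_pow (by
        have := (hp.dvd_iff_one_le_factorization Nat.card_pos.ne').1 hpd
        omega) hp.one_lt
    haveI : Nontrivial (Subgroup.center P) := P.isPGroup'.center_nontrivial
    obtain ⟨z, hz⟩ := exists_ne (1 : Subgroup.center P)
    have hg1 : ((z : P) : G) ≠ 1 := by
      intro h
      apply hz
      ext
      exact h
    have hle : (P : Subgroup G) ≤ Subgroup.centralizer {((z : P) : G)} := by
      intro x hx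
      rw [Subgroup.mem_centralizer_singleton_iff]
      have := Subgroup.mem_center_iff.1 z.2 ⟨x, hx⟩
      have h2 := congrArg (Subtype.val) this
      simpa using h2
    have hdvd : (Subgroup.centralizer {((z : P) : G)}).index ∣ (P : Subgroup G).index :=
      Subgroup.index_dvd_of_le hle
    have hidx : (P : Subgroup G).index ∣ q ^ d := by
      have h1 : (P : Subgroup G).index ∣ p ^ c * q ^ d := hG ▸ Subgroup.index_dvd_card _
      have h2 : Nat.Coprime (P : Subgroup G).index (p ^ c) :=
        ((hp.coprime_iff_not_dvd.2 P.not_dvd_index).pow_left c).symm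
      exact h2.dvd_of_dvd_mul_left h1
    obtain ⟨k, _, hk⟩ := (Nat.dvd_prime_pow hq).1 (hdvd.trans hidx)
    exact Group.isSolvable_of_comm (hPPC G hs _ q k hq hg1 (by rw [card_class, hk]))
  · have h1 : Nat.card G ∣ q ^ d := by
      have h1 : Nat.card G ∣ p ^ c * q ^ d := hG ▸ dvd_rfl
      exact (((hp.coprime_iff_not_dvd.2 hpd).pow_left c).symm).dvd_of_dvd_mul_left h1
    obtain ⟨k, _, hk⟩ := (Nat.dvd_prime_pow hq).1 h1
    exact pgroup_solvable hq hk

end TBUR

open TBUR in
theorem t_BUR (hPPC : S_PPC) : S_BUR := by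
  have main : ∀ (N : ℕ) (G : Type) [Group G] [Finite G] (p q c d : ℕ), p.Prime → q.Prime →
      Nat.card G = N → Nat.card G = p ^ c * q ^ d → Group.IsSolvable G := by
    intro N
    induction N using Nat.strong_induction_on with
    | _ N ih =>
      intro G _ _ p q c d hp hq hN hG
      by_cases hex : ∃ K : Subgroup G, K.Normal ∧ K ≠ ⊥ ∧ K ≠ ⊤
      · obtain ⟨K, hK, hb, ht⟩ := hex
        have hmul := K.card_mul_index
        have hKpos : 0 < Nat.card K := Nat.card_pos
        have hK1 : 1 < Nat.card K := by
          rw [Subgroup.one_lt_card_iff_ne_bot]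
          exact hb
        have hI1 : 1 < K.index := by
          have h0 : K.index ≠ 0 := Subgroup.index_ne_zero_of_finite
          have h2 : K.index ≠ 1 := fun h => ht (Subgroup.index_eq_one.1 h)
          omega
        have hKlt : Nat.card K < N := by
          rw [← hN, ← hmul]
          exact lt_mul_of_one_lt_right hKpos hI1
        have hQlt : Nat.card (G ⧸ K) < N := by
          change K.index < N
          rw [← hN, ← hmul]
          exact lt_mul_of_one_lt_left (by omega) hK1
        obtain ⟨c1, d1, e1⟩ := dvd_form hp hq (hG ▸ Subgroup.card_subgroup_dvd_card K)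
        obtain ⟨c2, d2, e2⟩ := dvd_form (k := Nat.card (G ⧸ K)) hp hq
          (hG ▸ Subgroup.index_dvd_card K)
        haveI s1 : Group.IsSolvable K := ih _ hKlt K p q c1 d1 hp hq rfl e1
        haveI s2 : Group.IsSolvable (G ⧸ K) := ih _ hQlt (G ⧸ K) p q c2 d2 hp hq rfl e2
        exact Group.isSolvable_of_ker_le_range K.subtype (QuotientGroup.mk' K) (by
          rw [QuotientGroup.ker_mk', Subgroup.range_subtype])
      · rcases subsingleton_or_nontrivial G with hG' | hG'
        · infer_instance
        · refine simple_case hPPC ⟨fun K hK => ?_⟩ hp hq hG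
          by_contra hcon
          rw [not_or] at hcon
          exact hex ⟨K, hK, hcon.1, hcon.2⟩
  intro G _ _ p q c d hp hq hG
  exact main _ G p q c d hp hq rfl hG

end Pool.Agent.H32BU
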