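import Pool.Agent.H32BU.St

set_option autoImplicit false

namespace Pool.Agent.H32BU

namespace TCEN

variable {G : Type} [Group G]

theorem trace_conj {d : ℕ} (f : MonoidAlgebra ℂ G →ₐ[ℂ] Matrix (Fin d) (Fin d) ℂ) (g h : G)
    (hgh : IsConj g h) :
    Matrix.trace (f (MonoidAlgebra.single h 1)) = Matrix.trace (f (MonoidAlgebra.single g 1)) := by
  obtain ⟨c, hc⟩ := isConj_iff.mp hgh
  have h1 : (MonoidAlgebra.single h 1 : MonoidAlgebra ℂ G) =
      MonoidAlgebra.single c 1 * MonoidAlgebra.single g 1 * MonoidAlgebra.single c⁻¹ 1 := by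
    rw [MonoidAlgebra.single_mul_single, MonoidAlgebra.single_mul_single, hc]
    simp
  have h2 : (MonoidAlgebra.single c⁻¹ 1 : MonoidAlgebra ℂ G) * MonoidAlgebra.single c 1 = 1 := by
    rw [MonoidAlgebra.single_mul_single]
    simp [MonoidAlgebra.one_def]
  rw [h1, map_mul, Matrix.trace_mul_comm, map_mul, ← mul_assoc, ← map_mul, h2, map_one, one_mul]

theorem central [Fintype G] [DecidableEq G] (g : G) (C : Finset G)
    (hC : ∀ h, h ∈ C ↔ IsConj g h) (x : MonoidAlgebra ℂ G) :
    (∑ h ∈ C, (MonoidAlgebra.single h 1 : MonoidAlgebra ℂ G)) * x =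
      x * ∑ h ∈ C, (MonoidAlgebra.single h 1 : MonoidAlgebra ℂ G) := by
  induction x using MonoidAlgebra.induction_linear with
  | zero => simp
  | add a b ha hb => rw [mul_add, ha, hb, add_mul]
  | single k r =>
    rw [Finset.sum_mul, Finset.mul_sum]
    simp only [MonoidAlgebra.single_mul_single, one_mul, mul_one]
    symm
    refine Finset.sum_bij' (fun h _ => k * h * k⁻¹) (fun h _ => k⁻¹ * h * k) ?_ ?_ ?_ ?_ ?_
    · intro h hh
      rw [hC] at hh ⊢
      exact hh.trans (isConj_iff.mpr ⟨k, rfl⟩)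
    · intro h hh
      rw [hC] at hh ⊢
      exact hh.trans (isConj_iff.mpr ⟨k⁻¹, by simp⟩)
    · intro h _; group
    · intro h _; group
    · intro h _
      congr 1
      group

end TCEN

open TCEN in
theorem t_CEN : S_CEN := by
  classical
  intro G _ _ d f g hd hf
  have : Fintype G := Fintype.ofFinite G
  set C : Finset G := Finset.univ.filter (fun h => IsConj g h) with hCdef
  have hC : ∀ h, h ∈ C ↔ IsConj g h := by intro h; simp [hCdef]
  have hcard : Nat.card {h : G // IsConj g h} = C.card := by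
    rw [Nat.card_eq_fintype_card, Fintype.card_subtype]
  set z : MonoidAlgebra ℂ G := ∑ h ∈ C, MonoidAlgebra.single h 1 with hz
  have hcomm : ∀ M : Matrix (Fin d) (Fin d) ℂ, Commute M (f z) := by
    intro M
    obtain ⟨x, rfl⟩ := hf M
    rw [commute_iff_eq, ← map_mul, ← map_mul, ← central g C hC x]
  obtain ⟨w, hw⟩ := Matrix.mem_range_scalar_of_commute_single (M := f z)
    (fun i j _ => hcomm _)
  have hd0 : (d : ℂ) ≠ 0 := by
    have : d ≠ 0 := by omega
    exact_mod_cast this
  have htr : (d : ℂ) * w = (C.card : ℂ) * Matrix.trace (f (MonoidAlgebra.single g 1)) := by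
    have h1 : Matrix.trace (f z) = (C.card : ℂ) * Matrix.trace (f (MonoidAlgebra.single g 1)) := by
      rw [hz, map_sum, Matrix.trace_sum, Finset.sum_congr rfl
        (fun h hh => trace_conj f g h ((hC h).mp hh)), Finset.sum_const, nsmul_eq_mul]
    rw [← h1, ← hw]
    simp [Matrix.scalar_apply, Matrix.trace_diagonal]
  have hweq : (Nat.card {h : G // IsConj g h} : ℂ) *
      Matrix.trace (f (MonoidAlgebra.single g 1)) / (d : ℂ) = w := by
    rw [hcard, ← htr]
    field_simp
  rw [hweq]
  let F : G →* Matrix (Fin d) (Fin d) ℂ :=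
    { toFun := fun h => f (MonoidAlgebra.single h 1)
      map_one' := by rw [← MonoidAlgebra.one_def, map_one]
      map_mul' := by
        intro a b
        rw [← map_mul, MonoidAlgebra.single_mul_single, one_mul] }
  let f' : MonoidAlgebra ℤ G →ₐ[ℤ] Matrix (Fin d) (Fin d) ℂ := MonoidAlgebra.lift ℤ _ G F
  have hint : IsIntegral ℤ (∑ h ∈ C, (MonoidAlgebra.single h 1 : MonoidAlgebra ℤ G)) := by
    have : Module.Finite ℤ (MonoidAlgebra ℤ G) := by
      infer_instance
    exact IsIntegral.of_finite ℤ _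
  have h2 := hint.map f'
  have h3 : f' (∑ h ∈ C, (MonoidAlgebra.single h 1 : MonoidAlgebra ℤ G)) = f z := by
    rw [map_sum, hz, map_sum]
    refine Finset.sum_congr rfl fun h _ => ?_
    simp [f', F, MonoidAlgebra.lift_single]
  rw [h3, ← hw] at h2
  have hne : Nonempty (Fin d) := ⟨⟨0, by omega⟩⟩
  have h4 : (Matrix.scalar (Fin d)) w = algebraMap ℂ (Matrix (Fin d) (Fin d) ℂ) w := rfl
  rw [h4] at h2
  exact (isIntegral_algebraMap_iff (FaithfulSMul.algebraMap_injective ℂ _)).mp h2

end Pool.Agent.H32BU
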