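import Mathlib
import Pool.Agent.H32BU.St

set_option autoImplicit false

namespace Pool.Agent.H32BU

theorem t_CNT : S_CNT := by
  intro F _ V C a x hF hVn hV hCV hCa hCx h
  -- conjugation maps on `V`
  have ha : ∀ u ∈ V, a⁻¹ * u * a ∈ V := fun u hu => by
    have := hVn.conj_mem u hu a⁻¹
    simpa using this
  have hx : ∀ u ∈ V, x⁻¹ * u * x ∈ V := fun u hu => by
    have := hVn.conj_mem u hu x⁻¹
    simpa using this
  -- the relation `u ~ w` on `V`: `u * w⁻¹ ∈ C`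
  let s : Setoid V :=
    { r := fun u w => (u : F) * (w : F)⁻¹ ∈ C
      iseqv := ⟨fun u => by simp, fun {u w} huw => by
          have := C.inv_mem huw
          simpa using this, fun {u w z} h1 h2 => by
          have := C.mul_mem h1 h2
          simpa [mul_assoc] using this⟩ }
  have hcomm : ∀ u w : V, (u : F) * w = w * u := fun u w => hV u u.2 w w.2
  let W := Quotient s
  have hWf : Finite W := Finite.of_surjective (Quotient.mk s) Quotient.mk_surjective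
  let Fx : Set W := {w | ∃ u : V, Quotient.mk s u = w ∧ a⁻¹ * (u : F) * a * (u : F)⁻¹ ∈ C}
  -- the map `u ↦ u * (x⁻¹ u x)⁻¹`
  let β : W → W := Quotient.map
    (fun u : V => (⟨(u : F) * (x⁻¹ * u * x)⁻¹, V.mul_mem u.2 (V.inv_mem (hx u u.2))⟩ : V))
    (by
      intro u w huw
      show ((u : F) * (x⁻¹ * u * x)⁻¹) * ((w : F) * (x⁻¹ * w * x)⁻¹)⁻¹ ∈ C
      have h1 : (u : F) * (w : F)⁻¹ ∈ C := huw
      have h2 : x⁻¹ * ((u : F) * (w : F)⁻¹) * x ∈ C := hCx _ h1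
      have h3 : ((u : F) * (x⁻¹ * u * x)⁻¹) * ((w : F) * (x⁻¹ * w * x)⁻¹)⁻¹ =
          ((u : F) * (w : F)⁻¹) * (x⁻¹ * ((u : F) * (w : F)⁻¹) * x)⁻¹ := by
        have c1 : ∀ p ∈ V, ∀ q ∈ V, p * q = q * p := hV
        have e1 : ((w : F) * (x⁻¹ * w * x)⁻¹)⁻¹ = (w : F)⁻¹ * (x⁻¹ * w * x) := by
          rw [mul_inv_rev, inv_inv]
          exact c1 _ (hx w w.2) _ (V.inv_mem w.2)
        rw [e1]
        have e2 : (x⁻¹ * ((u : F) * (w : F)⁻¹) * x)⁻¹ = (x⁻¹ * u * x)⁻¹ * (x⁻¹ * w * x) := by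
          have : x⁻¹ * ((u : F) * (w : F)⁻¹) * x = (x⁻¹ * w * x)⁻¹ * (x⁻¹ * u * x) := by
            rw [← c1 _ (hx u u.2) _ (V.inv_mem (hx w w.2))]
            group
          rw [this, mul_inv_rev, inv_inv]
        rw [e2]
        have e3 : (x⁻¹ * (u : F) * x)⁻¹ * (w : F)⁻¹ = (w : F)⁻¹ * (x⁻¹ * (u : F) * x)⁻¹ :=
          c1 _ (V.inv_mem (hx u u.2)) _ (V.inv_mem w.2)
        calc (u : F) * (x⁻¹ * u * x)⁻¹ * ((w : F)⁻¹ * (x⁻¹ * w * x))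
            = (u : F) * ((x⁻¹ * u * x)⁻¹ * (w : F)⁻¹) * (x⁻¹ * w * x) := by group
          _ = (u : F) * ((w : F)⁻¹ * (x⁻¹ * (u : F) * x)⁻¹) * (x⁻¹ * w * x) := by rw [e3]
          _ = _ := by group
      rw [h3]
      exact C.mul_mem h1 (C.inv_mem h2))
  have hsurj : ∀ w : W, ∃ f ∈ Fx, β f = w := by
    intro w
    obtain ⟨v, rfl⟩ := Quotient.mk_surjective w
    obtain ⟨u, hu, hu1, hu2⟩ := h v v.2
    refine ⟨Quotient.mk s ⟨u, hu⟩, ⟨⟨u, hu⟩, rfl, hu1⟩, ?_⟩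
    apply Quotient.sound
    show (u * (x⁻¹ * u * x)⁻¹) * (v : F)⁻¹ ∈ C
    have h1 := C.inv_mem hu2
    have h2 : (x⁻¹ * u * x * v * u⁻¹)⁻¹ = (u * (x⁻¹ * u * x)⁻¹) * (v : F)⁻¹ := by
      have h3 := hV _ (V.inv_mem v.2) _ (V.inv_mem (hx u hu))
      calc (x⁻¹ * u * x * v * u⁻¹)⁻¹ = u * ((v : F)⁻¹ * (x⁻¹ * u * x)⁻¹) := by group
        _ = u * ((x⁻¹ * u * x)⁻¹ * (v : F)⁻¹) := by rw [h3]
        _ = _ := by group
    rw [← h2]
    exact h1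
  have hle : Nat.card W ≤ Nat.card Fx := by
    have hs : Function.Surjective (fun f : Fx => β f.1) := fun w => by
      obtain ⟨f, hf, hfw⟩ := hsurj w
      exact ⟨⟨f, hf⟩, hfw⟩
    exact Nat.card_le_card_of_surjective _ hs
  have huniv : Fx = Set.univ := by
    apply Set.eq_of_subset_of_ncard_le (Set.subset_univ _)
    rw [Set.ncard_univ, ← Nat.card_coe_set_eq]
    exact hle
  intro u hu
  have hmem : Quotient.mk s ⟨u, hu⟩ ∈ Fx := by rw [huniv]; trivial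
  obtain ⟨w, hw, hwa⟩ := hmem
  have hrel : (w : F) * u⁻¹ ∈ C := Quotient.exact hw
  have h1 := hCa _ hrel
  -- a⁻¹ u a u⁻¹ = (a⁻¹ (w u⁻¹) a)⁻¹ * (a⁻¹ w a w⁻¹) * (w u⁻¹)
  have h2 : a⁻¹ * u * a * u⁻¹ =
      (a⁻¹ * ((w : F) * u⁻¹) * a)⁻¹ * (a⁻¹ * w * a * (w : F)⁻¹) * ((w : F) * u⁻¹) := by
    group
  rw [h2]
  exact C.mul_mem (C.mul_mem (C.inv_mem h1) hwa) hrel

end Pool.Agent.H32BU
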