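import Pool.Agent.H32BU.St

set_option autoImplicit false

/-! Task COPC: elements of the last term and `p`-elements. -/

namespace Pool.Agent.H32BU

namespace TCOPC

variable {G : Type} [Group G]

/-- the elements `u * y ^ i` -/
theorem clo (P : Subgroup G) (e y : G) (he : e ∈ P) (hy : ∀ u ∈ P, y * u * y⁻¹ ∈ P)
    (hy' : ∀ u ∈ P, y⁻¹ * u * y ∈ P) : ∀ c ∈ c2 e y, ∃ u ∈ P, ∃ i : ℤ, c = u * y ^ i := by
  have hN : ∀ (i : ℤ), ∀ u ∈ P, y ^ i * u * (y ^ i)⁻¹ ∈ P := by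
    intro i
    induction i using Int.induction_on with
    | zero => intro u hu; simpa using hu
    | succ i ih =>
      intro u hu
      have : y ^ ((i : ℤ) + 1) * u * (y ^ ((i : ℤ) + 1))⁻¹ =
        y ^ (i : ℤ) * (y * u * y⁻¹) * (y ^ (i : ℤ))⁻¹ := by
        rw [zpow_add_one]; group
      rw [this]
      exact ih _ (hy u hu)
    | pred i ih =>
      intro u hu
      have : y ^ (-(i : ℤ) - 1) * u * (y ^ (-(i : ℤ) - 1))⁻¹ =
        y ^ (-(i : ℤ)) * (y⁻¹ * u * y) * (y ^ (-(i : ℤ)))⁻¹ := by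
        rw [zpow_sub_one]; group
      rw [this]
      exact ih _ (hy' u hu)
  intro c hc
  unfold c2 at hc
  induction hc using Subgroup.closure_induction with
  | mem x hx =>
    rcases hx with rfl | rfl
    · exact ⟨x, he, 0, by simp⟩
    · exact ⟨1, P.one_mem, 1, by simp⟩
  | one => exact ⟨1, P.one_mem, 0, by simp⟩
  | mul a b _ _ iha ihb =>
    obtain ⟨u, hu, i, rfl⟩ := iha
    obtain ⟨v, hv, j, rfl⟩ := ihb
    refine ⟨u * (y ^ i * v * (y ^ i)⁻¹), P.mul_mem hu (hN i v hv), i + j, ?_⟩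
    rw [zpow_add]; group
  | inv a _ iha =>
    obtain ⟨u, hu, i, rfl⟩ := iha
    refine ⟨y ^ (-i) * u⁻¹ * (y ^ (-i))⁻¹, hN (-i) _ (P.inv_mem hu), -i, ?_⟩
    group

/-- powers -/
theorem powP (P : Subgroup G) (u z : G) (hu : u ∈ P) (hz : ∀ v ∈ P, z * v * z⁻¹ ∈ P) (N : ℕ) :
    ∃ v ∈ P, (u * z) ^ N = v * z ^ N := by
  induction N with
  | zero => exact ⟨1, P.one_mem, by simp⟩
  | succ N ih =>
    obtain ⟨v, hv, h⟩ := ih
    refine ⟨u * (z * v * z⁻¹), P.mul_mem hu (hz v hv), ?_⟩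
    rw [pow_succ', h, pow_succ']
    group

theorem DD_le (hM : S_MON) (F : Subgroup G) (m : ℕ) : DD F m ≤ F := by
  induction m with
  | zero => exact le_refl _
  | succ m ih => exact le_trans ((hM G).2.1 F m) ih

end TCOPC

open TCOPC in
theorem t_COPC (h1 : S_SYL) (h2 : S_MON) : S_COPC := by
  intro G _ F hF n hn hexp m hD p hp e he hep y hy hyp c hc
  have hA : DD F m ≤ F := DD_le h2 F m
  have hAf : Finite (DD F m) := Finite.of_injective _ (Subgroup.inclusion_injective hA)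
  obtain ⟨⟨P, hP⟩, _⟩ := h1 G (DD F m) hAf hD p hp
  have heP : e ∈ P := (hP e).2 ⟨he, _, hep⟩
  have hn1 := (h2 G).2.2.1 F y (fun a ha => F.mul_mem (F.mul_mem hy ha) (F.inv_mem hy))
    (fun a ha => F.mul_mem (F.mul_mem (F.inv_mem hy) ha) hy) m
  have hy1 : ∀ u ∈ P, y * u * y⁻¹ ∈ P := by
    intro u hu
    obtain ⟨hu1, k, hk⟩ := (hP u).1 hu
    exact (hP _).2 ⟨hn1.1 u hu1, k, by rw [conj_pow, hk]; simp⟩
  have hy2 : ∀ u ∈ P, y⁻¹ * u * y ∈ P := by
    intro u hu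
    obtain ⟨hu1, k, hk⟩ := (hP u).1 hu
    refine (hP _).2 ⟨hn1.2 u hu1, k, ?_⟩
    have := conj_pow (i := p ^ k) (a := y⁻¹) (b := u)
    rw [inv_inv] at this
    rw [this, hk]
    simp
  have hcF : c ∈ F := by
    have : c2 e y ≤ F := by
      unfold c2
      rw [Subgroup.closure_le]
      rintro z (rfl | rfl)
      · exact hA he
      · exact hy
    exact this hc
  obtain ⟨u, hu, i, hci⟩ := clo P e y heP hy1 hy2 c hc
  have hNi : ∀ v ∈ P, y ^ i * v * (y ^ i)⁻¹ ∈ P := by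
    intro v hv
    have hyN : y ∈ Subgroup.normalizer (P : Set G) := by
      rw [Subgroup.mem_normalizer_iff]
      intro h
      refine ⟨fun hh => hy1 h hh, fun hh => ?_⟩
      have := hy2 _ hh
      have e1 : y⁻¹ * (y * h * y⁻¹) * y = h := by group
      rwa [e1] at this
    have h3 := Subgroup.zpow_mem _ hyN i
    rw [Subgroup.mem_normalizer_iff] at h3
    exact (h3 v).1 hv
  obtain ⟨v, hv, hv'⟩ := powP P u (y ^ i) hu hNi (qp p n)
  have h4 : (y ^ i) ^ (qp p n) = 1 := by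
    rw [← zpow_natCast, ← zpow_mul, mul_comm, zpow_mul, zpow_natCast, hyp, one_zpow]
  rw [← hci, h4, mul_one] at hv'
  obtain ⟨_, k, hk⟩ := (hP v).1 hv
  rw [← hv', ← pow_mul, qp, ← pow_add] at hk
  have h5 : orderOf c ∣ p ^ (n.factorization p + k) := orderOf_dvd_of_pow_eq_one hk
  have h6 : orderOf c ∣ n := orderOf_dvd_of_pow_eq_one (hexp c hcF)
  obtain ⟨j, _, hj⟩ := (Nat.dvd_prime_pow hp).1 h5
  rw [hj, hp.pow_dvd_iff_le_factorization (by omega)] at h6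
  apply orderOf_dvd_iff_pow_eq_one.1
  rw [hj, qp]
  exact Nat.pow_dvd_pow p h6

end Pool.Agent.H32BU
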