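import Pool.Agent.H32BU.St

set_option autoImplicit false

namespace Pool.Agent.H32BU

namespace TCRD

theorem num (p q : ℕ) : ∀ N : ℕ, N ≠ 0 → (∀ r : ℕ, r.Prime → r ∣ N → r = p ∨ r = q) →
    ∃ c d : ℕ, N = p ^ c * q ^ d := by
  intro N
  induction N using Nat.strong_induction_on with
  | _ N ih =>
    intro hN h
    by_cases h1 : N = 1
    · exact ⟨0, 0, by simp [h1]⟩
    · have hr := Nat.minFac_prime h1
      obtain ⟨M, hM⟩ := Nat.minFac_dvd N
      have hM0 : M ≠ 0 := by
        rintro rfl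
        rw [mul_zero] at hM
        exact hN hM
      have hMN : M < N := by
        have h2 := hr.two_le
        have h3 : 1 ≤ M := Nat.one_le_iff_ne_zero.mpr hM0
        calc M < 2 * M := by omega
          _ ≤ N.minFac * M := Nat.mul_le_mul_right _ h2
          _ = N := hM.symm
      obtain ⟨c, d, hcd⟩ := ih M hMN hM0 (fun r hr' hd => h r hr' (hd.trans ⟨N.minFac, by
        rw [mul_comm]; exact hM⟩))
      rcases h N.minFac hr (Nat.minFac_dvd N) with h4 | h4
      · exact ⟨c + 1, d, by rw [hM, hcd, h4]; ring⟩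
      · exact ⟨c, d + 1, by rw [hM, hcd, h4]; ring⟩

end TCRD

theorem t_CRD : S_CRD := by
  intro G _ _ p q a b hp hq hx
  apply TCRD.num p q _ Nat.card_pos.ne'
  intro r hr hd
  haveI : Fact r.Prime := ⟨hr⟩
  obtain ⟨x, hxr⟩ := exists_prime_orderOf_dvd_card' r hd
  have h1 : r ∣ p ^ a * q ^ b := by
    rw [← hxr]
    exact orderOf_dvd_of_pow_eq_one (hx x)
  rcases (Nat.Prime.dvd_mul hr).mp h1 with h2 | h2
  · exact Or.inl ((Nat.prime_dvd_prime_iff_eq hr hp).mp (hr.dvd_of_dvd_pow h2))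
  · exact Or.inr ((Nat.prime_dvd_prime_iff_eq hr hq).mp (hr.dvd_of_dvd_pow h2))

end Pool.Agent.H32BU
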