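import Pool.Agent.H32BU.St

/-!
# Traces of matrices of finite order are algebraic integers

Task INTG of project BU (helper32), proved by helper528.
-/

set_option autoImplicit false

namespace Pool.Agent.H32BU

namespace TINTG

/-- roots of the characteristic polynomial of a matrix of finite order are roots of unity -/
lemma root_pow {d m : ℕ} {A : Matrix (Fin d) (Fin d) ℂ} (hA : A ^ m = 1) {μ : ℂ}
    (hμ : μ ∈ A.charpoly.roots) : μ ^ m = 1 := by
  have h1 : A.charpoly.eval μ = 0 := (Polynomial.mem_roots'.mp hμ).2
  rw [Matrix.eval_charpoly] at h1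
  obtain ⟨v, hv, h2⟩ := Matrix.exists_mulVec_eq_zero_iff.mpr h1
  have h3 : A.mulVec v = μ • v := by
    rw [Matrix.sub_mulVec, sub_eq_zero] at h2
    rw [← h2]
    simp [Matrix.scalar_apply, Matrix.diagonal_const_mulVec]
  have h4 : ∀ k : ℕ, (A ^ k).mulVec v = μ ^ k • v := by
    intro k
    induction k with
    | zero => simp
    | succ k ih =>
      rw [pow_succ, ← Matrix.mulVec_mulVec, h3, Matrix.mulVec_smul, ih, smul_smul, pow_succ,
        mul_comm]
  have h5 := h4 m
  rw [hA, Matrix.one_mulVec] at h5
  obtain ⟨i, hi⟩ := Function.ne_iff.mp hv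
  have h6 := congrFun h5 i
  simp only [Pi.smul_apply, smul_eq_mul] at h6
  have h7 : v i * (μ ^ m - 1) = 0 := by linear_combination -h6
  rcases mul_eq_zero.mp h7 with h | h
  · exact absurd h hi
  · linear_combination h

end TINTG

theorem t_INTG : S_INTG := by
  intro d m A hm hA
  rw [Matrix.trace_eq_sum_roots_charpoly]
  apply IsIntegral.multiset_sum
  intro μ hμ
  refine IsIntegral.of_pow (n := m) (by omega) ?_
  rw [TINTG.root_pow hA hμ]
  exact isIntegral_one

end Pool.Agent.H32BU
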