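import Pool.Agent.H32BU.St
import Pool.Agent.H15R2.Main

set_option autoImplicit false

/-! Task L34 of project BU (helper347): groups of exponent 3 or 4 are locally finite
(from helper15's proofs). -/

namespace Pool.Agent.H32BU

theorem t_L34 : S_L34 := by
  refine ⟨?_, ?_⟩
  · intro G _ h S
    have hfg : Group.FG (Subgroup.closure (S : Set G)) :=
      (Group.fg_iff_subgroup_fg _).mpr ⟨S, rfl⟩
    refine H15.Struct.finite_exp3 hfg ?_
    intro g
    ext
    exact h g.1
  · intro G _ h S
    have hfg : Group.FG (Subgroup.closure (S : Set G)) :=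
      (Group.fg_iff_subgroup_fg _).mpr ⟨S, rfl⟩
    refine H15.Struct.finite_exp4 hfg ?_
    intro g
    ext
    exact h g.1

end Pool.Agent.H32BU
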