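import Pool.Agent.H32BU.St

set_option autoImplicit false

namespace Pool.Agent.H32BU

namespace TLFD

theorem bu_pow (m n : ℕ) (x : Bu m n) : x ^ n = 1 := by
  obtain ⟨w, rfl⟩ := QuotientGroup.mk_surjective x
  rw [← QuotientGroup.mk_pow, QuotientGroup.eq_one_iff]
  exact Subgroup.subset_normalClosure ⟨w, rfl⟩

theorem bu_finite (m n : ℕ) (h : LocFin n) : Finite (Bu m n) := by
  classical
  have h1 : LF (Bu m n) := h (Bu m n) (bu_pow m n)
  let f : FreeGroup (Fin m) →* Bu m n := QuotientGroup.mk' _
  let S : Finset (Bu m n) := Finset.univ.image fun i : Fin m => f (FreeGroup.of i)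
  have h2 : Finite (Subgroup.closure (S : Set (Bu m n))) := h1 S
  have h3 : Subgroup.closure (S : Set (Bu m n)) = ⊤ := by
    have e : (S : Set (Bu m n)) = f '' Set.range (FreeGroup.of : Fin m → FreeGroup (Fin m)) := by
      ext x
      simp [S]
    rw [e, ← MonoidHom.map_closure, FreeGroup.closure_range_of, ← MonoidHom.range_eq_map,
      MonoidHom.range_eq_top]
    exact QuotientGroup.mk'_surjective _
  rw [h3] at h2
  exact Finite.of_equiv _ (Subgroup.topEquiv (G := Bu m n)).toEquiv

theorem one : LocFin 1 := by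
  intro G _ hG S
  have h : ∀ x : G, x = 1 := fun x => by simpa using hG x
  have h1 : Subsingleton G := ⟨fun a b => by rw [h a, h b]⟩
  infer_instance

end TLFD

theorem t_LFD : S_LFD := by
  refine ⟨fun n d hd h G _ hG => ?_, fun n m h => TLFD.bu_finite m n h, TLFD.one, TLFD.bu_pow⟩
  refine h G fun x => ?_
  obtain ⟨k, rfl⟩ := hd
  rw [pow_mul, hG, one_pow]

end Pool.Agent.H32BU
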