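import Pool.Agent.H32BU.St

set_option autoImplicit false

/-! # Injective homomorphisms and the iterated residual -/

namespace Pool.Agent.H32BU

namespace TMAPI

lemma map_NR {G H : Type} [Group G] [Group H] (f : G →* H) (hf : Function.Injective f)
    (A : Subgroup G) : (NR A).map f = NR (A.map f) := by
  unfold NR
  rw [MonoidHom.map_closure]
  congr 1
  ext g
  simp only [Set.mem_image, Set.mem_setOf_eq, Subgroup.mem_map]
  constructor
  · rintro ⟨g', ⟨x, hx, y, hy, a, b, hab, hxa, hyb, rfl⟩, rfl⟩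
    exact ⟨f x, ⟨x, hx, rfl⟩, f y, ⟨y, hy, rfl⟩, a, b, hab, by rw [← map_pow, hxa, map_one],
      by rw [← map_pow, hyb, map_one], by simp only [map_mul, map_inv]⟩
  · rintro ⟨x', ⟨x, hx, rfl⟩, y', ⟨y, hy, rfl⟩, a, b, hab, hxa, hyb, rfl⟩
    refine ⟨x * y * x⁻¹ * y⁻¹, ⟨x, hx, y, hy, a, b, hab, hf ?_, hf ?_, rfl⟩, by
      simp only [map_mul, map_inv]⟩
    · rw [map_pow, hxa, map_one]
    · rw [map_pow, hyb, map_one]

end TMAPI

theorem t_MAPI : S_MAPI := by
  intro G H _ _ f hf A m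
  induction m with
  | zero => rfl
  | succ m ih =>
    show (NR (DD A m)).map f = NR (DD (A.map f) m)
    rw [TMAPI.map_NR f hf, ih]

end Pool.Agent.H32BU
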