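import Pool.Agent.H32BU.St

set_option autoImplicit false

/-! Project BU, task MAPS (helper816). -/

namespace Pool.Agent.H32BU

namespace TMAPS

theorem split (a : ℕ) : ∀ o : ℕ, 0 < o →
    ∃ u v N : ℕ, o = u * v ∧ Nat.Coprime v a ∧ u ∣ a ^ N := by
  intro o
  induction o using Nat.strong_induction_on with
  | _ o ih =>
    intro ho
    by_cases hg : Nat.gcd o a = 1
    · exact ⟨1, o, 0, by simp, hg, by simp⟩
    · obtain ⟨o', ho'⟩ := Nat.gcd_dvd_left o a
      have hgp : 0 < Nat.gcd o a := Nat.gcd_pos_of_pos_left _ ho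
      have ho'0 : 0 < o' := by
        rcases Nat.eq_zero_or_pos o' with h | h
        · rw [h, mul_zero] at ho'
          omega
        · exact h
      have hlt : o' < o := by
        have h2 : 2 ≤ Nat.gcd o a := by omega
        calc o' < 2 * o' := by omega
          _ ≤ Nat.gcd o a * o' := Nat.mul_le_mul_right _ h2
          _ = o := ho'.symm
      obtain ⟨u, v, N, h1, h2, h3⟩ := ih o' hlt ho'0
      refine ⟨Nat.gcd o a * u, v, N + 1, ?_, h2, ?_⟩
      · rw [mul_assoc, ← h1]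
        exact ho'
      · have h4 := mul_dvd_mul (Nat.gcd_dvd_right o a) h3
        rwa [← pow_succ'] at h4

theorem lift {G H : Type} [Group G] [Group H] (f : G →* H) (x : G) (hx : IsOfFinOrder x) (a : ℕ)
    (hxa : f x ^ a = 1) : ∃ k u N : ℕ, u ∣ a ^ N ∧ (x ^ k) ^ u = 1 ∧ f (x ^ k) = f x := by
  obtain ⟨u, v, N, ho, hv, hu⟩ := split a (orderOf x) hx.orderOf_pos
  have hd1 : orderOf (f x) ∣ orderOf x := orderOf_map_dvd f x
  have hd2 : orderOf (f x) ∣ a := orderOf_dvd_of_pow_eq_one hxa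
  have hdu : orderOf (f x) ∣ u := by
    rw [ho] at hd1
    exact (Nat.Coprime.coprime_dvd_left hd2 hv.symm).dvd_of_dvd_mul_right hd1
  have huv : Nat.Coprime u v := Nat.Coprime.coprime_dvd_left hu (hv.symm.pow_left N)
  obtain ⟨k, hk1, hk2⟩ := Nat.chineseRemainder huv 1 0
  refine ⟨k, u, N, hu, ?_, ?_⟩
  · rw [← pow_mul, ← orderOf_dvd_iff_pow_eq_one, ho, mul_comm k u]
    exact mul_dvd_mul_left u ((Nat.modEq_zero_iff_dvd).1 hk2)
  · rw [map_pow]
    have h1 : k ≡ 1 [MOD orderOf (f x)] := hk1.of_dvd hdu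
    have h2 : f x ^ k = f x ^ 1 := pow_eq_pow_iff_modEq.2 h1
    rw [h2, pow_one]

theorem NR_map {G H : Type} [Group G] [Group H] (f : G →* H) (hf : ∀ x : G, IsOfFinOrder x)
    (A : Subgroup G) : (NR A).map f = NR (A.map f) := by
  apply le_antisymm
  · unfold NR
    rw [MonoidHom.map_closure]
    apply Subgroup.closure_mono
    rintro _ ⟨g, ⟨x, hx, y, hy, a, b, hab, hxa, hyb, rfl⟩, rfl⟩
    refine ⟨f x, Subgroup.mem_map_of_mem f hx, f y, Subgroup.mem_map_of_mem f hy, a, b, hab,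
      ?_, ?_, ?_⟩
    · rw [← map_pow, hxa, map_one]
    · rw [← map_pow, hyb, map_one]
    · simp only [map_mul, map_inv]
  · refine (Subgroup.closure_le _).2 ?_
    rintro _ ⟨_, ⟨x, hx, rfl⟩, _, ⟨y, hy, rfl⟩, a, b, hab, hxa, hyb, rfl⟩
    obtain ⟨k, u, N, hu, h1, h2⟩ := lift f x (hf x) a hxa
    obtain ⟨l, w, M, hw, h3, h4⟩ := lift f y (hf y) b hyb
    have hc : Nat.Coprime u w := Nat.Coprime.coprime_dvd_left hu
      (Nat.Coprime.coprime_dvd_right hw ((hab.pow_left N).pow_right M))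
    refine ⟨x ^ k * y ^ l * (x ^ k)⁻¹ * (y ^ l)⁻¹, Subgroup.subset_closure
      ⟨x ^ k, A.pow_mem hx k, y ^ l, A.pow_mem hy l, u, w, hc, h1, h3, rfl⟩, ?_⟩
    simp only [map_mul, map_inv, h2, h4]

end TMAPS

theorem t_MAPS : S_MAPS := by
  intro G H _ _ f hf A m
  induction m with
  | zero => rfl
  | succ m ih =>
    show (NR (DD A m)).map f = NR (DD (A.map f) m)
    rw [TMAPS.NR_map f hf, ih]

end Pool.Agent.H32BU
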