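import Pool.Agent.H32BU.St

set_option autoImplicit false

namespace Pool.Agent.H32BU

namespace TMON

variable {G : Type} [Group G]

theorem NR_mono {A B : Subgroup G} (h : A ≤ B) : NR A ≤ NR B := by
  unfold NR
  apply Subgroup.closure_mono
  rintro g ⟨x, hx, y, hy, a, b, hab, hxa, hyb, hg⟩
  exact ⟨x, h hx, y, h hy, a, b, hab, hxa, hyb, hg⟩

theorem NR_le (A : Subgroup G) : NR A ≤ A := by
  unfold NR
  rw [Subgroup.closure_le]
  rintro g ⟨x, hx, y, hy, a, b, hab, hxa, hyb, rfl⟩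
  exact A.mul_mem (A.mul_mem (A.mul_mem hx hy) (A.inv_mem hx)) (A.inv_mem hy)

theorem DD_mono {A B : Subgroup G} (h : A ≤ B) (m : ℕ) : DD A m ≤ DD B m := by
  induction m with
  | zero => exact h
  | succ m ih => exact NR_mono ih

theorem conj_pow_one (g x : G) (a : ℕ) (h : x ^ a = 1) : (g * x * g⁻¹) ^ a = 1 := by
  rw [conj_pow, h, mul_one, mul_inv_cancel]

theorem NR_conj (A : Subgroup G) (g : G) (h : ∀ a ∈ A, g * a * g⁻¹ ∈ A) :
    ∀ a ∈ NR A, g * a * g⁻¹ ∈ NR A := by
  intro a ha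
  unfold NR at ha ⊢
  induction ha using Subgroup.closure_induction with
  | mem z hz =>
    obtain ⟨x, hx, y, hy, a, b, hab, hxa, hyb, rfl⟩ := hz
    apply Subgroup.subset_closure
    refine ⟨g * x * g⁻¹, h x hx, g * y * g⁻¹, h y hy, a, b, hab, conj_pow_one g x a hxa,
      conj_pow_one g y b hyb, ?_⟩
    group
  | one =>
    rw [mul_one, mul_inv_cancel]
    exact Subgroup.one_mem _
  | mul x y _ _ hx hy =>
    have e : g * (x * y) * g⁻¹ = (g * x * g⁻¹) * (g * y * g⁻¹) := by group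
    rw [e]
    exact Subgroup.mul_mem _ hx hy
  | inv x _ hx =>
    have e : g * x⁻¹ * g⁻¹ = (g * x * g⁻¹)⁻¹ := by group
    rw [e]
    exact Subgroup.inv_mem _ hx

theorem DD_conj (A : Subgroup G) (g : G) (h : ∀ a ∈ A, g * a * g⁻¹ ∈ A) (m : ℕ) :
    ∀ a ∈ DD A m, g * a * g⁻¹ ∈ DD A m := by
  induction m with
  | zero => exact h
  | succ m ih => exact NR_conj _ g ih

theorem DD_add (A : Subgroup G) (m k : ℕ) : DD A (m + k) = DD (DD A m) k := by
  induction k with
  | zero => rfl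
  | succ k ih =>
    show NR (DD A (m + k)) = NR (DD (DD A m) k)
    rw [ih]

end TMON

open TMON in
theorem t_MON : S_MON := by
  intro G _
  refine ⟨fun A B h m => DD_mono h m, fun A m => NR_le _, ?_, ?_, DD_add⟩
  · intro A g h1 h2 m
    refine ⟨DD_conj A g h1 m, ?_⟩
    have h3 := DD_conj A g⁻¹ (fun a ha => by rw [inv_inv]; exact h2 a ha) m
    intro a ha
    have := h3 a ha
    rwa [inv_inv] at this
  · intro A hA m
    constructor
    intro n hn g
    exact DD_conj A g (fun a ha => hA.conj_mem a ha g) m n hn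

end Pool.Agent.H32BU
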