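import Pool.Agent.H32BU.St

set_option autoImplicit false

namespace Pool.Agent.H32BU

namespace TNRM

open Polynomial

lemma root_pow (d m : ℕ) (A : Matrix (Fin d) (Fin d) ℂ) (hA : A ^ m = 1)
    (x : ℂ) (hx : x ∈ A.charpoly.roots) : x ^ m = 1 := by
  have h1 : A.charpoly.IsRoot x := by
    rw [Polynomial.mem_roots'] at hx
    exact hx.2
  have h2 : x ∈ spectrum ℂ A := by
    rwa [Matrix.mem_spectrum_iff_isRoot_charpoly]
  have h3 : (minpoly ℂ A).IsRoot x := by
    have h4 := Matrix.mem_spectrum_of_isRoot_charpoly h1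
    rw [← Matrix.spectrum_toLin'] at h4
    rw [← Matrix.minpoly_toLin']
    exact Module.End.hasEigenvalue_iff_isRoot.mp
      (Module.End.hasEigenvalue_iff_mem_spectrum.mpr h4)
  have h5 : minpoly ℂ A ∣ X ^ m - 1 := minpoly.dvd _ _ (by simp [hA])
  have h6 : (X ^ m - 1 : ℂ[X]).IsRoot x := h3.dvd h5
  have h7 : x ^ m - 1 = 0 := by simpa [Polynomial.IsRoot] using h6
  exact sub_eq_zero.mp h7

lemma card_roots (d : ℕ) (A : Matrix (Fin d) (Fin d) ℂ) : A.charpoly.roots.card = d := by
  have h1 := (IsAlgClosed.splits A.charpoly).natDegree_eq_card_roots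
  rw [← h1, Matrix.charpoly_natDegree_eq_dim, Fintype.card_fin]

lemma eq_scalar (d m : ℕ) (A : Matrix (Fin d) (Fin d) ℂ) (hd : 1 ≤ d) (hm : 1 ≤ m)
    (hA : A ^ m = 1) (μ : ℂ) (h : ∀ x ∈ A.charpoly.roots, x = μ) : A = μ • 1 := by
  have hch : A.charpoly = (X - C μ) ^ d := by
    have h1 := (IsAlgClosed.splits A.charpoly).eq_prod_roots_of_monic (Matrix.charpoly_monic A)
    have h2 : A.charpoly.roots = Multiset.replicate d μ :=
      Multiset.eq_replicate.mpr ⟨card_roots d A, h⟩
    rw [h1, h2]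
    simp
  have h1 : minpoly ℂ A ∣ (X - C μ) ^ d := by
    rw [← hch]
    exact Matrix.minpoly_dvd_charpoly A
  have h2 : minpoly ℂ A ∣ X ^ m - 1 := minpoly.dvd _ _ (by simp [hA])
  have h3 : Squarefree (X ^ m - 1 : ℂ[X]) := by
    apply Polynomial.Separable.squarefree
    have := Polynomial.separable_X_pow_sub_C (1 : ℂ) (n := m) (by
      have : m ≠ 0 := by omega
      exact_mod_cast this) one_ne_zero
    simpa using this
  have h4 : Squarefree (minpoly ℂ A) := h3.squarefree_of_dvd h2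
  have h5 : minpoly ℂ A ∣ (X - C μ) :=
    (h4.dvd_pow_iff_dvd (by omega)).mp h1
  have h6 : aeval A (X - C μ) = 0 := by
    obtain ⟨q, hq⟩ := h5
    rw [hq, map_mul, minpoly.aeval, zero_mul]
  have h7 : A - algebraMap ℂ _ μ = 0 := by simpa using h6
  have h8 := sub_eq_zero.mp h7
  rw [h8, Algebra.algebraMap_eq_smul_one]

lemma norm_alpha (d m : ℕ) (hm : 1 ≤ m) (hd : 1 ≤ d) (s : Multiset ℂ) (hs : s.card = d)
    (h1 : ∀ x ∈ s, x ^ m = 1) (hint : IsIntegral ℤ (s.sum / (d : ℂ))) (h0 : s.sum ≠ 0) :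
    ‖s.sum / (d : ℂ)‖ = 1 := by
  have hm0 : m ≠ 0 := by omega
  obtain ⟨ζ, hζ⟩ : ∃ ζ : ℂ, IsPrimitiveRoot ζ m := ⟨_, Complex.isPrimitiveRoot_exp m hm0⟩
  have hζi : IsIntegral ℚ ζ := by
    refine ⟨X ^ m - 1, ?_, ?_⟩
    · exact Polynomial.monic_X_pow_sub_C 1 hm0
    · simp [hζ.pow_eq_one]
  let K := IntermediateField.adjoin ℚ ({ζ} : Set ℂ)
  haveI : FiniteDimensional ℚ K := IntermediateField.adjoin.finiteDimensional hζi
  haveI : NumberField K := ⟨⟩
  have hζK : ζ ∈ K := IntermediateField.mem_adjoin_simple_self ℚ ζ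
  have hmem : ∀ x ∈ s, x ∈ K := by
    intro x hx
    haveI : NeZero m := ⟨hm0⟩
    obtain ⟨i, -, hi⟩ := hζ.eq_pow_of_pow_eq_one (h1 x hx)
    rw [← hi]
    exact pow_mem hζK i
  -- lift the multiset
  obtain ⟨t, ht⟩ : ∃ t : Multiset K, t.map (algebraMap K ℂ) = s := by
    refine ⟨s.pmap (fun x hx => (⟨x, hx⟩ : K)) hmem, ?_⟩
    rw [Multiset.map_pmap]
    have : (s.pmap (fun x (hx : x ∈ K) => (algebraMap K ℂ) ⟨x, hx⟩) hmem) =
      s.pmap (fun x (_ : x ∈ K) => x) hmem := by
      apply Multiset.pmap_congr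
      intro a _ _ _
      rfl
    rw [this, Multiset.pmap_eq_map, Multiset.map_id']
  have hsum : s.sum = algebraMap K ℂ t.sum := by
    rw [← ht, map_multiset_sum]
  have htc : t.card = d := by rw [← hs, ← ht, Multiset.card_map]
  set a : K := t.sum / (d : K) with ha
  have haα : algebraMap K ℂ a = s.sum / (d : ℂ) := by
    rw [ha, map_div₀, hsum]
    simp
  have ha0 : a ≠ 0 := by
    intro h
    rw [h, map_zero] at haα
    have hd0 : (d : ℂ) ≠ 0 := by
      have : d ≠ 0 := by omega
      exact_mod_cast this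
    have := haα.symm
    rw [div_eq_zero_iff] at this
    rcases this with h | h
    · exact h0 h
    · exact hd0 h
  have hai : IsIntegral ℤ a := by
    have : IsIntegral ℤ (algebraMap K ℂ a) := by rw [haα]; exact hint
    exact (isIntegral_algebraMap_iff (algebraMap K ℂ).injective).mp this
  have htp : ∀ y ∈ t, y ^ m = 1 := by
    intro y hy
    apply (algebraMap K ℂ).injective
    rw [map_pow, map_one]
    apply h1
    rw [← ht]
    exact Multiset.mem_map_of_mem _ hy
  have hconj : ∀ φ : K →+* ℂ, ‖φ a‖ ≤ 1 := by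
    intro φ
    rw [ha, map_div₀, map_natCast, norm_div, Complex.norm_natCast, map_multiset_sum]
    have hdpos : (0 : ℝ) < d := by exact_mod_cast hd
    rw [div_le_one hdpos]
    have h2 : ‖(t.map φ).sum‖ ≤ ((t.map φ).map (fun x => ‖x‖)).sum := by
      exact norm_multiset_sum_le _
    refine h2.trans ?_
    have h3 : ((t.map φ).map (fun x => ‖x‖)) = Multiset.replicate d (1 : ℝ) := by
      rw [Multiset.eq_replicate]
      refine ⟨by simp [htc], ?_⟩
      intro b hb
      rw [Multiset.mem_map] at hb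
      obtain ⟨x, hx, rfl⟩ := hb
      rw [Multiset.mem_map] at hx
      obtain ⟨y, hy, rfl⟩ := hx
      have : (φ y) ^ m = 1 := by rw [← map_pow, htp y hy, map_one]
      exact Complex.norm_eq_one_of_pow_eq_one this hm0
    rw [h3]
    simp
  obtain ⟨n, hn, hpow⟩ := NumberField.Embeddings.pow_eq_one_of_norm_le_one K ℂ ha0 hai hconj
  rw [← haα]
  have : (algebraMap K ℂ a) ^ n = 1 := by rw [← map_pow, hpow, map_one]
  exact Complex.norm_eq_one_of_pow_eq_one this (by omega)

lemma all_eq (d m : ℕ) (hm : 1 ≤ m) (hd : 1 ≤ d) (s : Multiset ℂ) (hs : s.card = d)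
    (h1 : ∀ x ∈ s, x ^ m = 1) (h : ‖s.sum / (d : ℂ)‖ = 1) :
    ∀ x ∈ s, x = s.sum / (d : ℂ) := by
  set α := s.sum / (d : ℂ) with hα
  have hm0 : m ≠ 0 := by omega
  have hd0 : (d : ℂ) ≠ 0 := by
    have : d ≠ 0 := by omega
    exact_mod_cast this
  have hsum : s.sum = d * α := by rw [hα]; field_simp
  let f : ℂ → ℝ := fun x => 1 - ((starRingEnd ℂ) α * x).re
  have hf0 : ∀ x ∈ s, 0 ≤ f x := by
    intro x hx
    have hn : ‖(starRingEnd ℂ) α * x‖ = 1 := by
      rw [norm_mul, RCLike.norm_conj, h, Complex.norm_eq_one_of_pow_eq_one (h1 x hx) hm0, one_mul]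
    have := Complex.re_le_norm ((starRingEnd ℂ) α * x)
    simp only [f]
    linarith
  have hfs : (s.map f).sum = 0 := by
    have e1 : (s.map f).sum = (s.card : ℝ) - ((starRingEnd ℂ) α * s.sum).re := by
      clear_value α
      clear hα hsum hf0 h h1 hs hd0
      induction s using Multiset.induction_on with
      | empty => simp
      | cons a s ih =>
        rw [Multiset.map_cons, Multiset.sum_cons, ih, Multiset.card_cons, Multiset.sum_cons]
        simp only [f, mul_add, Complex.add_re]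
        push_cast
        ring
    rw [e1, hs, hsum]
    have e2 : (starRingEnd ℂ) α * ((d : ℂ) * α) = (d : ℂ) * ((starRingEnd ℂ) α * α) := by ring
    have e3 : (starRingEnd ℂ) α * α = 1 := by
      rw [mul_comm, Complex.mul_conj, Complex.normSq_eq_norm_sq, h]
      simp
    rw [e2, e3]
    simp
  intro x hx
  have hfx : f x = 0 := by
    apply le_antisymm _ (hf0 x hx)
    rw [← hfs]
    apply Multiset.single_le_sum
    · intro y hy
      rw [Multiset.mem_map] at hy
      obtain ⟨z, hz, rfl⟩ := hy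
      exact hf0 z hz
    · exact Multiset.mem_map_of_mem _ hx
  have hre : ((starRingEnd ℂ) α * x).re = 1 := by
    simp only [f] at hfx
    linarith
  have hn : ‖(starRingEnd ℂ) α * x‖ = 1 := by
    rw [norm_mul, RCLike.norm_conj, h, Complex.norm_eq_one_of_pow_eq_one (h1 x hx) hm0, one_mul]
  have him : ((starRingEnd ℂ) α * x).im = 0 := by
    have h2 := Complex.sq_norm ((starRingEnd ℂ) α * x)
    rw [hn, Complex.normSq_apply, hre] at h2
    nlinarith
  have hone : (starRingEnd ℂ) α * x = 1 := by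
    apply Complex.ext
    · rw [hre]; simp
    · rw [him]; simp
  have e3 : α * (starRingEnd ℂ) α = 1 := by
    rw [Complex.mul_conj, Complex.normSq_eq_norm_sq, h]
    simp
  calc x = (α * (starRingEnd ℂ) α) * x := by rw [e3, one_mul]
    _ = α * ((starRingEnd ℂ) α * x) := by ring
    _ = α := by rw [hone, mul_one]

end TNRM

open TNRM in
theorem t_NRM : S_INTG → S_NRM := by
  intro _ d m A hd hm hA hint
  by_cases h0 : Matrix.trace A = 0
  · left; exact h0
  · right
    have htr : Matrix.trace A = A.charpoly.roots.sum := Matrix.trace_eq_sum_roots_charpoly A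
    rw [htr] at hint h0
    have hn := norm_alpha d m hm hd A.charpoly.roots (card_roots d A) (root_pow d m A hA) hint h0
    have ha := all_eq d m hm hd A.charpoly.roots (card_roots d A) (root_pow d m A hA) hn
    exact ⟨_, eq_scalar d m A hd hm hA _ ha⟩

end Pool.Agent.H32BU
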