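import Pool.Agent.H32BU.St

set_option autoImplicit false

/-! Task NS: the subgroup generated by `Nset q`. -/

namespace Pool.Agent.H32BU

namespace TNS

variable {G : Type} [Group G]

theorem conj_inv (q : ℕ) (e g : G) (he : e ∈ (Nset q : Set G)) :
    g * e * g⁻¹ ∈ (Nset q : Set G) := by
  obtain ⟨h1, h2⟩ := he
  refine ⟨by rw [conj_pow, h1]; simp, fun y hy c hc => ?_⟩
  have hy' : (g⁻¹ * y * g) ^ q = 1 := by
    have := conj_pow (i := q) (a := g⁻¹) (b := y)
    rw [inv_inv] at this
    rw [this, hy]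
    simp
  have hle : c2 (g * e * g⁻¹) y ≤ (c2 e (g⁻¹ * y * g)).comap (MulAut.conj g⁻¹).toMonoidHom := by
    unfold c2
    rw [Subgroup.closure_le]
    intro z hz
    have hz' : z = g * e * g⁻¹ ∨ z = y := hz
    show g⁻¹ * z * g⁻¹⁻¹ ∈ Subgroup.closure ({e, g⁻¹ * y * g} : Set G)
    rcases hz' with h | h
    · have : g⁻¹ * z * g⁻¹⁻¹ = e := by rw [h]; group
      rw [this]
      exact Subgroup.subset_closure (Or.inl rfl)
    · rw [inv_inv, h]
      exact Subgroup.subset_closure (Or.inr rfl)
  have h3 : g⁻¹ * c * g⁻¹⁻¹ ∈ c2 e (g⁻¹ * y * g) := hle hc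
  have h4 := h2 _ hy' _ h3
  rw [conj_pow, inv_inv] at h4
  have h5 : c ^ q = g * (g⁻¹ * c ^ q * g) * g⁻¹ := by group
  rw [h5, h4]
  simp

end TNS

open TNS in
theorem t_NS : S_NS := by
  intro G _ q
  constructor
  · intro g hg
    induction hg using Subgroup.closure_induction_right with
    | one => exact one_pow q
    | mul_right x hx y hy ih =>
      exact hy.2 x ih _ (Subgroup.mul_mem _ (Subgroup.subset_closure (Or.inr rfl))
        (Subgroup.subset_closure (Or.inl rfl)))
    | mul_inv_cancel x hx y hy ih =>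
      exact hy.2 x ih _ (Subgroup.mul_mem _ (Subgroup.subset_closure (Or.inr rfl))
        (Subgroup.inv_mem _ (Subgroup.subset_closure (Or.inl rfl))))
  · constructor
    intro n hn g
    have hle : Subgroup.closure (Nset q : Set G) ≤
        (Subgroup.closure (Nset q : Set G)).comap (MulAut.conj g).toMonoidHom := by
      rw [Subgroup.closure_le]
      intro z hz
      exact Subgroup.subset_closure (conj_inv q z g hz)
    exact hle hn

end Pool.Agent.H32BU
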