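import Mathlib
import Pool.Agent.H32BU.St

set_option autoImplicit false

/-!
# PPC: a simple group with a conjugacy class of prime power size is commutative
-/

namespace Pool.Agent.H32BU

namespace TPPC

/-- the components of an isomorphism as homomorphisms of algebras -/
noncomputable def comp {G : Type} [Group G] {n : ℕ} {d : Fin n → ℕ}
    (e : MonoidAlgebra ℂ G ≃ₐ[ℂ] ((i : Fin n) → Matrix (Fin (d i)) (Fin (d i)) ℂ)) (i : Fin n) :
    MonoidAlgebra ℂ G →ₐ[ℂ] Matrix (Fin (d i)) (Fin (d i)) ℂ :=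
  (Pi.evalAlgHom ℂ (fun i : Fin n => Matrix (Fin (d i)) (Fin (d i)) ℂ) i).comp e.toAlgHom

theorem comp_apply {G : Type} [Group G] {n : ℕ} {d : Fin n → ℕ}
    (e : MonoidAlgebra ℂ G ≃ₐ[ℂ] ((i : Fin n) → Matrix (Fin (d i)) (Fin (d i)) ℂ)) (i : Fin n)
    (x : MonoidAlgebra ℂ G) : comp e i x = e x i := rfl

theorem comp_surj {G : Type} [Group G] {n : ℕ} {d : Fin n → ℕ}
    (e : MonoidAlgebra ℂ G ≃ₐ[ℂ] ((i : Fin n) → Matrix (Fin (d i)) (Fin (d i)) ℂ)) (i : Fin n) :
    Function.Surjective (comp e i) := by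
  intro M
  refine ⟨e.symm (Pi.single i M), ?_⟩
  rw [comp_apply, AlgEquiv.apply_symm_apply, Pi.single_eq_same]

/-- the representations -/
noncomputable def rho {G : Type} [Group G] {n : ℕ} {d : Fin n → ℕ}
    (e : MonoidAlgebra ℂ G ≃ₐ[ℂ] ((i : Fin n) → Matrix (Fin (d i)) (Fin (d i)) ℂ)) (i : Fin n) :
    G →* Matrix (Fin (d i)) (Fin (d i)) ℂ :=
  (comp e i : MonoidAlgebra ℂ G →* Matrix (Fin (d i)) (Fin (d i)) ℂ).comp (MonoidAlgebra.of ℂ G)

theorem rho_apply {G : Type} [Group G] {n : ℕ} {d : Fin n → ℕ}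
    (e : MonoidAlgebra ℂ G ≃ₐ[ℂ] ((i : Fin n) → Matrix (Fin (d i)) (Fin (d i)) ℂ)) (i : Fin n)
    (g : G) : rho e i g = e (MonoidAlgebra.single g 1) i := rfl

/-- the elements represented by scalars -/
def scal {G : Type} [Group G] {d : ℕ} (hd : 0 < d) (r : G →* Matrix (Fin d) (Fin d) ℂ) :
    Subgroup G where
  carrier := {h | ∃ c : ℂ, r h = c • 1}
  mul_mem' := by
    rintro a b ⟨c, hc⟩ ⟨c', hc'⟩
    refine ⟨c * c', ?_⟩
    rw [map_mul, hc, hc', smul_mul_smul_comm, one_mul]
  one_mem' := ⟨1, by rw [map_one, one_smul]⟩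
  inv_mem' := by
    rintro a ⟨c, hc⟩
    have h1 : r a * r a⁻¹ = 1 := by rw [← map_mul, mul_inv_cancel, map_one]
    rw [hc, smul_mul_assoc, one_mul] at h1
    have hc0 : c ≠ 0 := by
      intro h0
      rw [h0, zero_smul] at h1
      have h2 := congrFun (congrFun h1 ⟨0, hd⟩) ⟨0, hd⟩
      simp at h2
    refine ⟨c⁻¹, ?_⟩
    rw [← h1, smul_smul, inv_mul_cancel₀ hc0, one_smul]

theorem scal_normal {G : Type} [Group G] {d : ℕ} (hd : 0 < d)
    (r : G →* Matrix (Fin d) (Fin d) ℂ) : (scal hd r).Normal := by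
  constructor
  rintro h ⟨c, hc⟩ x
  refine ⟨c, ?_⟩
  rw [map_mul, map_mul, hc, mul_smul_comm, mul_one, smul_mul_assoc, ← map_mul, mul_inv_cancel,
    map_one]

theorem not_integral {p : ℕ} (hp : p.Prime) (z : ℂ) (hz : IsIntegral ℤ z)
    (h : (p : ℂ) * z = -1) : False := by
  have hp0 : (p : ℂ) ≠ 0 := by exact_mod_cast hp.ne_zero
  have hp0' : (p : ℚ) ≠ 0 := by exact_mod_cast hp.ne_zero
  have h1 : z = algebraMap ℚ ℂ (-1 / p) := by
    rw [map_div₀, map_neg, map_one, map_natCast, eq_div_iff hp0, mul_comm]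
    exact h
  rw [h1, isIntegral_algebraMap_iff (algebraMap ℚ ℂ).injective] at hz
  obtain ⟨m, hm⟩ := IsIntegrallyClosed.isIntegral_iff.1 hz
  have h2 : (m : ℚ) * p = -1 := by
    have : (m : ℚ) = -1 / p := hm
    rw [this]
    field_simp
  have h3 : m * (p : ℤ) = -1 := by exact_mod_cast h2
  have h4 : (p : ℤ) ∣ 1 := ⟨-m, by linarith⟩
  have h5 : p ∣ 1 := by exact_mod_cast h4
  exact hp.one_lt.ne' (Nat.dvd_one.1 h5)

end TPPC

open TPPC in
theorem t_PPC (hW : S_WED) (hT : S_TRZ) (hI : S_INTG) (hN : S_NRM) (hC : S_CEN) (hTri : S_TRI) :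
    S_PPC := by
  intro G _ _ hS g p k hp hg hcard
  by_contra hcomm
  push Not at hcomm
  obtain ⟨x, y, hxy⟩ := hcomm
  rcases Nat.eq_zero_or_pos k with hk | hk
  · -- `g` is central
    rw [hk, pow_zero, Nat.card_eq_one_iff_unique] at hcard
    obtain ⟨hsub, _⟩ := hcard
    have hgc : g ∈ Subgroup.center G := by
      rw [Subgroup.mem_center_iff]
      intro h
      have h1 : IsConj g (h * g * h⁻¹) := isConj_iff.2 ⟨h, rfl⟩
      have h2 := hsub.elim (⟨h * g * h⁻¹, h1⟩ : {h : G // IsConj g h}) ⟨g, IsConj.refl g⟩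
      have h3 : h * g * h⁻¹ = g := congrArg Subtype.val h2
      rw [mul_inv_eq_iff_eq_mul] at h3
      exact h3
    rcases (inferInstance : (Subgroup.center G).Normal).eq_bot_or_eq_top with h | h
    · rw [h, Subgroup.mem_bot] at hgc
      exact hg hgc
    · have h1 : y ∈ Subgroup.center G := by rw [h]; exact Subgroup.mem_top y
      exact hxy (Subgroup.mem_center_iff.1 h1 x)
  · obtain ⟨n, d, hd, ⟨e⟩⟩ := hW G
    obtain ⟨i₀, hdi, hi₀, huniq⟩ := hTri G n d e hd
    have hord : ∀ i, rho e i g ^ orderOf g = 1 := by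
      intro i
      rw [← map_pow, pow_orderOf_eq_one, map_one]
    have hpos : 1 ≤ orderOf g := orderOf_pos g
    have hint : ∀ i, IsIntegral ℤ (Matrix.trace (rho e i g)) := fun i =>
      hI (d i) (orderOf g) (rho e i g) hpos (hord i)
    -- the characters vanish when `p` does not divide the degree
    have hA : ∀ i, i ≠ i₀ → ¬ p ∣ d i → Matrix.trace (rho e i g) = 0 := by
      intro i hi hpd
      have h1 := hC G (d i) (comp e i) g (hd i) (comp_surj e i)
      rw [hcard] at h1
      have hco : IsCoprime ((d i : ℕ) : ℤ) ((p ^ k : ℕ) : ℤ) := by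
        rw [Nat.isCoprime_iff_coprime]
        exact (Nat.Coprime.pow_left k ((Nat.Prime.coprime_iff_not_dvd hp).2 hpd)).symm
      obtain ⟨u, v, huv⟩ := hco
      have hd0 : ((d i : ℕ) : ℂ) ≠ 0 := by exact_mod_cast (hd i).ne'
      have h2 : Matrix.trace (rho e i g) / ((d i : ℕ) : ℂ) =
          (u : ℂ) * Matrix.trace (rho e i g) +
            (v : ℂ) * (((p ^ k : ℕ) : ℂ) * Matrix.trace (comp e i (MonoidAlgebra.single g 1)) /
              ((d i : ℕ) : ℂ)) := by
        have h3 : (u : ℂ) * ((d i : ℕ) : ℂ) + (v : ℂ) * ((p ^ k : ℕ) : ℂ) = 1 := by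
          exact_mod_cast huv
        have h4 : comp e i (MonoidAlgebra.single g 1) = rho e i g := rfl
        rw [h4, div_eq_iff hd0]
        have h5 : ((u : ℂ) * Matrix.trace (rho e i g) +
            (v : ℂ) * (((p ^ k : ℕ) : ℂ) * Matrix.trace (rho e i g) / ((d i : ℕ) : ℂ))) *
              ((d i : ℕ) : ℂ) = ((u : ℂ) * ((d i : ℕ) : ℂ) + (v : ℂ) * ((p ^ k : ℕ) : ℂ)) *
                Matrix.trace (rho e i g) := by
          field_simp
        rw [h5, h3, one_mul]
      have h3 : IsIntegral ℤ (Matrix.trace (rho e i g) / ((d i : ℕ) : ℂ)) := by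
        rw [h2]
        exact ((isIntegral_algebraMap (R := ℤ) (A := ℂ) (x := u)).mul (hint i)).add
          ((isIntegral_algebraMap (R := ℤ) (A := ℂ) (x := v)).mul h1)
      rcases hN (d i) (orderOf g) (rho e i g) (hd i) hpos (hord i) h3 with h | h
      · exact h
      · exfalso
        -- everything is scalar
        have hnorm := scal_normal (hd i) (rho e i)
        have htop : scal (hd i) (rho e i) = ⊤ := by
          rcases hnorm.eq_bot_or_eq_top with h4 | h4
          · exfalso
            have h5 : g ∈ scal (hd i) (rho e i) := h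
            rw [h4, Subgroup.mem_bot] at h5
            exact hg h5
          · exact h4
        have hsc : ∀ h, ∃ c : ℂ, rho e i h = c • 1 := by
          intro h
          have h5 : h ∈ scal (hd i) (rho e i) := by rw [htop]; exact Subgroup.mem_top h
          exact h5
        have hker : x * y * (y * x)⁻¹ ∈ (rho e i).ker := by
          rw [MonoidHom.mem_ker]
          obtain ⟨c, hc⟩ := hsc x
          obtain ⟨c', hc'⟩ := hsc y
          have h6 : rho e i (x * y) = rho e i (y * x) := by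
            rw [map_mul, map_mul, hc, hc', smul_mul_smul_comm, smul_mul_smul_comm, mul_comm c c']
          rw [map_mul, h6, ← map_mul, mul_inv_cancel, map_one]
        have hkt : (rho e i).ker = ⊤ := by
          rcases (MonoidHom.normal_ker (rho e i)).eq_bot_or_eq_top with h4 | h4
          · exfalso
            rw [h4, Subgroup.mem_bot, mul_inv_eq_one] at hker
            exact hxy hker
          · exact h4
        refine hi (huniq i fun h => ?_)
        have h7 : h ∈ (rho e i).ker := by rw [hkt]; exact Subgroup.mem_top h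
        exact (MonoidHom.mem_ker).1 h7
    -- the regular character
    have hreg := hT G n d e g hg
    have hsplit := Finset.add_sum_erase Finset.univ
      (fun i => (d i : ℂ) * Matrix.trace (e (MonoidAlgebra.single g 1) i)) (Finset.mem_univ i₀)
    rw [hreg] at hsplit
    have hi0 : (d i₀ : ℂ) * Matrix.trace (e (MonoidAlgebra.single g 1) i₀) = 1 := by
      rw [hi₀ g, Matrix.trace_one, Fintype.card_fin, hdi]
      norm_num
    simp only [hi0] at hsplit
    have hz : (∑ i ∈ Finset.univ.erase i₀,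
        (d i : ℂ) * Matrix.trace (e (MonoidAlgebra.single g 1) i)) =
        (p : ℂ) * ∑ i ∈ Finset.univ.erase i₀,
          (if p ∣ d i then ((d i / p : ℕ) : ℂ) * Matrix.trace (rho e i g) else 0) := by
      rw [Finset.mul_sum]
      refine Finset.sum_congr rfl fun i hi => ?_
      have h1 : e (MonoidAlgebra.single g 1) i = rho e i g := rfl
      rw [h1]
      split_ifs with hdv
      · have hk1 : (p : ℂ) * ((d i / p : ℕ) : ℂ) = (d i : ℂ) := by
          exact_mod_cast Nat.mul_div_cancel' hdv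
        rw [← mul_assoc, hk1]
      · rw [hA i (Finset.ne_of_mem_erase hi) hdv, mul_zero, mul_zero]
    refine not_integral hp _ ?_ (eq_neg_of_add_eq_zero_right (hz ▸ hsplit))
    refine IsIntegral.sum _ fun i _ => ?_
    split_ifs
    · have := (isIntegral_algebraMap (R := ℤ) (A := ℂ) (x := ((d i / p : ℕ) : ℤ))).mul (hint i)
      rwa [eq_intCast, Int.cast_natCast] at this
    · exact isIntegral_zero

end Pool.Agent.H32BU
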