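import Pool.Agent.H32BU.St

set_option autoImplicit false

namespace Pool.Agent.H32BU

theorem t_QB (h1 : S_SOLH) (h2 : S_MAPS) : S_QB := by
  intro n hfin hsol
  obtain ⟨m, hm⟩ := h1 (Bu 3 n) hfin hsol
  refine ⟨m, fun G _ hG a x z => ?_⟩
  let f0 : FreeGroup (Fin 3) →* G := FreeGroup.lift ![a, x, z]
  have hker : Subgroup.normalClosure (Set.range fun w : FreeGroup (Fin 3) => w ^ n) ≤ f0.ker := by
    apply Subgroup.normalClosure_le_normal
    rintro _ ⟨w, rfl⟩
    rw [SetLike.mem_coe, MonoidHom.mem_ker, map_pow, hG]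
  let f : Bu 3 n →* G := QuotientGroup.lift _ f0 (fun w hw => hker hw)
  have hrange : f.range = c3 a x z := by
    have e1 : f.range = f0.range := by
      ext g
      constructor
      · rintro ⟨w, rfl⟩
        obtain ⟨w, rfl⟩ := QuotientGroup.mk_surjective w
        exact ⟨w, rfl⟩
      · rintro ⟨w, rfl⟩
        exact ⟨(w : Bu 3 n), rfl⟩
    rw [e1, c3]
    have e2 : f0.range = Subgroup.closure (Set.range ![a, x, z]) := by
      exact FreeGroup.range_lift_eq_closure
    rw [e2]
    congr 1
    ext g
    simp only [Set.mem_range, Fin.exists_fin_succ, Set.mem_insert_iff, Set.mem_singleton_iff]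
    simp [eq_comm]
  have hfin' : Finite f.range := by
    have : Finite (Set.range f) := Set.finite_range f
    exact this
  refine ⟨hrange ▸ hfin', ?_, ?_⟩
  · rw [← hrange]
    exact Group.isSolvable_of_surjective f.rangeRestrict_surjective
  · have h3 := h2 (Bu 3 n) G f (fun w => isOfFinOrder_of_finite w) ⊤ m
    rw [hm, Subgroup.map_bot, ← MonoidHom.range_eq_map, hrange] at h3
    exact h3.symm

end Pool.Agent.H32BU
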