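import Mathlib
import Pool.Agent.H32BU.St

set_option autoImplicit false

namespace Pool.Agent.H32BU

theorem t_SCH : S_SCH := by
  intro G _ N _ hN hQ S
  classical
  obtain ⟨H, hH⟩ : ∃ H : Subgroup G, H = Subgroup.closure (S : Set G) := ⟨_, rfl⟩
  rw [← hH]
  obtain ⟨f, hf⟩ : ∃ f : H →* G ⧸ N, f = (QuotientGroup.mk' N).comp H.subtype := ⟨_, rfl⟩
  have h1 : Finite f.range := by
    have h0 := hQ (S.image (QuotientGroup.mk' N))
    have e : f.range = Subgroup.closure ((S.image (QuotientGroup.mk' N) : Finset (G ⧸ N)) :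
        Set (G ⧸ N)) := by
      rw [hf, MonoidHom.range_comp, Subgroup.range_subtype, hH, MonoidHom.map_closure,
        Finset.coe_image]
    rw [e]
    exact h0
  have h2 : f.ker.FiniteIndex := Subgroup.finiteIndex_ker f
  have h3 : Group.FG H := by
    rw [Group.fg_iff_subgroup_fg]
    exact ⟨S, hH.symm⟩
  have h4 : Group.FG f.ker := Subgroup.fg_of_index_ne_zero f.ker
  have hfa : ∀ x : H, f x = ((x : G) : G ⧸ N) := by
    intro x
    rw [hf]
    rfl
  have hmem : ∀ k : f.ker, ((k : H) : G) ∈ N := by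
    intro k
    have h5 : f (k : H) = 1 := k.2
    rw [hfa (k : H)] at h5
    exact (QuotientGroup.eq_one_iff ((k : H) : G)).1 h5
  obtain ⟨g, hg⟩ : ∃ g : f.ker →* N, ∀ k, ((g k : N) : G) = ((k : H) : G) :=
    ⟨{ toFun := fun k => ⟨((k : H) : G), hmem k⟩
       map_one' := rfl
       map_mul' := fun _ _ => rfl }, fun _ => rfl⟩
  have hginj : Function.Injective g := by
    intro x y hxy
    have h6 : ((g x : N) : G) = ((g y : N) : G) := by rw [hxy]
    rw [hg, hg] at h6
    exact Subtype.ext (Subtype.ext h6)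
  have h8 : (⊤ : Subgroup f.ker).FG := h4.out
  obtain ⟨T, hT⟩ := h8
  have h9 : Finite g.range := by
    rw [MonoidHom.range_eq_map, ← hT, MonoidHom.map_closure, ← Finset.coe_image]
    exact hN (T.image g)
  have h10 : Finite f.ker := by
    refine Finite.of_injective (fun k => (⟨g k, ⟨k, rfl⟩⟩ : g.range)) fun x y hxy => ?_
    exact hginj (congrArg Subtype.val hxy)
  have h11 : Finite (H ⧸ f.ker) := Subgroup.finite_quotient_of_finiteIndex
  exact Finite.of_equiv _ (Subgroup.groupEquivQuotientProdSubgroup (s := f.ker)).symm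

end Pool.Agent.H32BU
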