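import Mathlib
import Pool.Agent.H32BU.St

set_option autoImplicit false

namespace Pool.Agent.H32BU

namespace TSOLH

theorem NR_le {G : Type} [Group G] (A : Subgroup G) : NR A ≤ ⁅A, A⁆ := by
  unfold NR
  rw [Subgroup.closure_le]
  rintro g ⟨x, hx, y, hy, a, b, -, -, -, rfl⟩
  exact Subgroup.commutator_mem_commutator hx hy

theorem DD_le {G : Type} [Group G] (m : ℕ) : DD (⊤ : Subgroup G) m ≤ derivedSeries G m := by
  induction m with
  | zero => exact le_refl _
  | succ m ih =>
    rw [derivedSeries_succ]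
    exact le_trans (NR_le _) (Subgroup.commutator_mono ih ih)

end TSOLH

theorem t_SOLH : S_SOLH := by
  intro G _ _ hs
  obtain ⟨n, hn⟩ := hs.solvable
  exact ⟨n, le_bot_iff.mp (hn ▸ TSOLH.DD_le n)⟩

end Pool.Agent.H32BU
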