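import Mathlib
import Pool.Agent.H32BU.St

set_option autoImplicit false

namespace Pool.Agent.H32BU

namespace TSYL

theorem aux (H : Type) [Group H] [Finite H]
    (hc : ∀ (x y : H) (a b : ℕ), Nat.Coprime a b → x ^ a = 1 → y ^ b = 1 → x * y = y * x)
    (p : ℕ) (hp : p.Prime) :
    (∃ P : Subgroup H, ∀ x, x ∈ P ↔ ∃ k : ℕ, x ^ p ^ k = 1) ∧
    (∃ Q : Subgroup H, ∀ x, x ∈ Q ↔ ∃ k : ℕ, Nat.Coprime k p ∧ x ^ k = 1) := by
  have := Fact.mk hp
  obtain ⟨P⟩ : Nonempty (Sylow p H) := inferInstance
  have hPp : ∀ x ∈ P, ∃ k : ℕ, x ^ p ^ k = 1 := by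
    intro x hx
    obtain ⟨k, hk⟩ := P.isPGroup' ⟨x, hx⟩
    exact ⟨k, by simpa using congrArg Subtype.val hk⟩
  have hN : (P : Subgroup H).Normal := by
    have h1 : Nat.card H ∣ Nat.card (Subgroup.normalizer (P : Set H)) := by
      rw [Nat.dvd_iff_prime_pow_dvd_dvd]
      intro r k hr hrk
      by_cases hrp : r = p
      · subst hrp
        exact (P.pow_dvd_card_of_pow_dvd_card hrk).trans
          (Subgroup.card_dvd_of_le (Subgroup.le_normalizer (H := (P : Subgroup H))))
      · have := Fact.mk hr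
        obtain ⟨K, hK⟩ := Sylow.exists_subgroup_card_pow_prime r hrk
        rw [← hK]
        apply Subgroup.card_dvd_of_le
        intro g hg
        have hg1 : g ^ r ^ k = 1 := by
          have h2 : (⟨g, hg⟩ : K) ^ Nat.card K = 1 := pow_card_eq_one'
          rw [hK] at h2
          simpa using congrArg Subtype.val h2
        have hcom : ∀ x ∈ P, g * x * g⁻¹ = x := by
          intro x hx
          obtain ⟨j, hj⟩ := hPp x hx
          rw [hc g x _ _ (Nat.Coprime.pow k j ((Nat.coprime_primes hr hp).2 hrp)) hg1 hj]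
          group
        show g ∈ Subgroup.normalizer ((P : Subgroup H) : Set H)
        rw [Subgroup.mem_normalizer_iff]
        intro x
        constructor
        · intro hx
          have h3 := hcom x hx
          rw [h3]
          exact hx
        · intro hx
          have h3 := hcom _ hx
          have h4 : g * x * g⁻¹ = x := by
            have : g * (g * x * g⁻¹) * g⁻¹ = g * x * g⁻¹ := h3
            have h5 : g * x * g⁻¹ = x := by
              have h6 := mul_left_cancel (mul_right_cancel this)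
              exact h6
            exact h5
          rw [h4] at hx
          exact hx
    have h2 : Subgroup.normalizer (P : Set H) = ⊤ := by
      apply Subgroup.eq_top_of_card_eq
      exact Nat.dvd_antisymm (Subgroup.card_subgroup_dvd_card _) h1
    exact Subgroup.normalizer_eq_top_iff.1 h2
  refine ⟨⟨P, ?_⟩, ?_⟩
  · intro x
    constructor
    · exact hPp x
    · rintro ⟨k, hk⟩
      have h1 : IsPGroup p (Subgroup.zpowers x) := by
        rintro ⟨y, m, rfl⟩
        refine ⟨k, ?_⟩
        ext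
        simp only [SubmonoidClass.coe_pow, OneMemClass.coe_one]
        rw [← zpow_natCast, zpow_comm, zpow_natCast, hk, one_zpow]
      obtain ⟨Q, hQ⟩ := h1.exists_le_sylow
      have := Sylow.unique_of_normal P hN
      have h2 : Q = P := Subsingleton.elim _ _
      rw [h2] at hQ
      exact hQ (Subgroup.mem_zpowers x)
  · obtain ⟨K, hK⟩ := Subgroup.exists_right_complement'_of_coprime
      (N := (P : Subgroup H)) P.card_coprime_index
    have hKc : Nat.Coprime (Nat.card K) p := by
      have h1 : Nat.card K = (P : Subgroup H).index := hK.symm.index_eq_card.symm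
      rw [h1, Nat.coprime_comm, hp.coprime_iff_not_dvd]
      exact P.not_dvd_index
    have hKp : ∀ x ∈ K, x ^ Nat.card K = 1 := by
      intro x hx
      have h2 : (⟨x, hx⟩ : K) ^ Nat.card K = 1 := pow_card_eq_one'
      exact congrArg Subtype.val h2
    refine ⟨K, ?_⟩
    intro x
    constructor
    · intro hx
      exact ⟨_, hKc, hKp x hx⟩
    · rintro ⟨k, hk, hxk⟩
      obtain ⟨⟨⟨u, hu⟩, ⟨v, hv⟩⟩, huv⟩ := hK.surjective x
      simp only at huv
      obtain ⟨j, hj⟩ := hPp u hu
      have hcom : Commute u v :=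
        hc u v _ _ (Nat.Coprime.pow_left j hKc.symm) hj (hKp v hv)
      rw [← huv, hcom.mul_pow] at hxk
      have h1 : u ^ k ∈ K := by
        have : u ^ k = (v ^ k)⁻¹ := eq_inv_of_mul_eq_one_left hxk
        rw [this]
        exact K.inv_mem (K.pow_mem hv k)
      have h2 : u ^ k = 1 := by
        have h3 := hK.disjoint
        have h4 : u ^ k ∈ (P : Subgroup H) ⊓ K := ⟨(P : Subgroup H).pow_mem hu k, h1⟩
        rw [h3.eq_bot] at h4
        exact Subgroup.mem_bot.1 h4
      have h3 : u = 1 := by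
        rw [← orderOf_eq_one_iff]
        exact Nat.Coprime.eq_one_of_dvd (Nat.Coprime.coprime_dvd_left
          (orderOf_dvd_of_pow_eq_one h2) (Nat.Coprime.pow_right j hk))
          (orderOf_dvd_of_pow_eq_one hj)
      rw [← huv, h3, one_mul]
      exact hv

end TSYL

theorem t_SYL : S_SYL := by
  intro G _ A hA hNR p hp
  have hc : ∀ (x y : A) (a b : ℕ), Nat.Coprime a b → x ^ a = 1 → y ^ b = 1 → x * y = y * x := by
    intro x y a b hab hx hy
    have h1 : (x : G) * y * (x : G)⁻¹ * (y : G)⁻¹ ∈ NR A := by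
      apply Subgroup.subset_closure
      exact ⟨x, x.2, y, y.2, a, b, hab, by simpa using congrArg Subtype.val hx,
        by simpa using congrArg Subtype.val hy, rfl⟩
    rw [hNR, Subgroup.mem_bot] at h1
    ext
    show (x : G) * y = y * x
    calc (x : G) * y = ((x : G) * y * (x : G)⁻¹ * (y : G)⁻¹) * (y * x) := by group
      _ = y * x := by rw [h1, one_mul]
  obtain ⟨⟨P, hP⟩, ⟨Q, hQ⟩⟩ := TSYL.aux A hc p hp
  refine ⟨⟨P.map A.subtype, ?_⟩, ⟨Q.map A.subtype, ?_⟩⟩
  · intro x
    constructor
    · rintro ⟨y, hy, rfl⟩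
      obtain ⟨k, hk⟩ := (hP y).1 hy
      exact ⟨y.2, k, by simpa using congrArg Subtype.val hk⟩
    · rintro ⟨hx, k, hk⟩
      exact ⟨⟨x, hx⟩, (hP _).2 ⟨k, by ext; simpa using hk⟩, rfl⟩
  · intro x
    constructor
    · rintro ⟨y, hy, rfl⟩
      obtain ⟨k, hk, hk2⟩ := (hQ y).1 hy
      exact ⟨y.2, k, hk, by simpa using congrArg Subtype.val hk2⟩
    · rintro ⟨hx, k, hk, hk2⟩
      exact ⟨⟨x, hx⟩, (hQ _).2 ⟨k, hk, by ext; simpa using hk2⟩, rfl⟩

end Pool.Agent.H32BU
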