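import Mathlib
import Pool.Agent.H32BU.St

set_option autoImplicit false

namespace Pool.Agent.H32BU

theorem t_SZ : S_SZ := by
  intro F _ V B B' p hF hp hVn hV hVp hB hB' h1 h2
  have := Fact.mk hp
  let inst : CommGroup V :=
    { (inferInstance : Group V) with mul_comm := fun a b => Subtype.ext (hV a a.2 b b.2) }
  have hBV : ∀ g ∈ V, g ∈ B' → g = 1 := by
    intro g hg hg'
    obtain ⟨k, hk, hk1⟩ := hB' g hg'
    rw [← orderOf_eq_one_iff]
    exact Nat.Coprime.eq_one_of_dvd (Nat.Coprime.coprime_dvd_left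
      (orderOf_dvd_of_pow_eq_one hk1) hk) (orderOf_dvd_of_pow_eq_one (hVp g hg))
  have hcard : Nat.Coprime (Nat.card B) p := by
    rw [Nat.coprime_comm, hp.coprime_iff_not_dvd]
    intro hd
    obtain ⟨x, hx⟩ := exists_prime_orderOf_dvd_card' p hd
    obtain ⟨k, hk, hk1⟩ := hB x x.2
    have hx' : orderOf (x : F) = p := by rw [Subgroup.orderOf_coe, hx]
    have h3 : p ∣ k := by
      rw [← hx']
      exact orderOf_dvd_of_pow_eq_one hk1
    have h4 : p ∣ 1 := by
      rw [← Nat.Coprime.gcd_eq_one hk]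
      exact Nat.dvd_gcd h3 dvd_rfl
    exact hp.one_lt.ne' (Nat.dvd_one.1 h4)
  choose f hfV hfB using h1
  let v : B → V := fun b => ⟨f b b.2, hfV b b.2⟩
  let c : B → V →* V := fun b =>
    { toFun := fun u => ⟨(b : F)⁻¹ * u * b, by
        have := hVn.conj_mem u u.2 (b : F)⁻¹
        simpa using this⟩
      map_one' := by ext; simp
      map_mul' := fun x y => by
        ext
        show (b : F)⁻¹ * ((x : F) * y) * b = ((b : F)⁻¹ * x * b) * ((b : F)⁻¹ * y * b)
        group }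
  have hcoc : ∀ b1 b2 : B, v (b1 * b2) = c b2 (v b1) * v b2 := by
    intro b1 b2
    -- uniqueness
    have e1 : ((b1 * b2 : B) : F) * (v (b1 * b2) : F) ∈ B' := hfB _ _
    have e2 : (b1 : F) * (v b1 : F) ∈ B' := hfB _ _
    have e3 : (b2 : F) * (v b2 : F) ∈ B' := hfB _ _
    have e4 := B'.mul_mem (B'.inv_mem (B'.mul_mem e2 e3)) e1
    have e5 : (((b1 : F) * (v b1 : F)) * ((b2 : F) * (v b2 : F)))⁻¹ *
        (((b1 * b2 : B) : F) * (v (b1 * b2) : F)) =
        ((c b2 (v b1) * v b2 : V) : F)⁻¹ * (v (b1 * b2) : F) := by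
      show (((b1 : F) * (v b1 : F)) * ((b2 : F) * (v b2 : F)))⁻¹ *
        (((b1 : F) * (b2 : F)) * (v (b1 * b2) : F)) =
        (((b2 : F)⁻¹ * (v b1 : F) * (b2 : F)) * (v b2 : F))⁻¹ * (v (b1 * b2) : F)
      group
    rw [e5] at e4
    have e6 := hBV _ (V.mul_mem (V.inv_mem (c b2 (v b1) * v b2 : V).2) (v (b1 * b2)).2) e4
    apply Subtype.ext
    exact (inv_mul_eq_one.1 e6).symm
  have := Fintype.ofFinite B
  let w : V := ∏ b : B, v b
  have hw : ∀ b : B, w = c b w * v b ^ Nat.card B := by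
    intro b
    have e1 : ∏ x : B, v (x * b) = ∏ x : B, v x := Equiv.prod_comp (Equiv.mulRight b) v
    have e2 : ∏ x : B, v (x * b) = c b (∏ x : B, v x) * v b ^ Nat.card B := by
      rw [map_prod, Nat.card_eq_fintype_card]
      simp_rw [hcoc]
      rw [Finset.prod_mul_distrib]
      simp
    show ∏ x : B, v x = c b (∏ x : B, v x) * v b ^ Nat.card B
    rw [← e2, e1]
  obtain ⟨m, hm⟩ := Nat.exists_mul_mod_eq_one_of_coprime hcard hp.one_lt
  have hvp : ∀ x : V, x ^ (Nat.card B * m) = x := by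
    intro x
    have h3 : x ^ p = 1 := Subtype.ext (hVp x x.2)
    rw [← Nat.mod_add_div (Nat.card B * m) p, hm.2, pow_add, pow_mul, h3, one_pow, mul_one, pow_one]
  let u : V := w ^ m
  have hu : ∀ b : B, u = c b u * v b := by
    intro b
    have e1 : u = (c b w * v b ^ Nat.card B) ^ m := by
      show w ^ m = _
      rw [← hw b]
    rw [mul_pow, ← map_pow, ← pow_mul, hvp] at e1
    exact e1
  have hphi : ∀ b : B, (b : F) * (v b : F) = (u : F)⁻¹ * b * u := by
    intro b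
    have e1 : (u : F) = ((b : F)⁻¹ * (u : F) * b) * (v b : F) := congrArg Subtype.val (hu b)
    have e2 : (v b : F) = ((b : F)⁻¹ * (u : F) * b)⁻¹ * u := by
      nth_rewrite 2 [e1]
      group
    rw [e2]
    group
  refine ⟨u, u.2, ?_⟩
  intro g
  constructor
  · intro hg
    obtain ⟨t, ht, htB⟩ := h2 g hg
    -- `b = g * t`, and `b * v b ∈ B'`
    have e1 := hphi ⟨g * t, htB⟩
    have e2 : (g * t) * (v ⟨g * t, htB⟩ : F) ∈ B' := hfB _ _
    have e3 : t * (v ⟨g * t, htB⟩ : F) ∈ B' := by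
      have := B'.mul_mem (B'.inv_mem hg) e2
      simpa [mul_assoc] using this
    have e4 := hBV _ (V.mul_mem ht (v ⟨g * t, htB⟩).2) e3
    have e5 : g = (u : F)⁻¹ * (g * t) * u := by
      rw [← e1]
      show g = (g * t) * (v ⟨g * t, htB⟩ : F)
      rw [mul_assoc, e4, mul_one]
    have e6 : (u : F) * g * (u : F)⁻¹ = g * t := by
      nth_rewrite 1 [e5]
      group
    rw [e6]
    exact htB
  · intro hg
    have e1 := hphi ⟨_, hg⟩
    have e2 : ((u : F) * g * (u : F)⁻¹) * (v ⟨_, hg⟩ : F) ∈ B' := hfB _ _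
    have e3 : ((u : F) * g * (u : F)⁻¹) * (v ⟨_, hg⟩ : F) = g := by
      have : ((⟨(u : F) * g * (u : F)⁻¹, hg⟩ : B) : F) = (u : F) * g * (u : F)⁻¹ := rfl
      rw [this] at e1
      rw [e1]
      group
    rw [e3] at e2
    exact e2

end Pool.Agent.H32BU
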