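import Pool.Agent.H32BU.St

set_option autoImplicit false

/-!
# Task TRI: the trivial component of the complex group algebra
-/

namespace Pool.Agent.H32BU

namespace TTRI

/-- augmentation -/
noncomputable def eps (G : Type) [Group G] : MonoidAlgebra ℂ G →ₐ[ℂ] ℂ :=
  MonoidAlgebra.lift ℂ ℂ G (1 : G →* ℂ)

theorem eps_single {G : Type} [Group G] (g : G) : eps G (MonoidAlgebra.single g 1) = 1 := by
  simp [eps]

theorem fix_smul {G : Type} [Group G] {A : Type} [Ring A] [Algebra ℂ A]
    (f : MonoidAlgebra ℂ G →ₐ[ℂ] A) (x : A)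
    (h : ∀ g : G, f (MonoidAlgebra.single g 1) * x = x) (a : MonoidAlgebra ℂ G) :
    f a * x = eps G a • x := by
  induction a using MonoidAlgebra.induction_on with
  | of g =>
    have h1 : (MonoidAlgebra.of ℂ G g) = MonoidAlgebra.single g 1 := rfl
    rw [h1, h g, eps_single, one_smul]
  | add a b ha hb => rw [map_add, map_add, add_mul, ha, hb, add_smul]
  | smul r a ha => rw [map_smul, map_smul, smul_mul_assoc, ha, smul_smul, smul_eq_mul]

end TTRI

open TTRI in
theorem t_TRI : S_TRI := by
  intro G _ _ n d e hd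
  have := Fintype.ofFinite G
  set E : MonoidAlgebra ℂ G := ∑ g : G, MonoidAlgebra.single g 1 with hE
  have hgE : ∀ g : G, MonoidAlgebra.single g (1 : ℂ) * E = E := by
    intro g
    rw [hE, Finset.mul_sum]
    simp only [MonoidAlgebra.single_mul_single, mul_one]
    exact Fintype.sum_equiv (Equiv.mulLeft g) _ _ (fun x => rfl)
  have hE0 : E ≠ 0 := by
    intro h0
    have h1 : eps G E = (Fintype.card G : ℂ) := by
      rw [hE, map_sum]
      simp [eps_single]
    rw [h0, map_zero] at h1
    exact (Nat.cast_ne_zero.2 (Fintype.card_ne_zero (α := G))) h1.symm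
  set F := e E with hF
  have hF0 : F ≠ 0 := by
    intro h
    exact hE0 ((map_eq_zero_iff e e.injective).1 h)
  have hfix : ∀ g : G, e (MonoidAlgebra.single g 1) * F = F := by
    intro g
    rw [hF, ← map_mul, hgE]
  have hall : ∀ M : (i : Fin n) → Matrix (Fin (d i)) (Fin (d i)) ℂ,
      M * F = eps G (e.symm M) • F := by
    intro M
    have h1 := fix_smul (e : MonoidAlgebra ℂ G →ₐ[ℂ] _) F hfix (e.symm M)
    have h2 : (e : MonoidAlgebra ℂ G →ₐ[ℂ] _) (e.symm M) = M := e.apply_symm_apply M
    rw [h2] at h1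
    exact h1
  obtain ⟨i₀, hi₀⟩ : ∃ i, F i ≠ 0 := by
    by_contra hcon
    push Not at hcon
    exact hF0 (funext hcon)
  obtain ⟨r, s, hrs⟩ : ∃ r s, F i₀ r s ≠ 0 := by
    by_contra hcon
    push Not at hcon
    exact hi₀ (Matrix.ext hcon)
  have hsub : ∀ r' : Fin (d i₀), r' = r := by
    intro r'
    by_contra hne
    have h1 := hall (Pi.single i₀ (Matrix.single r' r 1))
    set c := eps G (e.symm (Pi.single i₀ (Matrix.single r' r 1))) with hc
    have h2 := congrFun h1 i₀
    rw [Pi.mul_apply, Pi.single_eq_same, Pi.smul_apply] at h2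
    have h3 := congrFun (congrFun h2 r) s
    have h4 := congrFun (congrFun h2 r') s
    rw [Matrix.single_mul_apply_of_ne (h := by exact fun h => hne h.symm)] at h3
    rw [Matrix.single_mul_apply_same, one_mul] at h4
    rw [Matrix.smul_apply, smul_eq_mul] at h3 h4
    have hc0 : c = 0 := by
      rcases mul_eq_zero.1 h3.symm with h | h
      · exact h
      · exact absurd h hrs
    rw [hc0, zero_mul] at h4
    exact hrs h4
  have hd1 : d i₀ = 1 := by
    by_contra hne
    have h2 : 2 ≤ d i₀ := by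
      have := hd i₀
      omega
    have h3 := hsub ⟨0, by omega⟩
    have h4 := hsub ⟨1, by omega⟩
    have h5 := h3.trans h4.symm
    simp at h5
  have hone : ∀ g, e (MonoidAlgebra.single g 1) i₀ = 1 := by
    intro g
    have h1 := congrFun (congrFun (congrFun (hfix g) i₀) r) s
    rw [Pi.mul_apply, Matrix.mul_apply] at h1
    have h2 : (∑ j, e (MonoidAlgebra.single g 1) i₀ r j * F i₀ j s) =
        e (MonoidAlgebra.single g 1) i₀ r r * F i₀ r s := by
      apply Finset.sum_eq_single
      · intro b _ hb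
        exact absurd (hsub b) hb
      · intro h
        exact absurd (Finset.mem_univ r) h
    rw [h2] at h1
    have h3 : e (MonoidAlgebra.single g 1) i₀ r r = 1 := by
      have h4 : (e (MonoidAlgebra.single g 1) i₀ r r - 1) * F i₀ r s = 0 := by
        rw [sub_mul, h1, one_mul, sub_self]
      rcases mul_eq_zero.1 h4 with h | h
      · exact sub_eq_zero.1 h
      · exact absurd h hrs
    ext a b
    rw [hsub a, hsub b, h3, Matrix.one_apply_eq]
  refine ⟨i₀, hd1, hone, ?_⟩
  intro i hi
  by_contra hne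
  have hgen : ∀ k : Fin n, (∀ g, e (MonoidAlgebra.single g 1) k = 1) →
      ∀ a : MonoidAlgebra ℂ G, e a k = eps G a • (1 : Matrix (Fin (d k)) (Fin (d k)) ℂ) := by
    intro k hk a
    have h1 := fix_smul ((Pi.evalAlgHom ℂ (fun i => Matrix (Fin (d i)) (Fin (d i)) ℂ) k).comp
      (e : MonoidAlgebra ℂ G →ₐ[ℂ] _)) (1 : Matrix (Fin (d k)) (Fin (d k)) ℂ) (by
        intro g
        rw [mul_one]
        exact hk g) a
    rw [mul_one] at h1
    exact h1
  set a := e.symm (Pi.single i 1) with ha
  have hea : e a = Pi.single i 1 := by rw [ha, e.apply_symm_apply]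
  have h1 := hgen i hi a
  have h2 := hgen i₀ hone a
  rw [hea, Pi.single_eq_same] at h1
  rw [hea, Pi.single_eq_of_ne (fun h => hne h.symm)] at h2
  have h3 := congrFun (congrFun h1 ⟨0, hd i⟩) ⟨0, hd i⟩
  have h4 := congrFun (congrFun h2 ⟨0, hd i₀⟩) ⟨0, hd i₀⟩
  rw [Matrix.smul_apply, Matrix.one_apply_eq, smul_eq_mul, mul_one] at h3 h4
  rw [← h3] at h4
  exact zero_ne_one h4

end Pool.Agent.H32BU
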