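import Pool.Agent.H32BU.St

set_option autoImplicit false

/-!
Task TRZ: the character of the regular representation.
-/

namespace Pool.Agent.H32BU

namespace TTRZ

/-- the trace of left multiplication by a group element different from `1` vanishes -/
theorem trace_group (G : Type) [Group G] [Finite G] (g : G) (hg : g ≠ 1) :
    LinearMap.trace ℂ (MonoidAlgebra ℂ G)
      (LinearMap.mulLeft ℂ (MonoidAlgebra.single g 1 : MonoidAlgebra ℂ G)) = 0 := by
  classical
  haveI : Fintype G := Fintype.ofFinite G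
  rw [LinearMap.trace_eq_matrix_trace ℂ (MonoidAlgebra.basis G ℂ)]
  refine Finset.sum_eq_zero fun h _ => ?_
  rw [Matrix.diag_apply, LinearMap.toMatrix_apply, MonoidAlgebra.basis_apply,
    LinearMap.mulLeft_apply, MonoidAlgebra.single_mul_single]
  show ((MonoidAlgebra.single (g * h) (1 * 1) : MonoidAlgebra ℂ G).coeff) h = 0
  rw [MonoidAlgebra.coeff_single, Finsupp.single_apply, if_neg]
  intro h1
  exact hg (by simpa using h1)

variable {n : ℕ} {d : Fin n → ℕ}

/-- coordinates of a family of matrices -/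
def crd (n : ℕ) (d : Fin n → ℕ) : ((i : Fin n) → Matrix (Fin (d i)) (Fin (d i)) ℂ) ≃ₗ[ℂ]
    ((Σ i : Fin n, Fin (d i) × Fin (d i)) → ℂ) where
  toFun A := fun x => A x.1 x.2.1 x.2.2
  invFun f := fun i => Matrix.of fun a b => f ⟨i, (a, b)⟩
  map_add' _ _ := rfl
  map_smul' _ _ := rfl
  left_inv _ := rfl
  right_inv _ := rfl

/-- the trace of left multiplication by a family of matrices -/
theorem trace_mat (A : (i : Fin n) → Matrix (Fin (d i)) (Fin (d i)) ℂ) :
    LinearMap.trace ℂ ((i : Fin n) → Matrix (Fin (d i)) (Fin (d i)) ℂ) (LinearMap.mulLeft ℂ A) =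
      ∑ i, (d i : ℂ) * Matrix.trace (A i) := by
  classical
  rw [LinearMap.trace_eq_matrix_trace ℂ (Module.Basis.ofEquivFun (crd n d))]
  rw [Matrix.trace]
  rw [Fintype.sum_sigma]
  refine Finset.sum_congr rfl fun i _ => ?_
  rw [Fintype.sum_prod_type]
  have h1 : ∀ a b : Fin (d i), Matrix.diag (LinearMap.toMatrix
      (Module.Basis.ofEquivFun (crd n d)) (Module.Basis.ofEquivFun (crd n d))
      (LinearMap.mulLeft ℂ A)) ⟨i, (a, b)⟩ = A i a a := by
    intro a b
    rw [Matrix.diag_apply, LinearMap.toMatrix_apply, Module.Basis.ofEquivFun_repr_apply,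
      Module.Basis.coe_ofEquivFun, LinearMap.mulLeft_apply]
    show (A * (crd n d).symm (Pi.single (⟨i, (a, b)⟩ : Σ i : Fin n, Fin (d i) × Fin (d i)) 1)) i
      a b = A i a a
    rw [Pi.mul_apply, Matrix.mul_apply]
    rw [Finset.sum_eq_single a]
    · have h2 : (crd n d).symm (Pi.single (⟨i, (a, b)⟩ : Σ i : Fin n, Fin (d i) × Fin (d i)) 1)
          i a b = 1 := by
        show (Pi.single (⟨i, (a, b)⟩ : Σ i : Fin n, Fin (d i) × Fin (d i)) (1 : ℂ) :
          (Σ i : Fin n, Fin (d i) × Fin (d i)) → ℂ) ⟨i, (a, b)⟩ = 1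
        rw [Pi.single_eq_same]
      rw [h2, mul_one]
    · intro c _ hc
      have h2 : (crd n d).symm (Pi.single (⟨i, (a, b)⟩ : Σ i : Fin n, Fin (d i) × Fin (d i)) 1)
          i c b = 0 := by
        show (Pi.single (⟨i, (a, b)⟩ : Σ i : Fin n, Fin (d i) × Fin (d i)) (1 : ℂ) :
          (Σ i : Fin n, Fin (d i) × Fin (d i)) → ℂ) ⟨i, (c, b)⟩ = 0
        rw [Pi.single_eq_of_ne]
        intro h
        simp only [Sigma.mk.injEq, heq_eq_eq, Prod.mk.injEq, true_and, and_true] at h
        exact hc h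
      rw [h2, mul_zero]
    · intro h
      exact absurd (Finset.mem_univ _) h
  calc ∑ a, ∑ b, Matrix.diag (LinearMap.toMatrix
      (Module.Basis.ofEquivFun (crd n d)) (Module.Basis.ofEquivFun (crd n d))
      (LinearMap.mulLeft ℂ A)) ⟨i, (a, b)⟩ = ∑ a : Fin (d i), ∑ _b : Fin (d i), A i a a :=
        Finset.sum_congr rfl fun a _ => Finset.sum_congr rfl fun b _ => h1 a b
    _ = ∑ a : Fin (d i), (d i : ℂ) * A i a a := by
        refine Finset.sum_congr rfl fun a _ => ?_
        rw [Finset.sum_const, Finset.card_univ, Fintype.card_fin, nsmul_eq_mul]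
    _ = (d i : ℂ) * Matrix.trace (A i) := by
        rw [← Finset.mul_sum]
        rfl

end TTRZ

open TTRZ in
theorem t_TRZ : S_TRZ := by
  intro G _ _ n d e g hg
  rw [← trace_mat, ← trace_group G g hg]
  have h1 := LinearMap.trace_conj'
    (LinearMap.mulLeft ℂ (MonoidAlgebra.single g 1 : MonoidAlgebra ℂ G)) e.toLinearEquiv
  rw [← h1]
  congr 1
  refine LinearMap.ext fun x => ?_
  rw [LinearEquiv.conj_apply, LinearMap.mulLeft_apply]
  show _ = e ((MonoidAlgebra.single g 1 : MonoidAlgebra ℂ G) * e.symm x)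
  rw [map_mul]
  show _ = e (MonoidAlgebra.single g 1) * e (e.symm x)
  rw [AlgEquiv.apply_symm_apply]

end Pool.Agent.H32BU
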