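import Pool.Agent.H32BU.St

set_option autoImplicit false

/-!
# Task TWO: the height is detected on two-generator subgroups
-/

namespace Pool.Agent.H32BU

namespace TTWO

theorem c2_map {G H : Type} [Group G] [Group H] (f : G →* H) (a x : G) :
    (c2 a x).map f = c2 (f a) (f x) := by
  unfold c2
  rw [MonoidHom.map_closure, Set.image_pair]

theorem DD_le {G : Type} [Group G] (hM : S_MON) (A : Subgroup G) (m : ℕ) : DD A m ≤ A := by
  induction m with
  | zero => exact le_rfl
  | succ m ih => exact ((hM G).2.1 A m).trans ih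

theorem main (hA : S_TWOA) (hB : S_TWOB) (hP : S_PAIR) (hI : S_MAPI) (hS : S_MAPS)
    (hM : S_MON) (N : ℕ) : ∀ (F : Type) [Group F], Finite F → Group.IsSolvable F →
    Nat.card F = N → ∀ m : ℕ, (∀ a x : F, DD (c2 a x) m = ⊥) → DD (⊤ : Subgroup F) m = ⊥ := by
  induction N using Nat.strong_induction_on with
  | _ N ih =>
  intro F _ hfin hsol hN m hm
  cases m with
  | zero =>
    rw [eq_bot_iff]
    intro a _
    have h1 : a ∈ c2 a a := Subgroup.subset_closure (by simp)
    have h2 : DD (c2 a a) 0 = c2 a a := rfl
    rw [← h2, hm a a] at h1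
    exact h1
  | succ m =>
    by_contra hne
    have hK : ∀ K : Subgroup F, K.Normal → K ≠ ⊥ → DD (⊤ : Subgroup F) (m + 1) ≤ K := by
      intro K hKn hK0
      have := hKn
      have hcard : Nat.card (F ⧸ K) < N := by
        have h1 := Subgroup.card_eq_card_quotient_mul_card_subgroup K
        have h2 : 1 < Nat.card K := by
          rw [Subgroup.one_lt_card_iff_ne_bot]
          exact hK0
        have h3 : 0 < Nat.card (F ⧸ K) := Nat.card_pos
        rw [hN] at h1
        rw [h1]
        nlinarith
      have htor : ∀ x : F, IsOfFinOrder x := fun x => isOfFinOrder_of_finite x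
      have h4 := ih _ hcard (F ⧸ K) inferInstance inferInstance rfl (m + 1) (by
        intro a' x'
        obtain ⟨a, rfl⟩ := QuotientGroup.mk'_surjective K a'
        obtain ⟨x, rfl⟩ := QuotientGroup.mk'_surjective K x'
        rw [← c2_map, ← hS F (F ⧸ K) (QuotientGroup.mk' K) htor (c2 a x) (m + 1), hm a x,
          Subgroup.map_bot])
      have h5 := hS F (F ⧸ K) (QuotientGroup.mk' K) htor ⊤ (m + 1)
      rw [Subgroup.map_top_of_surjective _ (QuotientGroup.mk'_surjective K), h4,
        Subgroup.map_eq_bot_iff, QuotientGroup.ker_mk'] at h5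
      exact h5
    obtain ⟨p, S, hp, hcomm, hexp, hStop, hsup, hfaith⟩ := hA F hfin hsol m hne hK
    have hScard : Nat.card S < N := by
      rw [← hN]
      refine lt_of_le_of_ne (Subgroup.card_le_card_group S) fun h => hStop ?_
      exact Subgroup.eq_top_of_card_eq S h
    have hinj : Function.Injective S.subtype := S.subtype_injective
    have hpush : ∀ (A : Subgroup S) (k : ℕ), DD (A.map S.subtype) k = ⊥ ↔ DD A k = ⊥ := by
      intro A k
      rw [← hI S F S.subtype hinj A k]
      exact Subgroup.map_eq_bot_iff_of_injective _ hinj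
    have htop : (⊤ : Subgroup S).map S.subtype = S := by
      rw [← MonoidHom.range_eq_map, Subgroup.range_subtype]
    have hDS : DD S (m + 1) = ⊥ := by
      have h1 := ih _ hScard S inferInstance inferInstance rfl (m + 1) (by
        intro a x
        rw [← hpush, c2_map]
        exact hm _ _)
      rw [← hpush, htop] at h1
      exact h1
    obtain ⟨hSm, hcop⟩ := hB F m p S hfin hp hne hK hcomm hexp hsup hfaith hDS
    have hex : ∃ a x : S, DD (c2 a x) m ≠ ⊥ := by
      by_contra hcon
      push Not at hcon
      apply hSm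
      have h1 := ih _ hScard S inferInstance inferInstance rfl m hcon
      rw [← hpush, htop] at h1
      exact h1
    obtain ⟨a, x, hax⟩ := hex
    apply hax
    rw [← hpush, c2_map]
    have hle : DD (c2 (S.subtype a) (S.subtype x)) m ≤ DD S m := by
      apply (hM F).1
      unfold c2
      rw [Subgroup.closure_le]
      rintro y hy
      rcases hy with rfl | hy
      · exact a.2
      · rw [Set.mem_singleton_iff] at hy
        subst hy
        exact x.2
    refine hP F (DD ⊤ (m + 1)) p m _ _ hfin hp
      ((hM F).2.2.2.1 ⊤ inferInstance (m + 1)) hcomm hexp (fun b hb => hcop b (hle hb))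
      (fun b hb hv => hfaith b (DD_le hM S m (hle hb)) hv) hm

end TTWO

theorem t_TWO (h1 : S_TWOA) (h2 : S_TWOB) (h3 : S_PAIR) (h4 : S_MAPI) (h5 : S_MAPS)
    (h6 : S_MON) : S_TWO := by
  intro F _ hfin hsol m hm
  exact TTWO.main h1 h2 h3 h4 h5 h6 _ F hfin hsol rfl m hm

end Pool.Agent.H32BU
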