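import Pool.Agent.H32BU.St

set_option autoImplicit false

/-! Task TWOA: structure of a minimal counterexample, first part. -/

namespace Pool.Agent.H32BU

namespace TTWOA

variable {F : Type} [Group F]

theorem comm_of_min (hF : Group.IsSolvable F) (V : Subgroup F) (hVn : V.Normal) (hV : V ≠ ⊥)
    (hmin : ∀ K : Subgroup F, K.Normal → K ≠ ⊥ → V ≤ K) :
    ∀ v ∈ V, ∀ w ∈ V, v * w = w * v := by
  by_cases h : ⁅V, V⁆ = ⊥
  · rw [Subgroup.commutator_eq_bot_iff_le_centralizer] at h
    intro v hv w hw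
    exact (Subgroup.mem_centralizer_iff.1 (h hv) w hw).symm
  · exfalso
    have h1 : V ≤ ⁅V, V⁆ := hmin _ inferInstance h
    have h2 : ∀ k, V ≤ derivedSeries F k := by
      intro k
      induction k with
      | zero => exact le_top
      | succ k ih =>
        rw [derivedSeries_succ]
        exact le_trans h1 (Subgroup.commutator_mono ih ih)
    obtain ⟨k, hk⟩ := hF.solvable
    exact hV (le_bot_iff.1 (hk ▸ h2 k))

theorem exp_of_min [Finite F] (V : Subgroup F) (hVn : V.Normal) (hV : V ≠ ⊥)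
    (hab : ∀ v ∈ V, ∀ w ∈ V, v * w = w * v)
    (hmin : ∀ K : Subgroup F, K.Normal → K ≠ ⊥ → V ≤ K) :
    ∃ p : ℕ, p.Prime ∧ ∀ v ∈ V, v ^ p = 1 := by
  have hc : Nat.card V ≠ 1 := by
    intro h
    exact hV (Subgroup.card_eq_one.1 h)
  obtain ⟨p, hp, hpd⟩ := Nat.exists_prime_and_dvd hc
  haveI : Fact p.Prime := ⟨hp⟩
  obtain ⟨x, hx⟩ := exists_prime_orderOf_dvd_card' p hpd
  let W : Subgroup F :=
    { carrier := {v | v ∈ V ∧ v ^ p = 1}
      one_mem' := ⟨V.one_mem, one_pow p⟩
      mul_mem' := by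
        rintro a b ⟨ha, ha'⟩ ⟨hb, hb'⟩
        refine ⟨V.mul_mem ha hb, ?_⟩
        have : Commute a b := hab a ha b hb
        rw [this.mul_pow, ha', hb', one_mul]
      inv_mem' := by
        rintro a ⟨ha, ha'⟩
        refine ⟨V.inv_mem ha, ?_⟩
        rw [inv_pow, ha', inv_one] }
  have hW : W.Normal := by
    constructor
    rintro n ⟨hn, hn'⟩ g
    refine ⟨hVn.conj_mem n hn g, ?_⟩
    rw [conj_pow, hn']
    simp
  have hxW : (x : F) ∈ W := by
    refine ⟨x.2, ?_⟩
    have : x ^ p = 1 := by rw [← hx]; exact pow_orderOf_eq_one x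
    have h2 := congrArg (Subgroup.subtype V) this
    simpa using h2
  have hWb : W ≠ ⊥ := by
    intro h
    rw [h, Subgroup.mem_bot] at hxW
    have h1 : x = 1 := Subtype.ext hxW
    rw [h1, orderOf_one] at hx
    exact hp.one_lt.ne hx
  exact ⟨p, hp, fun v hv => (hmin W hW hWb hv).2⟩

/-- decomposition into elements of prime power order -/
theorem decomp (H : Subgroup F) (n : ℕ) : 0 < n → ∀ x : F, x ^ n = 1 →
    (∀ z ∈ Subgroup.zpowers x, ∀ q k : ℕ, q.Prime → z ^ q ^ k = 1 → z ∈ H) → x ∈ H := by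
  induction n using Nat.recOnPosPrimePosCoprime with
  | prime_pow p k hp hk =>
    intro _ x hx h
    exact h x (Subgroup.mem_zpowers x) p k hp hx
  | zero => intro h; exact absurd h (lt_irrefl 0)
  | one =>
    intro _ x hx _
    rw [pow_one] at hx
    rw [hx]
    exact H.one_mem
  | coprime a b ha hb hab iha ihb =>
    intro _ x hx h
    have h1 : x ^ a ∈ H := by
      apply ihb (by omega)
      · rw [← pow_mul, hx]
      · intro z hz q k hq hzk
        refine h z ?_ q k hq hzk
        have : Subgroup.zpowers (x ^ a) ≤ Subgroup.zpowers x := by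
          rw [Subgroup.zpowers_le]
          exact Subgroup.npow_mem_zpowers x a
        exact this hz
    have h2 : x ^ b ∈ H := by
      apply iha (by omega)
      · rw [← pow_mul, mul_comm, hx]
      · intro z hz q k hq hzk
        refine h z ?_ q k hq hzk
        have : Subgroup.zpowers (x ^ b) ≤ Subgroup.zpowers x := by
          rw [Subgroup.zpowers_le]
          exact Subgroup.npow_mem_zpowers x b
        exact this hz
    have h3 := Nat.gcd_eq_gcd_ab a b
    rw [Nat.Coprime.gcd_eq_one hab] at h3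
    have h4 : x = (x ^ a) ^ (Nat.gcdA a b) * (x ^ b) ^ (Nat.gcdB a b) := by
      rw [← zpow_natCast, ← zpow_natCast, ← zpow_mul, ← zpow_mul, ← zpow_add, ← h3]
      simp
    rw [h4]
    exact H.mul_mem (H.zpow_mem h1 _) (H.zpow_mem h2 _)

theorem eq_one_of_coprime (z : F) (a b : ℕ) (h : Nat.Coprime a b) (ha : z ^ a = 1)
    (hb : z ^ b = 1) : z = 1 := by
  have := pow_gcd_eq_one.2 ⟨ha, hb⟩
  rwa [Nat.Coprime.gcd_eq_one h, pow_one] at this

theorem comm_all (A : Subgroup F) (R : ℕ → Subgroup F) (hn : ∀ r, r.Prime → (R r).Normal)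
    (hr : ∀ r, r.Prime → ∀ x ∈ R r, ∃ k : ℕ, x ^ r ^ k = 1)
    (hA : ∀ r, r.Prime → ∀ x ∈ A, ∀ k : ℕ, x ^ r ^ k = 1 → x ∈ R r)
    (x y : F) (hx : x ∈ A) (hy : y ∈ A) (a b : ℕ) (hab : Nat.Coprime a b) (hxa : x ^ a = 1)
    (hyb : y ^ b = 1) : x * y = y * x := by
  rcases Nat.eq_zero_or_pos a with rfl | ha
  · have : b = 1 := by simpa using hab
    rw [this, pow_one] at hyb
    rw [hyb]; simp
  rcases Nat.eq_zero_or_pos b with rfl | hb
  · have : a = 1 := by simpa using hab
    rw [this, pow_one] at hxa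
    rw [hxa]; simp
  have pair : ∀ q r : ℕ, q.Prime → r.Prime → q ≠ r → ∀ u ∈ R q, ∀ v ∈ R r, u * v = v * u := by
    intro q r hq hr' hqr u hu v hv
    have h1 : u * v * u⁻¹ * v⁻¹ ∈ R q := by
      have : u * v * u⁻¹ * v⁻¹ = u * (v * u⁻¹ * v⁻¹) := by group
      rw [this]
      exact (R q).mul_mem hu ((hn q hq).conj_mem _ ((R q).inv_mem hu) v)
    have h2 : u * v * u⁻¹ * v⁻¹ ∈ R r :=
      (R r).mul_mem ((hn r hr').conj_mem _ hv u) ((R r).inv_mem hv)
    obtain ⟨k, hk⟩ := hr q hq _ h1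
    obtain ⟨j, hj⟩ := hr r hr' _ h2
    have h3 := eq_one_of_coprime _ _ _ (Nat.Coprime.pow k j ((Nat.coprime_primes hq hr').2 hqr))
      hk hj
    have h4 : u * v = (u * v * u⁻¹ * v⁻¹) * (v * u) := by group
    rw [h4, h3, one_mul]
  -- first step
  have st1 : ∀ r : ℕ, r.Prime → Nat.Coprime a r → ∀ v ∈ A, ∀ j : ℕ, v ^ r ^ j = 1 →
      x * v = v * x := by
    intro r hrp har v hv j hj
    have h1 : x ∈ Subgroup.centralizer {v} := by
      apply decomp _ a ha x hxa
      intro z hz q k hq hzk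
      rw [Subgroup.mem_centralizer_singleton_iff]
      have hzA : z ∈ A := by
        have : Subgroup.zpowers x ≤ A := by rwa [Subgroup.zpowers_le]
        exact this hz
      by_cases hqr : q = r
      · have hza : z ^ a = 1 := by
          obtain ⟨i, rfl⟩ := Subgroup.mem_zpowers_iff.1 hz
          rw [← zpow_natCast, ← zpow_mul, mul_comm, zpow_mul, zpow_natCast, hxa, one_zpow]
        rw [hqr] at hzk
        have := eq_one_of_coprime z _ _ (Nat.Coprime.pow_right k har) hza hzk
        rw [this]; simp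
      · exact pair q r hq hrp hqr z (hA q hq z hzA k hzk) v (hA r hrp v hv j hj)
    rw [Subgroup.mem_centralizer_singleton_iff] at h1
    exact h1
  have h1 : y ∈ Subgroup.centralizer {x} := by
    apply decomp _ b hb y hyb
    intro z hz r k hrp hzk
    rw [Subgroup.mem_centralizer_singleton_iff]
    have hzA : z ∈ A := by
      have : Subgroup.zpowers y ≤ A := by rwa [Subgroup.zpowers_le]
      exact this hz
    by_cases har : Nat.Coprime a r
    · exact (st1 r hrp har z hzA k hzk).symm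
    · have hra : r ∣ a := by
        by_contra h
        exact har ((Nat.Prime.coprime_iff_not_dvd hrp).2 h).symm
      have hbr : Nat.Coprime b r := (Nat.Coprime.coprime_dvd_left hra hab).symm
      have hzb : z ^ b = 1 := by
        obtain ⟨i, rfl⟩ := Subgroup.mem_zpowers_iff.1 hz
        rw [← zpow_natCast, ← zpow_mul, mul_comm, zpow_mul, zpow_natCast, hyb, one_zpow]
      have := eq_one_of_coprime z _ _ (Nat.Coprime.pow_right k hbr) hzb hzk
      rw [this]; simp
  rw [Subgroup.mem_centralizer_singleton_iff] at h1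
  exact h1.symm

theorem sylow_part [Finite F] (A V : Subgroup F) (hAn : A.Normal) (hVn : V.Normal) (r : ℕ)
    [Fact r.Prime] (Rb : Subgroup (F ⧸ V))
    (hR : ∀ x, x ∈ Rb ↔ x ∈ A.map (QuotientGroup.mk' V) ∧ ∃ k : ℕ, x ^ r ^ k = 1) :
    ∃ R : Subgroup F, (∀ x ∈ R, ∃ k : ℕ, x ^ r ^ k = 1) ∧
      V ⊔ Subgroup.normalizer (R : Set F) = ⊤ ∧
      (R.Normal → ∀ x ∈ A, ∀ k : ℕ, x ^ r ^ k = 1 → x ∈ R) := by
  set M : Subgroup F := Rb.comap (QuotientGroup.mk' V) with hM
  have hAm : (A.map (QuotientGroup.mk' V)).Normal :=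
    hAn.map _ (QuotientGroup.mk'_surjective V)
  have hRn : Rb.Normal := by
    constructor
    intro n hn g
    obtain ⟨h1, k, hk⟩ := (hR n).1 hn
    exact (hR _).2 ⟨hAm.conj_mem n h1 g, k, by rw [conj_pow, hk]; simp⟩
  have hMn : M.Normal := hRn.comap _
  let P : Sylow r M := default
  refine ⟨(P : Subgroup M).map M.subtype, ?_, ?_, ?_⟩
  · rintro _ ⟨y, hy, rfl⟩
    obtain ⟨k, hk⟩ := P.isPGroup' ⟨y, hy⟩
    refine ⟨k, ?_⟩
    have h1 := congrArg (fun z : P => ((z : M) : F)) hk
    simpa using h1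
  · have h1 := P.normalizer_sup_eq_top
    rw [eq_top_iff, ← h1]
    apply sup_le le_sup_right
    have h2 : M ≤ V ⊔ (P : Subgroup M).map M.subtype := by
      rw [← Subgroup.relIndex_eq_one]
      have d1 : (V ⊔ (P : Subgroup M).map M.subtype).relIndex M ∣
          ((P : Subgroup M).map M.subtype).relIndex M :=
        Subgroup.relIndex_dvd_of_le_left M le_sup_right
      have d2 : (V ⊔ (P : Subgroup M).map M.subtype).relIndex M ∣ V.relIndex M :=
        Subgroup.relIndex_dvd_of_le_left M le_sup_left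
      have e1 : ((P : Subgroup M).map M.subtype).relIndex M = (P : Subgroup M).index := by
        unfold Subgroup.relIndex Subgroup.subgroupOf
        rw [Subgroup.comap_map_eq_self_of_injective (Subgroup.subtype_injective M)]
      have e2 : ¬ r ∣ (P : Subgroup M).index := P.not_dvd_index
      have hpg : IsPGroup r (M ⧸ V.subgroupOf M) := by
        intro z
        obtain ⟨x, rfl⟩ := QuotientGroup.mk_surjective z
        have hx : QuotientGroup.mk' V (x : F) ∈ Rb := x.2
        obtain ⟨_, k, hk⟩ := (hR _).1 hx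
        refine ⟨k, ?_⟩
        rw [← map_pow, QuotientGroup.mk'_apply, QuotientGroup.eq_one_iff] at hk
        rw [← QuotientGroup.mk_pow, QuotientGroup.eq_one_iff, Subgroup.mem_subgroupOf]
        exact hk
      obtain ⟨k, hk⟩ := IsPGroup.iff_card.1 hpg
      have e3 : V.relIndex M = r ^ k := hk
      rw [e3] at d2
      rw [e1] at d1
      obtain ⟨j, _, hj⟩ := (Nat.dvd_prime_pow (Fact.out : r.Prime)).1 d2
      rcases Nat.eq_zero_or_pos j with rfl | hj0
      · rw [hj, pow_zero]
      · exfalso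
        apply e2
        refine dvd_trans ?_ d1
        rw [hj]
        exact dvd_pow_self r (by omega)
    refine le_trans h2 (sup_le le_sup_left ?_)
    exact le_trans Subgroup.le_normalizer le_sup_right
  · intro hN x hx k hk
    have hxM : x ∈ M := by
      show QuotientGroup.mk' V x ∈ Rb
      exact (hR _).2 ⟨⟨x, hx, rfl⟩, k, by rw [← map_pow, hk, map_one]⟩
    have hPn : (P : Subgroup M).Normal := by
      constructor
      intro n hn g
      have h1 := hN.conj_mem (n : F) ⟨n, hn, rfl⟩ (g : F)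
      obtain ⟨y, hy, hy'⟩ := h1
      have : y = g * n * g⁻¹ := Subtype.ext hy'
      rw [← this]
      exact hy
    letI := Sylow.unique_of_normal P hPn
    have hz : IsPGroup r (Subgroup.zpowers (⟨x, hxM⟩ : M)) := by
      rintro ⟨z, hz⟩
      refine ⟨k, ?_⟩
      obtain ⟨i, rfl⟩ := Subgroup.mem_zpowers_iff.1 hz
      apply Subtype.ext
      apply Subtype.ext
      show ((⟨x, hxM⟩ : M) ^ i : M).1 ^ r ^ k = 1
      rw [Subgroup.coe_zpow, ← zpow_natCast, ← zpow_mul, mul_comm, zpow_mul, zpow_natCast]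
      simp only
      rw [hk, one_zpow]
    obtain ⟨Q, hQ⟩ := hz.exists_le_sylow
    have hQP : Q = P := Subsingleton.elim _ _
    refine ⟨⟨x, hxM⟩, ?_, rfl⟩
    rw [← hQP]
    exact hQ (Subgroup.mem_zpowers _)

end TTWOA

open TTWOA in
theorem t_TWOA (h1 : S_MON) (h2 : S_MAPS) (h3 : S_SYL) : S_TWOA := by
  intro F _ hFf hFs m hV hmin
  have hmn := (h1 F).2.2.2.1 ⊤ inferInstance
  set A : Subgroup F := DD ⊤ m with hAdef
  set V : Subgroup F := DD ⊤ (m + 1) with hVdef
  have hVA : V = NR A := rfl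
  have hAn : A.Normal := hmn m
  have hVn : V.Normal := hmn (m + 1)
  have hab := comm_of_min hFs V hVn hV hmin
  obtain ⟨p, hp, hexp⟩ := exp_of_min V hVn hV hab hmin
  have hNRb : NR (A.map (QuotientGroup.mk' V)) = ⊥ := by
    have h4 := h2 F (F ⧸ V) (QuotientGroup.mk' V) (fun x => isOfFinOrder_of_finite x) A 1
    have h5 : DD (A.map (QuotientGroup.mk' V)) 1 = NR (A.map (QuotientGroup.mk' V)) := rfl
    have h6 : DD A 1 = V := rfl
    rw [← h5, ← h4, h6]
    rw [Subgroup.map_eq_bot_iff, QuotientGroup.ker_mk']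
  have key : ∀ r : ℕ, ∃ R : Subgroup F, r.Prime → (∀ x ∈ R, ∃ k : ℕ, x ^ r ^ k = 1) ∧
      V ⊔ Subgroup.normalizer (R : Set F) = ⊤ ∧
      (R.Normal → ∀ x ∈ A, ∀ k : ℕ, x ^ r ^ k = 1 → x ∈ R) := by
    intro r
    by_cases hr : r.Prime
    · haveI : Fact r.Prime := ⟨hr⟩
      obtain ⟨⟨Rb, hRb⟩, _⟩ := h3 (F ⧸ V) (A.map (QuotientGroup.mk' V)) inferInstance hNRb r hr
      obtain ⟨R, hR⟩ := sylow_part A V hAn hVn r Rb hRb
      exact ⟨R, fun _ => hR⟩
    · exact ⟨⊥, fun h => absurd h hr⟩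
  choose R hR using key
  have hex : ∃ r : ℕ, r.Prime ∧ ¬ (R r).Normal := by
    by_contra hno
    push Not at hno
    apply hV
    rw [hVA, eq_bot_iff]
    unfold NR
    rw [Subgroup.closure_le]
    rintro g ⟨x, hx, y, hy, a, b, hab', hxa, hyb, rfl⟩
    have h4 := comm_all A R hno (fun r hr => (hR r hr).1)
      (fun r hr => (hR r hr).2.2 (hno r hr)) x y hx hy a b hab' hxa hyb
    show x * y * x⁻¹ * y⁻¹ ∈ (⊥ : Subgroup F)
    rw [Subgroup.mem_bot, h4]
    group
  obtain ⟨r, hr, hrn⟩ := hex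
  have hS : Subgroup.normalizer (R r : Set F) ≠ ⊤ := by
    intro h
    exact hrn (Subgroup.normalizer_eq_top_iff.1 h)
  have hVS := (hR r hr).2.1
  refine ⟨p, Subgroup.normalizer (R r : Set F), hp, hab, hexp, hS, hVS, ?_⟩
  set S := Subgroup.normalizer (R r : Set F) with hSdef
  have hCn : (Subgroup.centralizer (V : Set F)).Normal := inferInstance
  by_cases hK : S ⊓ Subgroup.centralizer (V : Set F) = ⊥
  · intro s hs hsv
    have : s ∈ S ⊓ Subgroup.centralizer (V : Set F) := by
      refine ⟨hs, Subgroup.mem_centralizer_iff.2 fun v hv => ?_⟩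
      exact (hsv v hv).symm
    rw [hK, Subgroup.mem_bot] at this
    exact this
  · exfalso
    have hKn : (S ⊓ Subgroup.centralizer (V : Set F)).Normal := by
      constructor
      rintro n ⟨hn1, hn2⟩ g
      have hg : g ∈ V ⊔ S := by rw [hVS]; exact Subgroup.mem_top g
      rw [Subgroup.mem_sup_of_normal_left] at hg
      obtain ⟨v, hv, s, hs, rfl⟩ := hg
      have h5 : s * n * s⁻¹ ∈ Subgroup.centralizer (V : Set F) := hCn.conj_mem n hn2 s
      have h6 : s * n * s⁻¹ ∈ S := S.mul_mem (S.mul_mem hs hn1) (S.inv_mem hs)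
      have h7 := Subgroup.mem_centralizer_iff.1 h5 v hv
      have h8 : v * s * n * (v * s)⁻¹ = s * n * s⁻¹ := by
        have : v * s * n * (v * s)⁻¹ = v * (s * n * s⁻¹) * v⁻¹ := by group
        rw [this, h7]
        group
      rw [h8]
      exact ⟨h6, h5⟩
    have h9 := hmin _ hKn hK
    apply hS
    rw [eq_top_iff, ← hVS]
    exact sup_le (le_trans h9 inf_le_left) le_rfl

end Pool.Agent.H32BU
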