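import Mathlib
import Pool.Agent.H32BU.St

set_option autoImplicit false

namespace Pool.Agent.H32BU

namespace TTWOB

theorem DD_le {G : Type} [Group G] (h : S_MON) (A : Subgroup G) (m : ℕ) : DD A m ≤ A := by
  induction m with
  | zero => exact le_refl _
  | succ m ih => exact ((h G).2.1 A m).trans ih

theorem NR_eq_bot_of_comm {G : Type} [Group G] (A : Subgroup G)
    (h : ∀ x ∈ A, ∀ y ∈ A, x * y = y * x) : NR A = ⊥ := by
  unfold NR
  rw [Subgroup.closure_eq_bot_iff]
  rintro g ⟨x, hx, y, hy, a, b, -, -, -, rfl⟩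
  rw [Set.mem_singleton_iff, h x hx y hy]
  group

theorem part1 (hMON : S_MON) (hMAPS : S_MAPS) {F : Type} [Group F] (m : ℕ) (S : Subgroup F)
    [Finite F] (hne : DD (⊤ : Subgroup F) (m + 1) ≠ ⊥)
    (hcomm : ∀ v ∈ DD (⊤ : Subgroup F) (m + 1), ∀ w ∈ DD (⊤ : Subgroup F) (m + 1),
      v * w = w * v)
    (hsup : DD (⊤ : Subgroup F) (m + 1) ⊔ S = ⊤) : DD S m ≠ ⊥ := by
  intro h0
  apply hne
  have hV : (DD (⊤ : Subgroup F) (m + 1)).Normal := (hMON F).2.2.2.1 ⊤ inferInstance _
  have hfin : ∀ x : F, IsOfFinOrder x := fun x => isOfFinOrder_of_finite x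
  set V := DD (⊤ : Subgroup F) (m + 1) with hVdef
  let f := QuotientGroup.mk' V
  have h1 : (⊤ : Subgroup F).map f = S.map f := by
    rw [← hsup, Subgroup.map_sup]
    have : V.map f = ⊥ := by
      rw [Subgroup.map_eq_bot_iff, QuotientGroup.ker_mk']
    rw [this, bot_sup_eq]
  have h2 : (DD (⊤ : Subgroup F) m).map f = ⊥ := by
    rw [hMAPS F (F ⧸ V) f hfin, h1, ← hMAPS F (F ⧸ V) f hfin, h0, Subgroup.map_bot]
  rw [Subgroup.map_eq_bot_iff, QuotientGroup.ker_mk'] at h2
  rw [hVdef]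
  exact NR_eq_bot_of_comm _ fun x hx y hy => hcomm x (h2 hx) y (h2 hy)

end TTWOB

open TTWOB

theorem t_TWOB (hMON : S_MON) (hMAPS : S_MAPS) (hSYL : S_SYL) : S_TWOB := by
  intro F _ m p S hF hp hne hmin hcomm hexp hsup hfaith hS
  have := hF
  refine ⟨part1 hMON hMAPS m S hne hcomm hsup, ?_⟩
  have hV : (DD (⊤ : Subgroup F) (m + 1)).Normal := (hMON F).2.2.2.1 ⊤ inferInstance _
  set V := DD (⊤ : Subgroup F) (m + 1) with hVdef
  obtain ⟨⟨O, hO⟩, -⟩ := hSYL F (DD S m) inferInstance hS p hp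
  have hNS : DD S m ≤ S := DD_le hMON S m
  have hconj : ∀ s ∈ S, ∀ a ∈ DD S m, s⁻¹ * a * s ∈ DD S m := by
    intro s hs a ha
    exact ((hMON F).2.2.1 S s (fun b hb => S.mul_mem (S.mul_mem hs hb) (S.inv_mem hs))
      (fun b hb => S.mul_mem (S.mul_mem (S.inv_mem hs) hb) hs) m).2 a ha
  have hOconj : ∀ s ∈ S, ∀ o ∈ O, s⁻¹ * o * s ∈ O := by
    intro s hs o ho
    obtain ⟨h1, k, hk⟩ := (hO o).1 ho
    refine (hO _).2 ⟨hconj s hs o h1, k, ?_⟩
    have : (s⁻¹ * o * s) ^ p ^ k = s⁻¹ * o ^ p ^ k * s := by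
      have := conj_pow (i := p ^ k) (a := s⁻¹) (b := o)
      rw [inv_inv] at this
      exact this
    rw [this, hk]; group
  let C : Subgroup F := V ⊓ Subgroup.centralizer (O : Set F)
  have hC : C.Normal := by
    rw [← Subgroup.normalizer_eq_top_iff, eq_top_iff, ← hsup, sup_le_iff]
    have key : ∀ s : F, (∀ c ∈ C, s * c * s⁻¹ ∈ C) → (∀ c ∈ C, s⁻¹ * c * s ∈ C) →
        s ∈ Subgroup.normalizer (C : Set F) := by
      intro s h1 h2
      rw [Subgroup.mem_normalizer_iff]
      intro h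
      refine ⟨fun hh => h1 h hh, fun hh => ?_⟩
      have := h2 _ hh
      simpa [mul_assoc] using this
    constructor
    · intro v hv
      apply key
      · intro c hc
        rw [hcomm v hv c hc.1]; simpa using hc
      · intro c hc
        rw [hcomm v⁻¹ (V.inv_mem hv) c hc.1]; simpa using hc
    · have hS' : ∀ s ∈ S, ∀ c ∈ C, s * c * s⁻¹ ∈ C := by
        intro s hs c hc
        refine Subgroup.mem_inf.2 ⟨hV.conj_mem c hc.1 s, Subgroup.mem_centralizer_iff.2 ?_⟩
        intro o ho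
        have h1 := Subgroup.mem_centralizer_iff.1 hc.2 _ (hOconj s hs o ho)
        calc o * (s * c * s⁻¹) = s * ((s⁻¹ * o * s) * c) * s⁻¹ := by group
          _ = s * (c * (s⁻¹ * o * s)) * s⁻¹ := by rw [h1]
          _ = s * c * s⁻¹ * o := by group
      intro s hs
      apply key
      · exact hS' s hs
      · intro c hc
        have := hS' s⁻¹ (S.inv_mem hs) c hc
        simpa using this
  have hCne : C ≠ ⊥ := by
    have : Fact p.Prime := ⟨hp⟩
    let act : MulAction O V :=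
      { smul := fun o v => ⟨o * v * (o : F)⁻¹, hV.conj_mem v v.2 o⟩
        one_smul := by
          intro v; apply Subtype.ext; show (1 : F) * v * (1 : F)⁻¹ = v; simp
        mul_smul := by
          intro a b v; apply Subtype.ext
          show ((a : F) * b) * v * ((a : F) * b)⁻¹ = a * (b * v * (b : F)⁻¹) * (a : F)⁻¹
          group }
    have hOp : IsPGroup p O := by
      intro o
      obtain ⟨-, k, hk⟩ := (hO o).1 o.2
      exact ⟨k, Subtype.ext (by simpa using hk)⟩
    have hdvd : p ∣ Nat.card V := by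
      obtain ⟨v, hv, hv1⟩ := V.bot_or_exists_ne_one.resolve_left hne
      have h1 : orderOf (⟨v, hv⟩ : V) = p := by
        apply orderOf_eq_prime
        · exact Subtype.ext (by simpa using hexp v hv)
        · intro h; exact hv1 (congrArg Subtype.val h)
      rw [← h1]; exact orderOf_dvd_natCard _
    have h1 : (1 : V) ∈ MulAction.fixedPoints O V := by
      intro o; apply Subtype.ext; show (o : F) * 1 * (o : F)⁻¹ = 1; simp
    obtain ⟨b, hb, hb1⟩ := hOp.exists_fixed_point_of_prime_dvd_card_of_fixed_point V hdvd h1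
    intro hbot
    have hbC : (b : F) ∈ C := by
      refine Subgroup.mem_inf.2 ⟨b.2, Subgroup.mem_centralizer_iff.2 ?_⟩
      intro o ho
      have h2 : (⟨o, ho⟩ : O) • b = b := hb ⟨o, ho⟩
      have h3 : o * b * o⁻¹ = b := congrArg Subtype.val h2
      calc o * (b : F) = o * b * o⁻¹ * o := by group
        _ = b * o := by rw [h3]
    rw [hbot, Subgroup.mem_bot] at hbC
    exact hb1 (Subtype.ext hbC.symm)
  have hVC := hmin C hC hCne
  have hO1 : ∀ o ∈ O, o = 1 := by
    intro o ho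
    refine hfaith o (hNS ((hO o).1 ho).1) ?_
    intro v hv
    exact Subgroup.mem_centralizer_iff.1 (hVC hv).2 o ho
  intro b hb
  refine ⟨orderOf b, ?_, pow_orderOf_eq_one b⟩
  rw [Nat.coprime_comm, hp.coprime_iff_not_dvd]
  intro hdiv
  obtain ⟨k, hk⟩ := hdiv
  have hk0 : k ≠ 0 := by
    rintro rfl
    rw [mul_zero] at hk
    exact (orderOf_pos b).ne' hk
  have h1 : b ^ k ∈ O := (hO _).2 ⟨(DD S m).pow_mem hb k, 1, by
    rw [← pow_mul, pow_one, mul_comm, ← hk, pow_orderOf_eq_one]⟩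
  have h2 := orderOf_dvd_of_pow_eq_one (hO1 _ h1)
  have h3 := Nat.le_of_dvd (Nat.pos_of_ne_zero hk0) h2
  rw [hk] at h3
  have := hp.two_le
  nlinarith [Nat.pos_of_ne_zero hk0]

end Pool.Agent.H32BU
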