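import Pool.Agent.H32BU.St

set_option autoImplicit false

/-!
# Task WED: Maschke and Wedderburn
-/

namespace Pool.Agent.H32BU

theorem t_WED : S_WED := by
  intro G _ _
  haveI : NeZero (Nat.card G : ℂ) := ⟨by exact_mod_cast Nat.card_pos.ne'⟩
  haveI : IsSemisimpleRing (MonoidAlgebra ℂ G) := inferInstance
  obtain ⟨n, d, hd, h⟩ :=
    IsSemisimpleRing.exists_algEquiv_pi_matrix_of_isAlgClosed (F := ℂ) (R := MonoidAlgebra ℂ G)
  exact ⟨n, d, fun i => Nat.pos_of_ne_zero (hd i).out, h⟩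

end Pool.Agent.H32BU
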