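import Mathlib
import Pool.Agent.H32BU.VDefs

set_option autoImplicit false

namespace Pool.Agent.H32BU

theorem t_MLFV (h1 : S_NS) (h2 : S_LFS) : S_MLFV := by
  intro V hV n hn hq G _ hVG
  have key : ∀ s : Finset ℕ, (∀ p ∈ s, p.Prime) → ∃ M : Subgroup G, M.Normal ∧ LF M ∧
      ∀ p ∈ s, (Nset (qp p n) : Set G) ⊆ M := by
    intro s
    induction s using Finset.induction_on with
    | empty =>
      intro _
      refine ⟨⊥, inferInstance, ?_, by simp⟩
      intro S
      infer_instance
    | insert p s hps ih =>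
      intro hs
      obtain ⟨M, hM, hMl, hMs⟩ := ih (fun q hq => hs q (Finset.mem_insert_of_mem hq))
      have hp := hs p (Finset.mem_insert_self _ _)
      obtain ⟨h3, h4⟩ := h1 G (qp p n)
      have h5 : LF ↥(Subgroup.closure (Nset (qp p n) : Set G)) := by
        apply hq p hp _ (hV.sub G _ hVG)
        rintro ⟨x, hx⟩
        ext
        simpa using h3 x hx
      refine ⟨Subgroup.closure (Nset (qp p n) : Set G) ⊔ M, ?_, h2.2.2 G _ _ h4 hM h5 hMl, ?_⟩
      · exact Subgroup.sup_normal _ _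
      · intro q hq'
        rcases Finset.mem_insert.1 hq' with rfl | h
        · exact Subgroup.subset_closure.trans (le_sup_left (α := Subgroup G))
        · exact (hMs q h).trans (le_sup_right (α := Subgroup G))
  obtain ⟨M, hM, hMl, hMs⟩ := key n.primeFactors (fun p hp => Nat.prime_of_mem_primeFactors hp)
  refine ⟨M, hM, hMl, ?_⟩
  intro p hp
  by_cases hpn : p ∈ n.primeFactors
  · exact hMs p hpn
  · have h0 : qp p n = 1 := by
      unfold qp
      have : n.factorization p = 0 := by
        rw [Nat.factorization_eq_zero_iff]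
        by_contra hcon
        push Not at hcon
        apply hpn
        exact Nat.mem_primeFactors.2 ⟨hp, hcon.2.1, hcon.2.2⟩
      rw [this, pow_zero]
    rw [h0]
    rintro e ⟨he, -⟩
    rw [pow_one] at he
    rw [he]
    exact M.one_mem

theorem mem_of_parts {G : Type} [Group G] (M : Subgroup G) [M.Normal] (n : ℕ) (hn : 1 ≤ n) (e : G)
    (h : ∀ p : ℕ, p.Prime → e ^ (n / qp p n) ∈ M) : e ∈ M := by
  rw [← QuotientGroup.eq_one_iff, ← orderOf_eq_one_iff]
  by_contra hcon
  obtain ⟨p, hp, hpd⟩ := Nat.exists_prime_and_dvd hcon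
  have h1 : orderOf (e : G ⧸ M) ∣ n / qp p n := by
    apply orderOf_dvd_of_pow_eq_one
    rw [← QuotientGroup.mk_pow, QuotientGroup.eq_one_iff]
    exact h p hp
  exact Nat.not_dvd_ordCompl hp (by omega) (hpd.trans h1)

theorem map_c3 {G H : Type} [Group G] [Group H] (f : G →* H) (a x z : G) :
    (c3 a x z).map f = c3 (f a) (f x) (f z) := by
  unfold c3
  rw [MonoidHom.map_closure]
  congr 1
  simp [Set.image_insert_eq]

theorem map_c2 {G H : Type} [Group G] [Group H] (f : G →* H) (a x : G) :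
    (c2 a x).map f = c2 (f a) (f x) := by
  unfold c2
  rw [MonoidHom.map_closure]
  congr 1
  simp [Set.image_insert_eq]

theorem t_STEPV (h1 : S_MLFV) (h2 : S_COPC) (h3 : S_TWO) (h4 : S_MAPS) (h5 : S_MAPI)
    (h6 : S_MON) : S_STEPV := by
  intro V hV n hn hq m G _ hVG hG h
  obtain ⟨M, hM, hMl, hMs⟩ := h1 V hV n hn hq G hVG
  refine ⟨M, hM, hMl, ?_⟩
  have htor : ∀ x : G, IsOfFinOrder x := fun x => isOfFinOrder_iff_pow_eq_one.2 ⟨n, by omega, hG x⟩
  -- two-generator subgroups
  have htwo : ∀ a x : G, DD (c2 a x) m ≤ M := by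
    intro a x e he
    apply mem_of_parts M n hn e
    intro p hp
    apply hMs p hp
    have hpe : (e ^ (n / qp p n)) ^ qp p n = 1 := by
      rw [← pow_mul, show n / qp p n * qp p n = n from Nat.div_mul_cancel (Nat.ordProj_dvd n p),
        hG]
    refine ⟨hpe, ?_⟩
    intro y hy
    obtain ⟨hf, hs, hd⟩ := h a x y
    have hle : c2 a x ≤ c3 a x y := by
      unfold c2 c3
      apply Subgroup.closure_mono
      intro t ht
      simp only [Set.mem_insert_iff, Set.mem_singleton_iff] at ht ⊢
      tauto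
    have hyin : y ∈ c3 a x y := Subgroup.subset_closure (by simp)
    exact h2 G (c3 a x y) hf n hn (fun t _ => hG t) m hd p hp _
      (Subgroup.pow_mem _ ((h6 G).1 _ _ hle m he) _) hpe y hyin hy
  intro a' x' z'
  obtain ⟨a, rfl⟩ := QuotientGroup.mk_surjective a'
  obtain ⟨x, rfl⟩ := QuotientGroup.mk_surjective x'
  obtain ⟨z, rfl⟩ := QuotientGroup.mk_surjective z'
  obtain ⟨hf, hs, hd⟩ := h a x z
  have hmap : (c3 a x z).map (QuotientGroup.mk' M) =
      c3 (a : G ⧸ M) (x : G ⧸ M) (z : G ⧸ M) := map_c3 _ a x z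
  rw [← hmap]
  have hsurj := (QuotientGroup.mk' M).subgroupMap_surjective (c3 a x z)
  have hf' : Finite ((c3 a x z).map (QuotientGroup.mk' M)) := Finite.of_surjective _ hsurj
  have hs' : Group.IsSolvable ((c3 a x z).map (QuotientGroup.mk' M)) :=
    Group.isSolvable_of_surjective hsurj
  refine ⟨hf', hs', ?_⟩
  set F : Subgroup (G ⧸ M) := (c3 a x z).map (QuotientGroup.mk' M) with hF
  have h7 : DD (⊤ : Subgroup F) m = ⊥ := by
    apply h3 F hf' hs' m
    intro b y
    have h8 := h5 F (G ⧸ M) F.subtype F.subtype_injective (c2 b y) m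
    have h9 : DD ((c2 b y).map F.subtype) m = ⊥ := by
      rw [map_c2]
      obtain ⟨b', hb'⟩ := QuotientGroup.mk_surjective (b : G ⧸ M)
      obtain ⟨y', hy'⟩ := QuotientGroup.mk_surjective (y : G ⧸ M)
      have h10 : c2 (F.subtype b) (F.subtype y) = (c2 b' y').map (QuotientGroup.mk' M) := by
        rw [map_c2]
        simp [hb', hy']
      rw [h10, ← h4 G (G ⧸ M) (QuotientGroup.mk' M) htor]
      rw [eq_bot_iff]
      rintro _ ⟨w, hw, rfl⟩
      rw [Subgroup.mem_bot]
      exact (QuotientGroup.eq_one_iff w).2 (htwo b' y' hw)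
    rw [h9] at h8
    exact (Subgroup.map_eq_bot_iff_of_injective _ F.subtype_injective).1 h8
  have h11 := h5 F (G ⧸ M) F.subtype F.subtype_injective ⊤ m
  rw [h7, Subgroup.map_bot, ← MonoidHom.range_eq_map, Subgroup.range_subtype] at h11
  exact h11.symm

/-- the plain versions -/
theorem t_IND' (h1 : S_STEPV) (h2 : S_SCH) : S_IND := by
  intro n hn hq m G _ hG h
  exact t_INDV h1 h2 (fun G [Group G] => True) ⟨fun _ _ _ _ => trivial, fun _ _ _ _ _ => trivial⟩
    n hn (fun p hp H _ _ hH => hq p hp H hH) m G trivial hG h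

end Pool.Agent.H32BU
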