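import Mathlib
import Pool.Agent.H32BU.TMON
import Pool.Agent.H32BU.TMAPI
import Pool.Agent.H32BU.TMAPS
import Pool.Agent.H32BU.TSYL2
import Pool.Agent.H32BU.TCOPC
import Pool.Agent.H32BU.TSOLH
import Pool.Agent.H32BU.TSZ2
import Pool.Agent.H32BU.TCNT2
import Pool.Agent.H32BU.TPAIR
import Pool.Agent.H32BU.TTWOA
import Pool.Agent.H32BU.TTWOB
import Pool.Agent.H32BU.TTWO
import Pool.Agent.H32BU.TNS
import Pool.Agent.H32BU.TSCH
import Pool.Agent.H32BU.TLFS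
import Pool.Agent.H32BU.TQB
import Pool.Agent.H32BU.TLFD
import Pool.Agent.H32BU.TL34
import Pool.Agent.H32BU.TWED
import Pool.Agent.H32BU.TTRZ
import Pool.Agent.H32BU.TINTG
import Pool.Agent.H32BU.TNRM
import Pool.Agent.H32BU.TCEN
import Pool.Agent.H32BU.TTRI
import Pool.Agent.H32BU.TPPC
import Pool.Agent.H32BU.TBUR
import Pool.Agent.H32BU.TCRD
import Pool.Agent.H32BU.VStep
import Pool.Agent.H32BU.VFin
import Pool.Agent.H32BU.Fin2

set_option autoImplicit false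

/-!
# Putting the pieces together
-/

namespace Pool.Agent.H32BU

theorem x_MON : S_MON := t_MON
theorem x_MAPI : S_MAPI := t_MAPI
theorem x_MAPS : S_MAPS := t_MAPS
theorem x_SYL : S_SYL := t_SYL
theorem x_COPC : S_COPC := t_COPC x_SYL x_MON
theorem x_SOLH : S_SOLH := t_SOLH
theorem x_SZ : S_SZ := t_SZ
theorem x_CNT : S_CNT := t_CNT
theorem x_PAIR : S_PAIR := t_PAIR x_SZ x_CNT x_MAPS x_MON x_SYL
theorem x_TWOA : S_TWOA := t_TWOA x_MON x_MAPS x_SYL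
theorem x_TWOB : S_TWOB := t_TWOB x_MON x_MAPS x_SYL
theorem x_TWO : S_TWO := t_TWO x_TWOA x_TWOB x_PAIR x_MAPI x_MAPS x_MON
theorem x_NS : S_NS := t_NS
theorem x_SCH : S_SCH := t_SCH
theorem x_LFS : S_LFS := t_LFS x_SCH
theorem x_MLFV : S_MLFV := t_MLFV x_NS x_LFS
theorem x_STEPV : S_STEPV := t_STEPV x_MLFV x_COPC x_TWO x_MAPS x_MAPI x_MON
theorem x_INDV : S_INDV := t_INDV x_STEPV x_SCH
theorem x_IND : S_IND := t_IND' x_STEPV x_SCH
theorem x_QB : S_QB := t_QB x_SOLH x_MAPS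
theorem x_LFD : S_LFD := t_LFD
theorem x_L34 : S_L34 := t_L34
theorem x_WED : S_WED := t_WED
theorem x_TRZ : S_TRZ := t_TRZ
theorem x_INTG : S_INTG := t_INTG
theorem x_NRM : S_NRM := t_NRM x_INTG
theorem x_CEN : S_CEN := t_CEN
theorem x_TRI : S_TRI := t_TRI
theorem x_PPC : S_PPC := t_PPC x_WED x_TRZ x_INTG x_NRM x_CEN x_TRI
theorem x_BUR : S_BUR := t_BUR x_PPC
theorem x_CRD : S_CRD := t_CRD

universe u

theorem x_FINAL (n : ℕ) (hn : 1 ≤ n)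
    (hs : n.primeFactors.card ≤ 2 ∨ Group.IsSolvable (Bu 3 n))
    (hq : ∀ p k : ℕ, p.Prime → p ^ k ∣ n → 4 < p ^ k → InL.{u} (p ^ k)) :
    InL.{u} n ↔ Finite (Bu 3 n) :=
  final2 x_IND x_QB x_LFD x_L34 x_BUR x_CRD n hn hs hq

end Pool.Agent.H32BU
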