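import Mathlib
import Pool.Agent.H32BU.St

set_option autoImplicit false

namespace Pool.Agent.H32BU

theorem t_CNT : S_CNT := by
  intro F _ V C a x hF hV hcomm hCV hCa hCx hex u0 hu0
  classical
  choose! U hU using hex
  have hU1 : ∀ v ∈ V, U v ∈ V := fun v hv => (hU v hv).1
  let φ : V ⧸ C.subgroupOf V → V ⧸ C.subgroupOf V := fun q =>
    QuotientGroup.mk (⟨U ((Quotient.out q : V) : F), hU1 _ (Quotient.out q : V).2⟩ : V)
  -- elements in the same coset
  have hcos : ∀ v w : V, (QuotientGroup.mk v : V ⧸ C.subgroupOf V) = QuotientGroup.mk w →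
      ∃ c ∈ C, (w : F) = c * v := by
    intro v w h
    rw [QuotientGroup.eq, Subgroup.mem_subgroupOf] at h
    refine ⟨_, h, ?_⟩
    have h1 : ((v⁻¹ * w : V) : F) ∈ V := (v⁻¹ * w).2
    rw [hcomm _ h1 _ v.2]
    push_cast
    group
  have hcos' : ∀ v w : V, (w : F) * (v : F)⁻¹ ∈ C →
      (QuotientGroup.mk v : V ⧸ C.subgroupOf V) = QuotientGroup.mk w := by
    intro v w h
    rw [QuotientGroup.eq, Subgroup.mem_subgroupOf]
    have h1 : ((v⁻¹ * w : V) : F) = (w : F) * (v : F)⁻¹ := by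
      push_cast
      exact hcomm _ (V.inv_mem v.2) _ w.2
    rw [h1]
    exact h
  have hinj : Function.Injective φ := by
    intro q q' hqq
    obtain ⟨c, hc, hcu⟩ := hcos _ _ hqq
    simp only at hcu
    set v : V := Quotient.out q with hv
    set v' : V := Quotient.out q' with hv'
    have h1 := (hU (v : F) v.2).2.2
    have h2 := (hU (v' : F) v'.2).2.2
    rw [hcu] at h2
    set u := U (v : F) with hu
    have huV : u ∈ V := hU1 _ v.2
    have hxu : x⁻¹ * u * x ∈ V := by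
      have := hV.conj_mem u huV x⁻¹
      simpa using this
    have h3 : x⁻¹ * u * x * v' * u⁻¹ ∈ C := by
      have h4 : x⁻¹ * u * x * v' * u⁻¹ =
          (x⁻¹ * c * x)⁻¹ * (x⁻¹ * (c * u) * x * v' * (c * u)⁻¹) * c := by group
      rw [h4]
      exact C.mul_mem (C.mul_mem (C.inv_mem (hCx c hc)) h2) hc
    have h5 : (v' : F) * (v : F)⁻¹ ∈ C := by
      have h6 := C.mul_mem h3 (C.inv_mem h1)
      have h7 : x⁻¹ * u * x * v' * u⁻¹ * (x⁻¹ * u * x * v * u⁻¹)⁻¹ =
          (x⁻¹ * u * x) * ((v' : F) * (v : F)⁻¹) * (x⁻¹ * u * x)⁻¹ := by group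
      rw [h7, hcomm _ hxu _ (V.mul_mem v'.2 (V.inv_mem v.2)), mul_inv_cancel_right] at h6
      exact h6
    have h8 := hcos' v v' h5
    rw [hv, hv'] at h8
    simpa using h8
  have hfin : Finite (V ⧸ C.subgroupOf V) := inferInstance
  have hsurj : Function.Surjective φ := Finite.surjective_of_injective hinj
  obtain ⟨q, hq⟩ := hsurj (QuotientGroup.mk (⟨u0, hu0⟩ : V))
  obtain ⟨c, hc, hcu⟩ := hcos _ _ hq
  simp only at hcu
  set v : V := Quotient.out q with hv
  have h1 := (hU (v : F) v.2).2.1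
  rw [hcu]
  have h2 : a⁻¹ * (c * U v) * a * (c * U v)⁻¹ =
      (a⁻¹ * c * a) * (a⁻¹ * U v * a * (U v)⁻¹) * c⁻¹ := by group
  rw [h2]
  exact C.mul_mem (C.mul_mem (hCa c hc) h1) (C.inv_mem hc)

end Pool.Agent.H32BU
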