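import Pool.Agent.H32BU.St

/-!
# IND: induction on the height
-/

set_option autoImplicit false

namespace Pool.Agent.H32BU

/-- **IND** -/
theorem t_IND (h1 : S_STEP) (h2 : S_SCH) : S_IND := by
  intro n hn hp m
  induction m with
  | zero =>
    intro G _ hG h
    have h3 : ∀ a : G, a = 1 := by
      intro a
      have h4 : DD (c3 a a a) 0 = ⊥ := (h a a a).2.2
      have h5 : a ∈ DD (c3 a a a) 0 :=
        Subgroup.subset_closure (by simp)
      rw [h4] at h5
      exact Subgroup.mem_bot.1 h5
    have h4 : Subsingleton G := ⟨fun a b => by rw [h3 a, h3 b]⟩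
    intro S
    infer_instance
  | succ m ih =>
    intro G _ hG h
    obtain ⟨M, hM, hLF, hQ⟩ := h1 n hn hp m G hG h
    refine h2 G M hLF (ih (G ⧸ M) ?_ hQ)
    intro x
    obtain ⟨g, rfl⟩ := QuotientGroup.mk_surjective x
    rw [← QuotientGroup.mk_pow, hG]
    rfl

end Pool.Agent.H32BU
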