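import Mathlib
import Pool.Agent.H32BU.St

set_option autoImplicit false

namespace Pool.Agent.H32BU

namespace TLFS

theorem image (G H : Type) [Group G] [Group H] (f : G →* H) (hf : Function.Surjective f)
    (h : LF G) : LF H := by
  classical
  intro S
  have h1 := h (S.image (Function.surjInv hf))
  have h2 : Subgroup.closure (S : Set H) =
      (Subgroup.closure ((S.image (Function.surjInv hf) : Finset G) : Set G)).map f := by
    rw [MonoidHom.map_closure, Finset.coe_image, ← Set.image_comp]
    congr 1
    ext x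
    simp [Function.surjInv_eq hf]
  rw [h2]
  have h3 : ((Subgroup.closure ((S.image (Function.surjInv hf) : Finset G) : Set G)).map f :
      Set H).Finite := by
    rw [Subgroup.coe_map]
    exact Set.Finite.image _ (Set.toFinite _)
  exact h3.to_subtype

theorem sub (G H : Type) [Group G] [Group H] (f : G →* H) (hf : Function.Injective f)
    (h : LF H) : LF G := by
  classical
  intro S
  have h1 := h (S.image f)
  have h2 : Subgroup.closure ((S.image f : Finset H) : Set H) =
      (Subgroup.closure (S : Set G)).map f := by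
    rw [MonoidHom.map_closure, Finset.coe_image]
  rw [h2] at h1
  have h3 : (f '' (Subgroup.closure (S : Set G) : Set G)).Finite := by
    rw [← Subgroup.coe_map]
    exact Set.toFinite _
  exact (Set.Finite.of_finite_image h3 hf.injOn).to_subtype

end TLFS

theorem t_LFS (h1 : S_SCH) : S_LFS := by
  refine ⟨TLFS.image, TLFS.sub, ?_⟩
  intro G _ A B hA hB hLA hLB
  have hn : (A.subgroupOf (A ⊔ B)).Normal := by infer_instance
  apply h1 ↥(A ⊔ B) (A.subgroupOf (A ⊔ B))
  · refine TLFS.sub _ ↥A
      { toFun := fun x => ⟨(x : ↥(A ⊔ B)), x.2⟩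
        map_one' := rfl
        map_mul' := fun _ _ => rfl } ?_ hLA
    intro x y hxy
    have : ((x : ↥(A ⊔ B)) : G) = ((y : ↥(A ⊔ B)) : G) :=
      congrArg (fun z : ↥A => (z : G)) hxy
    exact Subtype.ext (Subtype.ext this)
  · refine TLFS.image ↥B _ ((QuotientGroup.mk' (A.subgroupOf (A ⊔ B))).comp
      (Subgroup.inclusion (le_sup_right : B ≤ A ⊔ B))) ?_ hLB
    intro q
    obtain ⟨g, rfl⟩ := QuotientGroup.mk'_surjective _ q
    obtain ⟨g, hg⟩ := g
    obtain ⟨a, ha, b, hb, hab⟩ := (Subgroup.mem_sup_of_normal_left (s := A) (t := B)).mp hg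
    refine ⟨⟨b, hb⟩, ?_⟩
    simp only [MonoidHom.comp_apply]
    rw [QuotientGroup.mk'_apply, QuotientGroup.mk'_apply, QuotientGroup.eq]
    rw [Subgroup.mem_subgroupOf]
    simp only [Subgroup.coe_mul, Subgroup.coe_inv, Subgroup.coe_inclusion]
    rw [← hab]
    have := hA.conj_mem a ha b⁻¹
    simpa [mul_assoc] using this

end Pool.Agent.H32BU
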