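import Pool.Agent.H32BU.St

set_option autoImplicit false

/-!
Task MLF: the locally finite normal subgroup `M`.
-/

namespace Pool.Agent.H32BU

namespace TMLF

theorem lf_bot (G : Type) [Group G] : LF (⊥ : Subgroup G) := by
  intro S
  infer_instance

theorem lf_closure (h1 : S_NS) {q : ℕ} (hq : LocFin q) (G : Type) [Group G] :
    LF ↥(Subgroup.closure (Nset q : Set G)) := by
  apply hq
  intro x
  apply Subtype.ext
  rw [Subgroup.coe_pow, Subgroup.coe_one]
  exact (h1 G q).1 x.1 x.2

theorem fin_sup (h1 : S_NS) (h2 : S_LFS) {n : ℕ} (hloc : ∀ p : ℕ, p.Prime → LocFin (qp p n))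
    (G : Type) [Group G] (s : Finset ℕ) (hs : ∀ p ∈ s, p.Prime) :
    ∃ M : Subgroup G, M.Normal ∧ LF M ∧ ∀ p ∈ s, (Nset (qp p n) : Set G) ⊆ M := by
  classical
  induction s using Finset.induction_on with
  | empty =>
    exact ⟨⊥, inferInstance, lf_bot G, fun p hp => absurd hp (Finset.notMem_empty p)⟩
  | insert p s hp ih =>
    obtain ⟨M, hM, hLF, hN⟩ := ih (fun q hq => hs q (Finset.mem_insert_of_mem hq))
    have hpp : p.Prime := hs p (Finset.mem_insert_self p s)
    have hn2 : (Subgroup.closure (Nset (qp p n) : Set G)).Normal := (h1 G (qp p n)).2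
    refine ⟨M ⊔ Subgroup.closure (Nset (qp p n) : Set G), ?_, ?_, ?_⟩
    · exact Subgroup.sup_normal _ _
    · exact h2.2.2 G _ _ hM hn2 hLF (lf_closure h1 (hloc p hpp) G)
    · intro q hq
      rcases Finset.mem_insert.1 hq with rfl | hq
      · intro x hx
        exact (le_sup_right : _ ≤ M ⊔ Subgroup.closure (Nset (qp q n) : Set G))
          (Subgroup.subset_closure hx)
      · intro x hx
        exact (le_sup_left : M ≤ M ⊔ Subgroup.closure (Nset (qp p n) : Set G)) (hN q hq hx)

end TMLF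

theorem t_MLF (h1 : S_NS) (h2 : S_LFS) : S_MLF := by
  intro n hn hloc G _
  obtain ⟨M, hM, hLF, hN⟩ := TMLF.fin_sup h1 h2 hloc G n.primeFactors
    (fun p hp => Nat.prime_of_mem_primeFactors hp)
  refine ⟨M, hM, hLF, ?_⟩
  intro p hp
  by_cases hpn : p ∈ n.primeFactors
  · exact hN p hpn
  · have hnd : ¬ p ∣ n := by
      intro hd
      exact hpn (Nat.mem_primeFactors.2 ⟨hp, hd, by omega⟩)
    have hq : qp p n = 1 := by
      unfold qp
      rw [Nat.factorization_eq_zero_of_not_dvd hnd, pow_zero]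
    intro x hx
    rw [hq] at hx
    have h3 : x ^ 1 = 1 := hx.1
    rw [pow_one] at h3
    rw [h3]
    exact M.one_mem

end Pool.Agent.H32BU
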