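import Pool.Agent.H32BU.St

set_option autoImplicit false

namespace Pool.Agent.H32BU

namespace TSTEP

lemma pow_mem_all {G : Type} [Group G] (M : Subgroup G) [M.Normal] (n : ℕ) (hn : 1 ≤ n) (e : G)
    (h : ∀ p : ℕ, p.Prime → e ^ (n / qp p n) ∈ M) : e ∈ M := by
  rw [← QuotientGroup.eq_one_iff]
  have hn0 : n ≠ 0 := by omega
  by_contra hne
  have h1 : orderOf (QuotientGroup.mk e : G ⧸ M) ≠ 1 := by
    rw [Ne, orderOf_eq_one_iff]
    exact hne
  obtain ⟨p, hp, hpd⟩ := Nat.exists_prime_and_dvd h1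
  have h2 : orderOf (QuotientGroup.mk e : G ⧸ M) ∣ n / qp p n := by
    rw [orderOf_dvd_iff_pow_eq_one, ← QuotientGroup.mk_pow, QuotientGroup.eq_one_iff]
    exact h p hp
  have h3 : Nat.Coprime p (n / qp p n) := Nat.coprime_ordCompl hp hn0
  exact (hp.coprime_iff_not_dvd.mp h3) (hpd.trans h2)

lemma map_c2 {G H : Type} [Group G] [Group H] (f : G →* H) (a x : G) :
    (c2 a x).map f = c2 (f a) (f x) := by
  unfold c2
  rw [MonoidHom.map_closure, Set.image_pair]

lemma map_c3 {G H : Type} [Group G] [Group H] (f : G →* H) (a x z : G) :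
    (c3 a x z).map f = c3 (f a) (f x) (f z) := by
  unfold c3
  rw [MonoidHom.map_closure, Set.image_insert_eq, Set.image_pair]

end TSTEP

open TSTEP in
theorem t_STEP (h1 : S_MLF) (h2 : S_COPC) (h3 : S_TWO) (h4 : S_MAPS) (h5 : S_MAPI)
    (h6 : S_MON) : S_STEP := by
  intro n hn hloc m G _ hG h
  obtain ⟨M, hMn, hLF, hN⟩ := h1 n hn hloc G
  have hn0 : n ≠ 0 := by omega
  have key : ∀ a x : G, ∀ e ∈ DD (c2 a x) m, e ∈ M := by
    intro a x e he
    have hpq : ∀ p : ℕ, (e ^ (n / qp p n)) ^ qp p n = 1 := by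
      intro p
      have h9 : n / qp p n * qp p n = n := Nat.div_mul_cancel (Nat.ordProj_dvd n p)
      rw [← pow_mul, h9]
      exact hG e
    refine pow_mem_all M n hn e ?_
    intro p hp
    apply hN p hp
    refine ⟨?_, ?_⟩
    · exact hpq p
    · intro y hy c hc
      obtain ⟨hfin, -, hDD⟩ := h a x y
      have hle : c2 a x ≤ c3 a x y := by
        apply Subgroup.closure_mono
        intro g hg
        simp only [Set.mem_insert_iff, Set.mem_singleton_iff] at hg ⊢
        tauto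
      have hyF : y ∈ c3 a x y := Subgroup.subset_closure (by simp)
      have heF : e ^ (n / qp p n) ∈ DD (c3 a x y) m :=
        Subgroup.pow_mem _ ((h6 G).1 _ _ hle m he) _
      exact h2 G (c3 a x y) hfin n hn (fun x _ => hG x) m hDD p hp _ heF (hpq p) y hyF hy c hc
  refine ⟨M, hMn, hLF, ?_⟩
  have htor : ∀ x : G, IsOfFinOrder x := fun x =>
    isOfFinOrder_iff_pow_eq_one.mpr ⟨n, by omega, hG x⟩
  have hc2 : ∀ a x : G ⧸ M, DD (c2 a x) m = ⊥ := by
    intro a x
    obtain ⟨a, rfl⟩ := QuotientGroup.mk'_surjective M a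
    obtain ⟨x, rfl⟩ := QuotientGroup.mk'_surjective M x
    rw [← map_c2, ← h4 G (G ⧸ M) (QuotientGroup.mk' M) htor]
    rw [Subgroup.map_eq_bot_iff, QuotientGroup.ker_mk']
    intro e he
    exact key a x e he
  intro a x z
  have hfs : Finite (c3 a x z) ∧ Group.IsSolvable (c3 a x z) := by
    obtain ⟨a, rfl⟩ := QuotientGroup.mk'_surjective M a
    obtain ⟨x, rfl⟩ := QuotientGroup.mk'_surjective M x
    obtain ⟨z, rfl⟩ := QuotientGroup.mk'_surjective M z
    rw [← map_c3]
    obtain ⟨hfin, hsol, -⟩ := h a x z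
    have hs := MonoidHom.subgroupMap_surjective (QuotientGroup.mk' M) (c3 a x z)
    exact ⟨Finite.of_surjective _ hs, Group.isSolvable_of_surjective hs⟩
  obtain ⟨hfin, hsol⟩ := hfs
  refine ⟨hfin, hsol, ?_⟩
  have hinj : Function.Injective (c3 a x z).subtype := Subgroup.subtype_injective _
  have h7 : DD (⊤ : Subgroup (c3 a x z)) m = ⊥ := by
    apply h3 (c3 a x z) hfin hsol m
    intro u v
    rw [← Subgroup.map_eq_bot_iff_of_injective _ hinj, h5 _ _ _ hinj, map_c2]
    exact hc2 _ _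
  have h8 := h5 _ _ (c3 a x z).subtype hinj ⊤ m
  rw [h7, Subgroup.map_bot, ← MonoidHom.range_eq_map, Subgroup.range_subtype] at h8
  exact h8.symm

end Pool.Agent.H32BU
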